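import Pool.Agent.Lib.MP_2f17d2_lc.SO.SgD

/-!
# Families of strands given by functions: definitions

A family gives for every strand `(i, τ)` a continuous piecewise affine function `F i τ` on `[-2, 2]`, the abscissae `X e a b` of the crossings (strand `(i, a)` and strand `(j, b)`
at the event `e = (i, j)`), additional vertices `G e` before the event `e`, and a height `H`. The drawing consists of the graphs (upper strands from left to right, lower strands from right to left),
vertical connectors on the lines `x = 2` and `x = -2`, and a frame with a loop around everything.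
-/

set_option autoImplicit false

namespace Pool.Agent.SO

noncomputable section

structure Fam where
  n : ℕ
  E : List (ℕ × ℕ)
  F : ℕ → Bool → ℝ → ℝ
  X : ℕ → Bool → Bool → ℝ
  G : ℕ → List ℝ
  H : ℝ

/-- The vertices of the strand `(i, τ)` at the event `e`, with marks. -/
def mkx (X : ℕ → Bool → Bool → ℝ) (n i : ℕ) (τ : Bool) (e : ℕ) (q : ℕ × ℕ) : List (ℝ × Option (ℕ × Bool)) :=
  if q.1 = i then [(X e τ false, some (lab n e τ false, τ)), (X e τ true, some (lab n e τ true, !τ))]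
  else if q.2 = i then [(X e true τ, some (lab n e true τ, τ)), (X e false τ, some (lab n e false τ, !τ))]
  else []

/-- Unmarked vertices. -/
def unm (l : List ℝ) : List (ℝ × Option (ℕ × Bool)) := l.map fun x => (x, none)

/-- The abscissae of the vertices of the strand `(i, τ)`, from left to right, with marks. -/
def Fam.xs (S : Fam) (i : ℕ) (τ : Bool) : List (ℝ × Option (ℕ × Bool)) :=
  [(-2, none), (-3 / 2, some (1 + 2 * i, τ)), (-1, none)] ++
    (((List.range S.E.length).flatMap fun e => unm (S.G e) ++ mkx S.X S.n i τ e (S.E.getD e (0, 0))) ++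
      (unm (S.G S.E.length) ++ [(1, none), (3 / 2, some (2 + 2 * i, !τ)), (2, none)]))

/-- The point of the strand `(i, τ)` over `x`. -/
def Fam.P (S : Fam) (i : ℕ) (τ : Bool) (x : ℝ) : Pt := (x, S.F i τ x)

/-- The strand as a polygonal path, from left to right. -/
def Fam.path (S : Fam) (i : ℕ) (τ : Bool) : Poly := (S.xs i τ).map fun p => (S.P i τ p.1, p.2)

/-- The strand in the direction of traversal. -/
def Fam.strand (S : Fam) (i : ℕ) (τ : Bool) : Poly := if τ then S.path i true else (S.path i false).reverse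

/-- The loop around everything, between the two rounds. -/
def Fam.frame1 (S : Fam) : Poly :=
  [((-2, S.H), some (0, false)), ((-2, S.H + 1), none), ((3, S.H + 1), none), ((3, -S.H - 1), none),
    ((-3, -S.H - 1), none), ((-3, S.H), none), ((-2, S.H), some (0, true)), ((2, S.H), none)]

/-- The way back to the start. -/
def Fam.frame2 (S : Fam) : Poly := [((2, -S.H), none), ((-2, -S.H), none)]

/-- The first and the second round. -/
def Fam.round1 (S : Fam) : Poly := (List.range S.n).flatMap fun i => S.strand i (decide (i % 2 = 0))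

def Fam.round2 (S : Fam) : Poly := (List.range S.n).flatMap fun i => S.strand i (decide (i % 2 = 1))

/-- The drawing. -/
def Fam.V (S : Fam) : Poly := S.round1 ++ (S.frame1 ++ (S.round2 ++ S.frame2))

/-- The edges of the strand `(i, τ)` in the direction of traversal. -/
def Fam.inner (S : Fam) (i : ℕ) (τ : Bool) : List Seg :=
  if τ then ((S.xs i true).zip (S.xs i true).tail).map fun p => ⟨S.P i true p.1.1, S.P i true p.2.1, p.1.2⟩
  else (((S.xs i false).zip (S.xs i false).tail).map fun p =>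
    (⟨S.P i false p.2.1, S.P i false p.1.1, p.2.2⟩ : Seg)).reverse

/-- The connector from the end of the strand `(i, τ)` to the start of the next strand. -/
def Fam.conn (S : Fam) (i : ℕ) (τ : Bool) : Seg :=
  if τ then ⟨S.P i true 2, (2, if i + 1 < S.n then S.F (i + 1) false 2 else -S.H), none⟩
  else ⟨S.P i false (-2), (-2, if i + 1 < S.n then S.F (i + 1) true (-2) else S.H), none⟩

/-- The edges of the frame. -/
def Fam.fr1 (S : Fam) : List Seg :=
  [⟨(-2, S.H), (-2, S.H + 1), some (0, false)⟩, ⟨(-2, S.H + 1), (3, S.H + 1), none⟩,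
    ⟨(3, S.H + 1), (3, -S.H - 1), none⟩, ⟨(3, -S.H - 1), (-3, -S.H - 1), none⟩,
    ⟨(-3, -S.H - 1), (-3, S.H), none⟩, ⟨(-3, S.H), (-2, S.H), none⟩,
    ⟨(-2, S.H), (2, S.H), some (0, true)⟩, ⟨(2, S.H), S.P 0 false 2, none⟩]

def Fam.fr2 (S : Fam) : List Seg :=
  [⟨(2, -S.H), (-2, -S.H), none⟩, ⟨(-2, -S.H), S.P 0 true (-2), none⟩]

/-- All the conditions on a family. -/
structure Fam.Ok (S : Fam) : Prop where
  n_pos : 0 < S.n
  n_even : S.n % 2 = 0
  lt : ∀ e < S.E.length, (S.E.getD e (0, 0)).1 < (S.E.getD e (0, 0)).2 ∧ (S.E.getD e (0, 0)).2 < S.n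
  once : ∀ i j, i < j → j < S.n → ∃ e < S.E.length, S.E.getD e (0, 0) = (i, j) ∧
    ∀ e' < S.E.length, S.E.getD e' (0, 0) = (i, j) → e' = e
  bound : ∀ i < S.n, ∀ τ x, -2 ≤ x → x ≤ 2 → -S.H < S.F i τ x ∧ S.F i τ x < S.H
  own_in : ∀ i < S.n, ∀ x, -3 / 2 < x → x < 3 / 2 → S.F i false x < S.F i true x
  own_left : ∀ i < S.n, ∀ x, -2 ≤ x → x < -3 / 2 → S.F i true x < S.F i false x
  own_right : ∀ i < S.n, ∀ x, 3 / 2 < x → x ≤ 2 → S.F i true x < S.F i false x
  own_A : ∀ i < S.n, S.F i true (-3 / 2) = S.F i false (-3 / 2)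
  own_B : ∀ i < S.n, S.F i true (3 / 2) = S.F i false (3 / 2)
  X_mem : ∀ e < S.E.length, ∀ a b, -1 < S.X e a b ∧ S.X e a b < 1
  cross : ∀ e < S.E.length, ∀ i j, S.E.getD e (0, 0) = (i, j) → ∀ a b,
    S.F i a (S.X e a b) = S.F j b (S.X e a b)
  cross_lt : ∀ e < S.E.length, ∀ i j, S.E.getD e (0, 0) = (i, j) → ∀ a b x, -2 ≤ x → x < S.X e a b →
    S.F i a x < S.F j b x
  cross_gt : ∀ e < S.E.length, ∀ i j, S.E.getD e (0, 0) = (i, j) → ∀ a b x, S.X e a b < x → x ≤ 2 →
    S.F j b x < S.F i a x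
  G_mem : ∀ e ≤ S.E.length, ∀ g ∈ S.G e, -1 < g ∧ g < 1
  G_sorted : ∀ e ≤ S.E.length, (S.G e).Pairwise (· < ·)
  G_lt : ∀ e e', e < e' → e' ≤ S.E.length → ∀ g ∈ S.G e, ∀ g' ∈ S.G e', g < g'
  G_X : ∀ e < S.E.length, ∀ e' ≤ e, ∀ g ∈ S.G e', ∀ a b, g < S.X e a b
  X_G : ∀ e < S.E.length, ∀ e', e < e' → e' ≤ S.E.length → ∀ g ∈ S.G e', ∀ a b, S.X e a b < g
  X_fst : ∀ e < S.E.length, ∀ a, S.X e a false < S.X e a true
  X_snd : ∀ e < S.E.length, ∀ b, S.X e true b < S.X e false b
  X_lt : ∀ e e', e < e' → e' < S.E.length → ∀ i,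
    ((S.E.getD e (0, 0)).1 = i ∨ (S.E.getD e (0, 0)).2 = i) →
    ((S.E.getD e' (0, 0)).1 = i ∨ (S.E.getD e' (0, 0)).2 = i) → ∀ a b a' b', S.X e a b < S.X e' a' b'
  affine : ∀ i < S.n, ∀ τ a b, -2 ≤ a → a < b → b ≤ 2 → ¬ (a < -1 ∧ -1 < b) → ¬ (a < 1 ∧ 1 < b) →
    (∀ e ≤ S.E.length, ∀ g ∈ S.G e, ¬ (a < g ∧ g < b)) →
    ∃ m c : ℝ, ∀ z, a ≤ z → z ≤ b → S.F i τ z = m * z + c

/-- The upper strands are concave and the lower strands are convex (no left turns). -/
def Fam.Cw (S : Fam) : Prop :=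
  ∀ i < S.n, ConcaveOn ℝ (Set.Icc (-2) 2) (S.F i true) ∧ ConvexOn ℝ (Set.Icc (-2) 2) (S.F i false)

end

end Pool.Agent.SO
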