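import Pool.Agent.Lib.MP_2f17d2_lc.SO.FmD

/-!
# Task Fx: the word of the drawing of a family; the list `xs` is sorted
-/

set_option autoImplicit false

namespace Pool.Agent.SO

variable {S : Fam}

private theorem Fx_unm (l : List ℝ) : (unm l).filterMap Prod.snd = [] := by
  unfold unm
  induction l with
  | nil => rfl
  | cons a l ih => simp

private theorem Fx_mkx (X : ℕ → Bool → Bool → ℝ) (n i : ℕ) (τ : Bool) (e : ℕ) (q : ℕ × ℕ) :
    (mkx X n i τ e q).filterMap Prod.snd = mk n i τ e q := by
  unfold mkx mk
  split_ifs <;> simp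

theorem Fam.xs_marks (S : Fam) (i : ℕ) (τ : Bool) : (S.xs i τ).filterMap Prod.snd = chain S.n S.E i τ := by
  unfold Fam.xs chain cl
  rw [List.filterMap_append, List.filterMap_append, List.filterMap_append, Fx_unm,
    List.filterMap_flatMap]
  have h1 : (fun e => (unm (S.G e) ++ mkx S.X S.n i τ e (S.E.getD e (0, 0))).filterMap Prod.snd)
      = fun e => Pool.Agent.SO.mk S.n i τ e (S.E.getD e (0, 0)) := by
    funext e
    rw [List.filterMap_append, Fx_unm, Fx_mkx, List.nil_append]
  rw [h1]
  simp

/-- Proof: from `xs_marks`; `List.filterMap_reverse`. -/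
theorem Fam.strand_marks (S : Fam) (i : ℕ) (τ : Bool) : (S.strand i τ).filterMap Prod.snd = sw S.n S.E i τ := by
  have h : ∀ σ, (S.path i σ).filterMap Prod.snd = chain S.n S.E i σ := by
    intro σ
    rw [← S.xs_marks i σ]
    unfold Fam.path
    rw [List.filterMap_map]
    rfl
  unfold Fam.strand sw
  cases τ
  · simp only [Bool.false_eq_true, if_false]
    rw [List.filterMap_reverse, h]
  · simp only [if_true]
    exact h true

theorem Fam.round1_marks (S : Fam) : S.round1.filterMap Prod.snd = part1 S.n S.E := by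
  unfold Fam.round1 part1
  rw [List.filterMap_flatMap]
  simp only [Fam.strand_marks]

private theorem Fx_round2_marks (S : Fam) : S.round2.filterMap Prod.snd = part2 S.n S.E := by
  unfold Fam.round2 part2
  rw [List.filterMap_flatMap]
  simp only [Fam.strand_marks]

theorem Fam.V_marks (S : Fam) : S.V.filterMap Prod.snd = (redE S.n S.E).w := by
  unfold Fam.V redE
  rw [List.filterMap_append, List.filterMap_append, List.filterMap_append, S.round1_marks,
    Fx_round2_marks]
  simp [Fam.frame1, Fam.frame2]

/-- Proof: `List.pairwise_append`, `List.pairwise_flatMap`, and the fields `X_mem, G_mem, G_sorted, G_lt, G_X, X_G, X_fst, X_snd, X_lt`. In `mkx` the second wire is different from the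
first wire, so the event contains `i` as the first or as the second wire. -/
theorem Fam.Ok.sorted (h : S.Ok) {i : ℕ} (hi : i < S.n) (τ : Bool) :
    (S.xs i τ).Pairwise fun p q => p.1 < q.1 := by
  have hmk : ∀ e, ∀ p ∈ mkx S.X S.n i τ e (S.E.getD e (0, 0)),
      ((S.E.getD e (0, 0)).1 = i ∨ (S.E.getD e (0, 0)).2 = i) ∧ ∃ a b, p.1 = S.X e a b := by
    intro e p hp
    unfold mkx at hp
    split_ifs at hp with h1 h2
    · refine ⟨Or.inl h1, ?_⟩
      simp only [List.mem_cons, List.not_mem_nil, or_false] at hp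
      rcases hp with rfl | rfl
      · exact ⟨τ, false, rfl⟩
      · exact ⟨τ, true, rfl⟩
    · refine ⟨Or.inr h2, ?_⟩
      simp only [List.mem_cons, List.not_mem_nil, or_false] at hp
      rcases hp with rfl | rfl
      · exact ⟨true, τ, rfl⟩
      · exact ⟨false, τ, rfl⟩
    · simp at hp
  have hun : ∀ (l : List ℝ), ∀ p ∈ unm l, p.1 ∈ l := by
    intro l p hp
    unfold unm at hp
    obtain ⟨x, hx, rfl⟩ := List.mem_map.1 hp
    exact hx
  have hblk : ∀ e < S.E.length, ∀ p ∈ unm (S.G e) ++ mkx S.X S.n i τ e (S.E.getD e (0, 0)),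
      (p.1 ∈ S.G e) ∨ (((S.E.getD e (0, 0)).1 = i ∨ (S.E.getD e (0, 0)).2 = i) ∧
        ∃ a b, p.1 = S.X e a b) := by
    intro e _ p hp
    rcases List.mem_append.1 hp with hp | hp
    · exact Or.inl (hun _ p hp)
    · exact Or.inr (hmk e p hp)
  have hmid : ∀ p ∈ (List.range S.E.length).flatMap fun e => unm (S.G e) ++
      mkx S.X S.n i τ e (S.E.getD e (0, 0)), -1 < p.1 ∧ p.1 < 1 ∧
        ∀ g ∈ S.G S.E.length, p.1 < g := by
    intro p hp
    obtain ⟨e, he, hpe⟩ := List.mem_flatMap.1 hp
    have he' := List.mem_range.1 he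
    rcases hblk e he' p hpe with h1 | ⟨_, a, b, h1⟩
    · have h2 := h.G_mem e he'.le _ h1
      exact ⟨h2.1, h2.2, fun g hg => h.G_lt e S.E.length he' le_rfl _ h1 g hg⟩
    · have h2 := h.X_mem e he' a b
      rw [h1]
      exact ⟨h2.1, h2.2, fun g hg => h.X_G e he' S.E.length he' le_rfl g hg a b⟩
  have htail : ∀ p ∈ unm (S.G S.E.length), -1 < p.1 ∧ p.1 < 1 := by
    intro p hp
    exact h.G_mem S.E.length le_rfl _ (hun _ p hp)
  have hunp : ∀ e ≤ S.E.length, (unm (S.G e)).Pairwise fun p q => p.1 < q.1 := by
    intro e he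
    unfold unm
    rw [List.pairwise_map]
    exact h.G_sorted e he
  unfold Fam.xs
  rw [List.pairwise_append]
  refine ⟨?_, ?_, ?_⟩
  · simp only [List.pairwise_cons, List.mem_cons, List.not_mem_nil, or_false]
    norm_num
  · rw [List.pairwise_append]
    refine ⟨?_, ?_, ?_⟩
    · rw [List.pairwise_flatMap]
      refine ⟨?_, ?_⟩
      · intro e he
        have he' := List.mem_range.1 he
        rw [List.pairwise_append]
        refine ⟨hunp e he'.le, ?_, ?_⟩
        · unfold mkx
          split_ifs with h1 h2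
          · simp only [List.pairwise_cons, List.mem_cons, List.not_mem_nil, or_false]
            refine ⟨?_, ?_, List.Pairwise.nil⟩
            · rintro q rfl
              exact h.X_fst e he' τ
            · intro q hq
              exact absurd hq id
          · simp only [List.pairwise_cons, List.mem_cons, List.not_mem_nil, or_false]
            refine ⟨?_, ?_, List.Pairwise.nil⟩
            · rintro q rfl
              exact h.X_snd e he' τ
            · intro q hq
              exact absurd hq id
          · exact List.Pairwise.nil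
        · intro p hp q hq
          obtain ⟨_, a, b, h3⟩ := hmk e q hq
          rw [h3]
          exact h.G_X e he' e le_rfl _ (hun _ p hp) a b
      · refine List.Pairwise.imp_of_mem (R := fun a b => a < b) ?_ (List.pairwise_lt_range)
        intro e e' he he' hlt p hp q hq
        have hel := List.mem_range.1 he
        have hel' := List.mem_range.1 he'
        rcases hblk e hel p hp with h1 | ⟨h0, a, b, h1⟩
        · rcases hblk e' hel' q hq with h2 | ⟨h0', a', b', h2⟩
          · exact h.G_lt e e' hlt hel'.le _ h1 _ h2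
          · rw [h2]
            exact h.G_X e' hel' e hlt.le _ h1 a' b'
        · rcases hblk e' hel' q hq with h2 | ⟨h0', a', b', h2⟩
          · rw [h1]
            exact h.X_G e hel e' hlt hel'.le _ h2 a b
          · rw [h1, h2]
            exact h.X_lt e e' hlt hel' i h0 h0' a b a' b'
    · rw [List.pairwise_append]
      refine ⟨hunp _ le_rfl, ?_, ?_⟩
      · simp only [List.pairwise_cons, List.mem_cons, List.not_mem_nil, or_false]
        norm_num
      · intro p hp q hq
        have h1 := (htail p hp).2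
        simp only [List.mem_cons, List.not_mem_nil, or_false] at hq
        rcases hq with rfl | rfl | rfl <;> simp only <;> linarith
    · intro p hp q hq
      obtain ⟨h1, h2, h3⟩ := hmid p hp
      rcases List.mem_append.1 hq with hq | hq
      · exact h3 _ (hun _ q hq)
      · simp only [List.mem_cons, List.not_mem_nil, or_false] at hq
        rcases hq with rfl | rfl | rfl <;> simp only <;> linarith
  · intro p hp q hq
    have hp1 : p.1 ≤ -1 := by
      simp only [List.mem_cons, List.not_mem_nil, or_false] at hp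
      rcases hp with rfl | rfl | rfl <;> norm_num
    have hq1 : -1 < q.1 := by
      rcases List.mem_append.1 hq with hq | hq
      · exact (hmid q hq).1
      · rcases List.mem_append.1 hq with hq | hq
        · exact (htail q hq).1
        · simp only [List.mem_cons, List.not_mem_nil, or_false] at hq
          rcases hq with rfl | rfl | rfl <;> norm_num
    linarith

private theorem Fx_unm_some (l : List ℝ) (x : ℝ) (c : ℕ × Bool) : (x, some c) ∉ unm l := by
  unfold unm
  intro h
  obtain ⟨y, _, hy⟩ := List.mem_map.1 h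
  simp at hy

/-- The marked entries of `xs`. (For the two bits: `τ != τ'`, `τ == τ'`.) -/
theorem Fam.Ok.mem_xs (h : S.Ok) {i : ℕ} (hi : i < S.n) (τ : Bool) (x : ℝ) (a : ℕ) (b : Bool) :
    (x, some (a, b)) ∈ S.xs i τ ↔
      (x = -3 / 2 ∧ a = 1 + 2 * i ∧ b = τ) ∨ (x = 3 / 2 ∧ a = 2 + 2 * i ∧ b = !τ) ∨
      ∃ e τ', e < S.E.length ∧
        (((S.E.getD e (0, 0)).1 = i ∧ x = S.X e τ τ' ∧ a = lab S.n e τ τ' ∧ b = (τ != τ')) ∨
          ((S.E.getD e (0, 0)).2 = i ∧ x = S.X e τ' τ ∧ a = lab S.n e τ' τ ∧ b = (τ == τ'))) := by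
  have hmk : ∀ e < S.E.length, ((x, some (a, b)) ∈ mkx S.X S.n i τ e (S.E.getD e (0, 0)) ↔
      ∃ τ', (((S.E.getD e (0, 0)).1 = i ∧ x = S.X e τ τ' ∧ a = lab S.n e τ τ' ∧ b = (τ != τ')) ∨
          ((S.E.getD e (0, 0)).2 = i ∧ x = S.X e τ' τ ∧ a = lab S.n e τ' τ ∧ b = (τ == τ')))) := by
    intro e he
    have hlt := (h.lt e he).1
    unfold mkx
    split_ifs with h1 h2
    · have h3 : (S.E.getD e (0, 0)).2 ≠ i := by omega
      simp only [List.mem_cons, List.not_mem_nil, or_false, Prod.mk.injEq, Option.some.injEq]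
      constructor
      · rintro (⟨rfl, rfl, rfl⟩ | ⟨rfl, rfl, rfl⟩)
        · exact ⟨false, Or.inl ⟨h1, rfl, rfl, by simp⟩⟩
        · exact ⟨true, Or.inl ⟨h1, rfl, rfl, by simp⟩⟩
      · rintro ⟨τ', (⟨_, rfl, rfl, rfl⟩ | ⟨h4, _⟩)⟩
        · cases τ'
          · left; simp
          · right; simp
        · exact absurd h4 h3
    · simp only [List.mem_cons, List.not_mem_nil, or_false, Prod.mk.injEq, Option.some.injEq]
      constructor
      · rintro (⟨rfl, rfl, rfl⟩ | ⟨rfl, rfl, rfl⟩)
        · exact ⟨true, Or.inr ⟨h2, rfl, rfl, by simp⟩⟩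
        · exact ⟨false, Or.inr ⟨h2, rfl, rfl, by simp⟩⟩
      · rintro ⟨τ', (⟨h4, _⟩ | ⟨_, rfl, rfl, rfl⟩)⟩
        · exact absurd h4 h1
        · cases τ'
          · right; simp
          · left; simp
    · constructor
      · intro h4
        simp at h4
      · rintro ⟨τ', (⟨h4, _⟩ | ⟨h4, _⟩)⟩
        · exact absurd h4 h1
        · exact absurd h4 h2
  unfold Fam.xs
  simp only [List.mem_append, List.mem_flatMap, List.mem_range, Fx_unm_some, false_or]
  constructor
  · rintro (h1 | ⟨e, he, h1⟩ | h1)
    · simp only [List.mem_cons, List.not_mem_nil, or_false, Prod.mk.injEq, Option.some.injEq,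
        reduceCtorEq, and_false, false_or] at h1
      exact Or.inl h1
    · obtain ⟨τ', h2⟩ := (hmk e he).1 h1
      exact Or.inr (Or.inr ⟨e, τ', he, h2⟩)
    · simp only [List.mem_cons, List.not_mem_nil, or_false, Prod.mk.injEq, Option.some.injEq,
        reduceCtorEq, and_false, false_or] at h1
      exact Or.inr (Or.inl h1)
  · rintro (⟨rfl, rfl, rfl⟩ | ⟨rfl, rfl, rfl⟩ | ⟨e, τ', he, h2⟩)
    · left; simp
    · right; right; simp
    · right; left
      exact ⟨e, he, (hmk e he).2 ⟨τ', h2⟩⟩

/-- The unmarked vertices which are always there. -/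
theorem Fam.mem_xs_none (S : Fam) (i : ℕ) (τ : Bool) : (-2, none) ∈ S.xs i τ ∧ (-1, none) ∈ S.xs i τ ∧
    (1, none) ∈ S.xs i τ ∧ (2, none) ∈ S.xs i τ ∧ ∀ e ≤ S.E.length, ∀ g ∈ S.G e, (g, none) ∈ S.xs i τ := by
  refine ⟨?_, ?_, ?_, ?_, ?_⟩
  · unfold Fam.xs
    exact List.mem_append_left _ (by simp)
  · unfold Fam.xs
    exact List.mem_append_left _ (by simp)
  · unfold Fam.xs
    exact List.mem_append_right _ (List.mem_append_right _ (List.mem_append_right _ (by simp)))
  · unfold Fam.xs
    exact List.mem_append_right _ (List.mem_append_right _ (List.mem_append_right _ (by simp)))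
  · intro e he g hg
    have h1 : (g, none) ∈ unm (S.G e) := List.mem_map.2 ⟨g, hg, rfl⟩
    unfold Fam.xs
    rcases Nat.lt_or_eq_of_le he with he | rfl
    · exact List.mem_append_right _ (List.mem_append_left _ (List.mem_flatMap.2
        ⟨e, List.mem_range.2 he, List.mem_append_left _ h1⟩))
    · exact List.mem_append_right _ (List.mem_append_right _ (List.mem_append_left _ h1))

theorem Fam.Ok.xs_bd (h : S.Ok) {i : ℕ} (hi : i < S.n) (τ : Bool) {p : ℝ × Option (ℕ × Bool)}
    (hp : p ∈ S.xs i τ) : -2 ≤ p.1 ∧ p.1 ≤ 2 := by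
  have hs := h.sorted hi τ
  have h1 : S.xs i τ = (-2, none) :: (S.xs i τ).tail := by
    unfold Fam.xs
    rfl
  have h2 : S.xs i τ = (S.xs i τ).dropLast ++ [(2, none)] := by
    have h3 : S.xs i τ ≠ [] := by
      rw [h1]
      exact List.cons_ne_nil _ _
    have h4 := List.dropLast_append_getLast h3
    have h5 : (S.xs i τ).getLast h3 = (2, none) := by
      have h6 : (S.xs i τ).getLast? = some (2, none) := by
        unfold Fam.xs
        rw [List.getLast?_append, List.getLast?_append, List.getLast?_append]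
        rfl
      rw [List.getLast?_eq_some_getLast h3] at h6
      exact Option.some.inj h6
    rw [h5] at h4
    exact h4.symm
  constructor
  · rw [h1] at hp hs
    rcases List.mem_cons.1 hp with rfl | hp
    · exact le_rfl
    · exact ((List.pairwise_cons.1 hs).1 p hp).le
  · rw [h2] at hp hs
    rcases List.mem_append.1 hp with hp | hp
    · exact ((List.pairwise_append.1 hs).2.2 p hp (2, none) (by simp)).le
    · simp only [List.mem_cons, List.not_mem_nil, or_false] at hp
      rw [hp]

theorem Fam.xs_head (S : Fam) (i : ℕ) (τ : Bool) : (S.xs i τ).head? = some (-2, none) := by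
  unfold Fam.xs
  rfl

theorem Fam.xs_last (S : Fam) (i : ℕ) (τ : Bool) : (S.xs i τ).getLast? = some (2, none) := by
  unfold Fam.xs
  rw [List.getLast?_append, List.getLast?_append, List.getLast?_append]
  rfl

end Pool.Agent.SO
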