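import Pool.Agent.Lib.MP_2f17d2_lc.SO.Red

/-!
# Task Wd: positions in the word of `redE`
-/

set_option autoImplicit false

namespace Pool.Agent.SO

theorem lab_inj {n e e' : ℕ} {a b a' b' : Bool} : lab n e a b = lab n e' a' b' ↔ e = e' ∧ a = a' ∧ b = b' := by
  unfold lab
  constructor
  · intro h
    cases a <;> cases b <;> cases a' <;> cases b' <;>
      simp only [Bool.toNat_true, Bool.toNat_false] at h <;>
      first
      | exact ⟨by omega, rfl, rfl⟩
      | (exfalso; omega)
  · rintro ⟨rfl, rfl, rfl⟩
    rfl

theorem lab_gt (n e : ℕ) (a b : Bool) : 2 * n < lab n e a b := by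
  unfold lab
  omega

private theorem Wd_len_succ {α : Type} (f : ℕ → List α) (e : ℕ) :
    ((List.range (e + 1)).flatMap f).length = ((List.range e).flatMap f).length + (f e).length := by
  rw [List.range_succ, List.flatMap_append, List.length_append]
  simp

private theorem Wd_len_mono {α : Type} (f : ℕ → List α) {e e' : ℕ} (h : e ≤ e') :
    ((List.range e).flatMap f).length ≤ ((List.range e').flatMap f).length := by
  induction h with
  | refl => exact le_rfl
  | step _ ih =>
    rw [Nat.succ_eq_add_one, Wd_len_succ]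
    omega

private theorem Wd_len_lt {α : Type} (f : ℕ → List α) {e N : ℕ} (h : e < N) :
    ((List.range e).flatMap f).length + (f e).length ≤ ((List.range N).flatMap f).length := by
  rw [← Wd_len_succ]
  exact Wd_len_mono f h

private theorem Wd_get {α : Type} (f : ℕ → List α) {e N : ℕ} (h : e < N) {k : ℕ} (hk : k < (f e).length) :
    ((List.range N).flatMap f)[((List.range e).flatMap f).length + k]? = (f e)[k]? := by
  induction N with
  | zero => omega
  | succ N ih =>
    rw [List.range_succ, List.flatMap_append]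
    rcases Nat.lt_succ_iff_lt_or_eq.1 h with h1 | h1
    · have h2 := Wd_len_lt f h1
      rw [List.getElem?_append_left (by omega)]
      exact ih h1
    · subst h1
      rw [List.getElem?_append_right (by omega)]
      simp

/-- The passages of the strand `(i, τ)` through other wires. -/
theorem mem_cl {n : ℕ} {E : List (ℕ × ℕ)} {i : ℕ} {τ : Bool} {p : ℕ × Bool} (h : p ∈ cl n E i τ) :
    ∃ e τ', e < E.length ∧ (((E.getD e (0, 0)).1 = i ∧ p.1 = lab n e τ τ') ∨
      ((E.getD e (0, 0)).2 = i ∧ p.1 = lab n e τ' τ)) := by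
  unfold cl at h
  rw [List.mem_flatMap] at h
  obtain ⟨e, he, hp⟩ := h
  rw [List.mem_range] at he
  unfold mk at hp
  split_ifs at hp with h1 h2
  · simp only [List.mem_cons, List.not_mem_nil, or_false] at hp
    rcases hp with rfl | rfl
    · exact ⟨e, false, he, Or.inl ⟨h1, rfl⟩⟩
    · exact ⟨e, true, he, Or.inl ⟨h1, rfl⟩⟩
  · simp only [List.mem_cons, List.not_mem_nil, or_false] at hp
    rcases hp with rfl | rfl
    · exact ⟨e, true, he, Or.inr ⟨h2, rfl⟩⟩
    · exact ⟨e, false, he, Or.inr ⟨h2, rfl⟩⟩
  · simp at hp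

private theorem Wd_mem_mk {n i e : ℕ} {τ : Bool} {q : ℕ × ℕ} {x : ℕ} (h : x ∈ (mk n i τ e q).map Prod.fst) :
    ∃ a b, x = lab n e a b := by
  unfold mk at h
  split_ifs at h
  · simp only [List.map_cons, List.map_nil, List.mem_cons, List.not_mem_nil, or_false] at h
    rcases h with rfl | rfl
    · exact ⟨_, _, rfl⟩
    · exact ⟨_, _, rfl⟩
  · simp only [List.map_cons, List.map_nil, List.mem_cons, List.not_mem_nil, or_false] at h
    rcases h with rfl | rfl
    · exact ⟨_, _, rfl⟩
    · exact ⟨_, _, rfl⟩
  · simp at h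

/-- No label occurs twice in `cl`. Proof: `List.nodup_flatMap`/`List.pairwise_flatMap`; labels of different `e` are different, and in `mk` the two labels are
different. -/
theorem nodup_cl (n : ℕ) (E : List (ℕ × ℕ)) (i : ℕ) (τ : Bool) : ((cl n E i τ).map Prod.fst).Nodup := by
  unfold cl
  rw [List.map_flatMap, List.nodup_flatMap]
  constructor
  · intro e _
    unfold mk
    split_ifs
    · simp [lab_inj]
    · simp [lab_inj]
    · simp
  · refine (List.nodup_range (n := E.length)).imp ?_
    intro e e' hne x hx hx'
    obtain ⟨a, b, h1⟩ := Wd_mem_mk hx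
    obtain ⟨a', b', h2⟩ := Wd_mem_mk hx'
    rw [h1, lab_inj] at h2
    exact hne h2.1

/-- The position of the passage through the strand of type `τ'` of the other wire at the crossing number `e`: a function `cp` with these
properties. Proof: `cp e τ'` is the length of `(List.range e).flatMap (...)` plus 0 or 1; monotonicity: the initial parts for smaller `e` are contained in those for larger `e`. -/
theorem exists_cp (n : ℕ) (E : List (ℕ × ℕ)) (i : ℕ) (τ : Bool) : ∃ cp : ℕ → Bool → ℕ,
    (∀ e τ', e < E.length → (E.getD e (0, 0)).1 = i →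
      ∃ s, (cl n E i τ)[cp e τ']? = some (lab n e τ τ', s)) ∧
    (∀ e τ', e < E.length → (E.getD e (0, 0)).2 = i → (E.getD e (0, 0)).1 ≠ i →
      ∃ s, (cl n E i τ)[cp e τ']? = some (lab n e τ' τ, s)) ∧
    (∀ e e' τ' τ'', e < e' → e' < E.length → ((E.getD e (0, 0)).1 = i ∨ (E.getD e (0, 0)).2 = i) →
      ((E.getD e' (0, 0)).1 = i ∨ (E.getD e' (0, 0)).2 = i) → cp e τ' < cp e' τ'') := by
  obtain ⟨f, hf⟩ : ∃ f : ℕ → List (ℕ × Bool), f = fun e => mk n i τ e (E.getD e (0, 0)) := ⟨_, rfl⟩
  have hcl : cl n E i τ = (List.range E.length).flatMap f := by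
    rw [hf]
    rfl
  refine ⟨fun e τ' => ((List.range e).flatMap f).length +
    (if (E.getD e (0, 0)).1 = i then τ'.toNat else (!τ').toNat), ?_, ?_, ?_⟩
  · intro e τ' he h1
    have h2 : f e = [(lab n e τ false, τ), (lab n e τ true, !τ)] := by
      rw [hf]
      simp only [mk, if_pos h1]
    rw [hcl]
    beta_reduce
    rw [if_pos h1, Wd_get f he (by rw [h2]; cases τ' <;> simp), h2]
    cases τ'
    · exact ⟨τ, rfl⟩
    · exact ⟨!τ, rfl⟩
  · intro e τ' he h2 h1
    have h3 : f e = [(lab n e true τ, τ), (lab n e false τ, !τ)] := by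
      rw [hf]
      simp only [mk, if_neg h1, if_pos h2]
    rw [hcl]
    beta_reduce
    rw [if_neg h1, Wd_get f he (by rw [h3]; cases τ' <;> simp), h3]
    cases τ'
    · exact ⟨!τ, rfl⟩
    · exact ⟨τ, rfl⟩
  · intro e e' τ' τ'' hee he' h1 _
    have h2 : (f e).length = 2 := by
      rw [hf]
      simp only [mk]
      split_ifs with h3 h4
      · rfl
      · rfl
      · tauto
    have h5 := Wd_len_lt f hee
    have h6 : (if (E.getD e (0, 0)).1 = i then τ'.toNat else (!τ').toNat) ≤ 1 := by
      split_ifs <;> cases τ' <;> simp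
    show _ + _ < _ + _
    omega

theorem length_sw (n : ℕ) (E : List (ℕ × ℕ)) (i : ℕ) (τ : Bool) : (sw n E i τ).length = (cl n E i τ).length + 2 := by
  cases τ <;> simp [sw, chain]

private theorem Wd_w1 (n : ℕ) (E : List (ℕ × ℕ)) {k : ℕ} (hk : k < (part1 n E).length) :
    (redE n E).w[k]? = (part1 n E)[k]? := by
  unfold redE
  exact List.getElem?_append_left hk

private theorem Wd_w2 (n : ℕ) (E : List (ℕ × ℕ)) (k : ℕ) :
    (redE n E).w[(part1 n E).length + 2 + k]? = (part2 n E)[k]? := by
  unfold redE
  show (part1 n E ++ ([(0, false), (0, true)] ++ part2 n E))[_]? = _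
  rw [List.getElem?_append_right (by omega), List.getElem?_append_right (by simp; omega)]
  congr 1
  simp
  omega

private theorem Wd_wlen (n : ℕ) (E : List (ℕ × ℕ)) :
    (redE n E).w.length = (part1 n E).length + 2 + (part2 n E).length := by
  unfold redE
  show (part1 n E ++ ([(0, false), (0, true)] ++ part2 n E)).length = _
  rw [List.length_append, List.length_append]
  simp
  omega

/-- The block of the strand `(i, τ)` in the word: it starts at `off i τ`. Different strands have disjoint blocks, all outside the two passages of the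
crossing `0`, which are at the positions `(part1 n E).length` and `(part1 n E).length + 1`. Proof: `off i τ = ((List.range i).flatMap ...).length` for the strand of the first
round, i.e. `τ = decide (i % 2 = 0)`, and `(part1 n E).length + 2 + ((List.range i).flatMap ...).length` for the strand of the second round,
`τ = decide (i % 2 = 1)`. -/
theorem exists_off (n : ℕ) (E : List (ℕ × ℕ)) : ∃ off : ℕ → Bool → ℕ,
    (∀ i τ, i < n → off i τ + (sw n E i τ).length ≤ (redE n E).w.length) ∧
    (∀ i τ, i < n → ∀ k, k < (sw n E i τ).length → (redE n E).w[off i τ + k]? = (sw n E i τ)[k]?) ∧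
    (∀ i, i < n → off i true + (sw n E i true).length ≤ off i false ∨
      off i false + (sw n E i false).length ≤ off i true) := by
  obtain ⟨f, hf⟩ : ∃ f : ℕ → List (ℕ × Bool), f = fun i => sw n E i (decide (i % 2 = 0)) := ⟨_, rfl⟩
  obtain ⟨g, hg⟩ : ∃ g : ℕ → List (ℕ × Bool), g = fun i => sw n E i (decide (i % 2 = 1)) := ⟨_, rfl⟩
  have h1 : part1 n E = (List.range n).flatMap f := by
    rw [hf]
    rfl
  have h2 : part2 n E = (List.range n).flatMap g := by
    rw [hg]
    rfl
  obtain ⟨off, hoff⟩ : ∃ off : ℕ → Bool → ℕ, off = fun i τ =>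
      if τ = decide (i % 2 = 0) then ((List.range i).flatMap f).length
      else (part1 n E).length + 2 + ((List.range i).flatMap g).length := ⟨_, rfl⟩
  have ha : ∀ i τ, τ = decide (i % 2 = 0) → off i τ = ((List.range i).flatMap f).length := by
    intro i τ h
    rw [hoff]
    exact if_pos h
  have hb : ∀ i τ, τ ≠ decide (i % 2 = 0) →
      off i τ = (part1 n E).length + 2 + ((List.range i).flatMap g).length := by
    intro i τ h
    rw [hoff]
    exact if_neg h
  have hfi : ∀ i τ, τ = decide (i % 2 = 0) → f i = sw n E i τ := by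
    intro i τ h
    rw [hf, h]
  have hgi : ∀ i τ, τ ≠ decide (i % 2 = 0) → g i = sw n E i τ := by
    intro i τ h
    rw [hg]
    have h3 : decide (i % 2 = 1) = τ := by
      rcases Nat.mod_two_eq_zero_or_one i with h4 | h4 <;> cases τ <;> simp_all
    simp only [h3]
  have hlen1 : ∀ i τ, i < n → τ = decide (i % 2 = 0) →
      off i τ + (sw n E i τ).length ≤ (part1 n E).length := by
    intro i τ hi h
    rw [ha i τ h, ← hfi i τ h, h1]
    exact Wd_len_lt f hi
  have hlen2 : ∀ i τ, i < n → τ ≠ decide (i % 2 = 0) →
      off i τ + (sw n E i τ).length ≤ (part1 n E).length + 2 + (part2 n E).length := by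
    intro i τ hi h
    have h3 := Wd_len_lt g hi
    rw [hb i τ h, ← hgi i τ h, h2]
    omega
  have hge : ∀ i τ, τ ≠ decide (i % 2 = 0) → (part1 n E).length + 2 ≤ off i τ := by
    intro i τ h
    rw [hb i τ h]
    omega
  refine ⟨off, ?_, ?_, ?_⟩
  · intro i τ hi
    rw [Wd_wlen]
    by_cases h : τ = decide (i % 2 = 0)
    · have := hlen1 i τ hi h
      omega
    · exact hlen2 i τ hi h
  · intro i τ hi k hk
    by_cases h : τ = decide (i % 2 = 0)
    · have h3 := hlen1 i τ hi h
      rw [Wd_w1 n E (by omega), ha i τ h, h1]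
      rw [← hfi i τ h] at hk ⊢
      exact Wd_get f hi hk
    · rw [hb i τ h, Nat.add_assoc, Wd_w2, h2]
      rw [← hgi i τ h] at hk ⊢
      exact Wd_get g hi hk
  · intro i hi
    by_cases h : true = decide (i % 2 = 0)
    · left
      have h3 := hlen1 i true hi h
      have h4 : false ≠ decide (i % 2 = 0) := by
        rw [← h]
        simp
      have h5 := hge i false h4
      omega
    · right
      have h4 : false = decide (i % 2 = 0) := by
        cases hd : decide (i % 2 = 0)
        · rfl
        · exact absurd hd.symm h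
      have h3 := hlen1 i false hi h4
      have h5 := hge i true h
      omega

/-- The word at the two passages of the crossing `0`. -/
theorem redE_zero (n : ℕ) (E : List (ℕ × ℕ)) :
    (redE n E).w[(part1 n E).length]? = some (0, false) ∧
      (redE n E).w[(part1 n E).length + 1]? = some (0, true) ∧
      (part1 n E).length + 2 ≤ (redE n E).w.length := by
  refine ⟨?_, ?_, ?_⟩
  · show (part1 n E ++ ([(0, false), (0, true)] ++ part2 n E))[_]? = _
    rw [List.getElem?_append_right le_rfl]
    simp
  · show (part1 n E ++ ([(0, false), (0, true)] ++ part2 n E))[_]? = _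
    rw [List.getElem?_append_right (by omega)]
    simp
  · rw [Wd_wlen]
    omega

end Pool.Agent.SO
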