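import Mathlib

/-!
# Definitions: plane curves, their codes, drawings; wiring diagrams, stretchability
-/

set_option autoImplicit false

namespace Pool.Agent.SO

/-- Points and vectors of the plane. -/
abbrev Pt := ℝ × ℝ

/-- The cross product; it is positive when `v` points to the left of `u` and negative when `v` points to the right of `u`. -/
def cr (u v : Pt) : ℝ := u.1 * v.2 - u.2 * v.1

/-- A closed plane curve in combinatorial form. The word `w` is the cyclic sequence of passages through the crossings, as a
traveller on the curve meets them. A passage is `(a, s)`: `a` is the name of the crossing and `s` tells whether the branch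
crossed here runs to the left of the traveller (`s = true`) or to his right (`s = false`). The unbounded region lies to the left
(`b = true`) or to the right (`b = false`) of the arc of the curve which the traveller enters after `o` passages. -/
structure Code where
  w : List (ℕ × Bool)
  o : ℕ
  b : Bool

/-- A closed polygonal curve: the list of the vertices; some vertices carry a mark `(a, s)`, a passage through a crossing. -/
abbrev Poly := List (Pt × Option (ℕ × Bool))

/-- The vertex number `j` (cyclically). -/
def vtx (V : Poly) (j : ℕ) : Pt := (V.getD (j % V.length) (0, none)).1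

/-- The mark of the vertex number `j` (cyclically). -/
def mark (V : Poly) (j : ℕ) : Option (ℕ × Bool) := (V.getD (j % V.length) (0, none)).2

/-- The direction of the edge number `j`, from the vertex `j` to the vertex `j + 1`. -/
def dir (V : Poly) (j : ℕ) : Pt := vtx V (j + 1) - vtx V j

/-- The point of the edge number `j` with the parameter `t`. -/
def pt (V : Poly) (j : ℕ) (t : ℝ) : Pt := vtx V j + t • dir V j

/-- The curve as a set of points. -/
def curve (V : Poly) : Set Pt := {z | ∃ j : ℕ, ∃ t : ℝ, 0 ≤ t ∧ t ≤ 1 ∧ z = pt V j t}

/-- `z` lies in the unbounded component of the complement of the curve. -/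
def Outside (V : Poly) (z : Pt) : Prop := ∀ R : ℝ, ∃ z' : Pt, R < ‖z'‖ ∧ JoinedIn (curve V)ᶜ z z'

/-- The directions `u` and `v` are equal up to a positive factor. -/
def Same (u v : Pt) : Prop := ∃ t : ℝ, 0 < t ∧ v = t • u

/-- The normal of `u` on the left (`b = true`) or on the right (`b = false`). -/
def nrm (b : Bool) (u : Pt) : Pt := if b then (-u.2, u.1) else (u.2, -u.1)

/-- The polygonal curve `V` is a generic closed curve and its code is `c`. -/
structure Draws (c : Code) (V : Poly) : Prop where
  /-- there are at least three vertices -/
  len : 3 ≤ V.length
  /-- the passages along `V` are the word of `c` -/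
  word : V.filterMap Prod.snd = c.w
  /-- every crossing is passed exactly twice -/
  twice : ∀ p ∈ c.w, c.w.countP (fun q => q.1 = p.1) = 2
  /-- there is no edge of length zero -/
  ne : ∀ j, vtx V j ≠ vtx V (j + 1)
  /-- the crossings lie in the interior of straight segments -/
  flat : ∀ j, mark V (j + 1) ≠ none → Same (dir V j) (dir V (j + 1))
  /-- no vertex is a cusp: the curve goes straight on or turns by an angle in `(0, π)` to the left or to the right -/
  turn : ∀ j, Same (dir V j) (dir V (j + 1)) ∨ cr (dir V j) (dir V (j + 1)) ≠ 0
  /-- two vertices coincide exactly when they are the two passages of the same crossing -/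
  vertex : ∀ j k, j < k → k < V.length →
    (vtx V j = vtx V k ↔ ∃ a s s', mark V j = some (a, s) ∧ mark V k = some (a, s'))
  /-- no point of the interior of an edge lies on another edge -/
  edge : ∀ j k, j < V.length → k < V.length → j ≠ k → ∀ s t : ℝ, 0 < s → s < 1 → 0 ≤ t → t ≤ 1 →
    pt V j s ≠ pt V k t
  /-- the two branches cross transversally and in the way in which the signs say -/
  sign : ∀ j k, j < k → k < V.length → ∀ a s s', mark V j = some (a, s) → mark V k = some (a, s') →
    cr (dir V j) (dir V k) ≠ 0 ∧ (s = true ↔ 0 < cr (dir V j) (dir V k)) ∧
      (s' = true ↔ cr (dir V j) (dir V k) < 0)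
  /-- the unbounded region is where the code says -/
  outer : ∃ k < V.length, ((V.take (k + 1)).filterMap Prod.snd).length ≡ c.o [MOD c.w.length] ∧
    ∃ s ε : ℝ, 0 < s ∧ s < 1 ∧ 0 < ε ∧ ∀ t : ℝ, 0 < t → t < ε →
      Outside V (pt V k s + t • nrm c.b (dir V k))

/-- `c` is the code of a generic closed plane curve (a sona map). -/
def IsSona (c : Code) : Prop := ∃ V, Draws c V

/-- All corners of `V` are turns to the right (clockwise) by an angle in `(0, π)`. -/
def AllRight (V : Poly) : Prop := ∀ j, Same (dir V j) (dir V (j + 1)) ∨ cr (dir V j) (dir V (j + 1)) < 0

/-- All corners of `V` are turns to the left by an angle in `(0, π)`, i.e. clockwise turns in the other direction of traversal. -/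
def AllLeft (V : Poly) : Prop := ∀ j, Same (dir V j) (dir V (j + 1)) ∨ 0 < cr (dir V j) (dir V (j + 1))

/-- The curve with the code `c` can be drawn using only clockwise turns, in one of the two directions of traversal. -/
def Clockwise (c : Code) : Prop := ∃ V, Draws c V ∧ (AllRight V ∨ AllLeft V)

/-- Interchange the entries with the numbers `p` and `p + 1`. -/
def swp (σ : List ℕ) (p : ℕ) : List ℕ := (σ.set p (σ.getD (p + 1) 0)).set (p + 1) (σ.getD p 0)

/-- The list of the crossings of a wiring diagram: `σ` is the list of the wires, from below to above; at each entry `p` of the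
word the wires at the levels `p` and `p + 1` cross; the crossing is recorded as the pair (wire at the level `p`, wire at the
level `p + 1`). -/
def evs : List ℕ → List ℕ → List (ℕ × ℕ)
  | _, [] => []
  | σ, p :: w => (σ.getD p 0, σ.getD (p + 1) 0) :: evs (swp σ p) w

/-- `w` is the word of a wiring diagram of a simple arrangement of `n` pseudolines: the wires `0, ..., n - 1` start in this order
from below to above, and every two of them cross exactly once. -/
structure Wiring (n : ℕ) (w : List ℕ) : Prop where
  pos : ∀ p ∈ w, p + 1 < n
  lt : ∀ q ∈ evs (List.range n) w, q.1 < q.2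
  once : ∀ i j, i < j → j < n → (evs (List.range n) w).count (i, j) = 1

/-- The arrangement of pseudolines is stretchable: there are lines `y = m i * x + c i` with decreasing slopes such that along
every line the crossings with the other lines come, from left to right, in the order given by the wiring diagram. -/
def Stretchable (n : ℕ) (w : List ℕ) : Prop :=
  ∃ m c : ℕ → ℝ, (∀ i j, i < j → j < n → m j < m i) ∧
    (evs (List.range n) w).Pairwise fun p q =>
      (p.1 = q.1 ∨ p.1 = q.2 ∨ p.2 = q.1 ∨ p.2 = q.2) →
        (c p.2 - c p.1) / (m p.1 - m p.2) < (c q.2 - c q.1) / (m q.1 - m q.2)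

end Pool.Agent.SO
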