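import Pool.Agent.Lib.MP_2f17d2_lc.Mg.G005

/-!
# Task Ch: rising polygonal chains are graphs of continuous functions of the height
-/

set_option autoImplicit false

namespace Pool.Agent.SO

/-- The point of the chain at the height `h` lies on some edge. Proof: induction on `b`. -/
theorem exists_level {y : ℤ → ℝ} {a b : ℤ} (hab : a < b) (mono : ∀ i, a ≤ i → i < b → y i < y (i + 1)) {h : ℝ}
    (h0 : y a ≤ h) (h1 : h ≤ y b) : ∃ i, a ≤ i ∧ i < b ∧ y i ≤ h ∧ h ≤ y (i + 1) := by
  obtain ⟨n, rfl⟩ : ∃ n : ℕ, b = a + 1 + n := ⟨(b - a - 1).toNat, by omega⟩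
  clear mono hab
  induction n with
  | zero =>
    refine ⟨a, le_refl a, by omega, h0, ?_⟩
    have e : a + 1 + ((0 : ℕ) : ℤ) = a + 1 := by omega
    rwa [e] at h1
  | succ n ih =>
    rcases le_total h (y (a + 1 + n)) with h2 | h2
    · obtain ⟨i, hi1, hi2, hi3, hi4⟩ := ih h2
      exact ⟨i, hi1, by omega, hi3, hi4⟩
    · refine ⟨a + 1 + n, by omega, by omega, h2, ?_⟩
      have e : a + 1 + ((n + 1 : ℕ) : ℤ) = a + 1 + n + 1 := by omega
      rwa [e] at h1

/-- A chain with rising vertices is the graph of a continuous function `X` of the height. Proof: induction on `b`: from `b` to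
`b + 1` take `fun h => if h ≤ (Q b).2 then X h else` (the affine function of the edge `b`); continuity on the closed interval:
`ContinuousOn.if_le` or `ContinuousOn.union_of_isClosed` on `Icc ∪ Icc` (on the second interval the function equals the affine
function everywhere, since at `h = (Q b).2` both are `(Q b).1`). -/
theorem exists_chain {Q : ℤ → Pt} {a b : ℤ} (hab : a < b) (mono : ∀ i, a ≤ i → i < b → (Q i).2 < (Q (i + 1)).2) :
    ∃ X : ℝ → ℝ, ContinuousOn X (Set.Icc (Q a).2 (Q b).2) ∧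
      ∀ i, a ≤ i → i < b → ∀ h, (Q i).2 ≤ h → h ≤ (Q (i + 1)).2 →
        X h = (Q i).1 + (h - (Q i).2) / ((Q (i + 1)).2 - (Q i).2) * ((Q (i + 1)).1 - (Q i).1) := by
  obtain ⟨n, rfl⟩ : ∃ n : ℕ, b = a + 1 + n := ⟨(b - a - 1).toNat, by omega⟩
  clear hab
  induction n with
  | zero =>
    refine ⟨fun h => (Q a).1 + (h - (Q a).2) / ((Q (a + 1)).2 - (Q a).2) *
      ((Q (a + 1)).1 - (Q a).1), by fun_prop, fun i hi1 hi2 h _ _ => ?_⟩
    have e : i = a := by omega
    rw [e]
  | succ n ih =>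
    obtain ⟨b, hb⟩ : ∃ b : ℤ, b = a + 1 + n := ⟨_, rfl⟩
    have hb' : a + 1 + ((n + 1 : ℕ) : ℤ) = b + 1 := by omega
    rw [hb'] at mono ⊢
    rw [← hb] at ih
    obtain ⟨X, hX, hf⟩ := ih (fun i hi1 hi2 => mono i hi1 (by omega))
    have hmono : ∀ k : ℕ, ∀ i, a ≤ i → i + k = b → (Q i).2 ≤ (Q b).2 := by
      intro k
      induction k with
      | zero =>
        intro i _ hi2
        have e : i = b := by omega
        rw [e]
      | succ k ihk =>
        intro i hi1 hi2
        exact (mono i hi1 (by omega)).le.trans (ihk (i + 1) (by omega) (by omega))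
    have hle : ∀ i, a ≤ i → i ≤ b → (Q i).2 ≤ (Q b).2 := fun i hi1 hi2 =>
      hmono (b - i).toNat i hi1 (by omega)
    have hb1 : (Q b).2 < (Q (b + 1)).2 := mono b (by omega) (by omega)
    have hXb : X (Q b).2 = (Q b).1 := by
      have e : b - 1 + 1 = b := by omega
      have h1 := mono (b - 1) (by omega) (by omega)
      rw [e] at h1
      have h2 := hf (b - 1) (by omega) (by omega) (Q b).2 h1.le (by rw [e])
      rw [e] at h2
      rw [h2, div_self (by linarith : (Q b).2 - (Q (b - 1)).2 ≠ 0)]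
      ring
    have hval : ∀ h, (Q b).2 ≤ h → (if h ≤ (Q b).2 then X h else
        (Q b).1 + (h - (Q b).2) / ((Q (b + 1)).2 - (Q b).2) * ((Q (b + 1)).1 - (Q b).1)) =
        (Q b).1 + (h - (Q b).2) / ((Q (b + 1)).2 - (Q b).2) * ((Q (b + 1)).1 - (Q b).1) := by
      intro h hh
      by_cases h2 : h ≤ (Q b).2
      · have e : h = (Q b).2 := le_antisymm h2 hh
        rw [if_pos h2, e, hXb, sub_self, zero_div, zero_mul, add_zero]
      · rw [if_neg h2]
    refine ⟨fun h => if h ≤ (Q b).2 then X h else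
        (Q b).1 + (h - (Q b).2) / ((Q (b + 1)).2 - (Q b).2) * ((Q (b + 1)).1 - (Q b).1), ?_, ?_⟩
    · have hu : Set.Icc (Q a).2 (Q (b + 1)).2 =
          Set.Icc (Q a).2 (Q b).2 ∪ Set.Icc (Q b).2 (Q (b + 1)).2 :=
        (Set.Icc_union_Icc_eq_Icc (hle a (le_refl a) (by omega)) hb1.le).symm
      rw [hu]
      refine ContinuousOn.union_of_isClosed ?_ ?_ isClosed_Icc isClosed_Icc
      · exact hX.congr (fun h hh => if_pos hh.2)
      · refine ContinuousOn.congr (f := fun h => (Q b).1 + (h - (Q b).2) /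
          ((Q (b + 1)).2 - (Q b).2) * ((Q (b + 1)).1 - (Q b).1)) (by fun_prop)
          (fun h hh => hval h hh.1)
    · intro i hi1 hi2 h h1 h2
      by_cases hib : i = b
      · rw [hib] at h1 h2 ⊢
        exact hval h h1
      · show (if h ≤ (Q b).2 then X h else _) = _
        rw [if_pos (h2.trans (hle (i + 1) (by omega) (by omega)))]
        exact hf i hi1 (by omega) h h1 h2

/-- The same for falling chains: apply `exists_chain` to `fun i => Q (-i)` from `-b` to `-a` (and `field_simp`). -/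
theorem exists_chain' {Q : ℤ → Pt} {a b : ℤ} (hab : a < b) (anti : ∀ i, a ≤ i → i < b → (Q (i + 1)).2 < (Q i).2) :
    ∃ X : ℝ → ℝ, ContinuousOn X (Set.Icc (Q b).2 (Q a).2) ∧
      ∀ i, a ≤ i → i < b → ∀ h, (Q (i + 1)).2 ≤ h → h ≤ (Q i).2 →
        X h = (Q i).1 + (h - (Q i).2) / ((Q (i + 1)).2 - (Q i).2) * ((Q (i + 1)).1 - (Q i).1) := by
  obtain ⟨X, hX, hf⟩ := exists_chain (Q := fun i => Q (-i)) (a := -b) (b := -a) (by omega) (by
    intro i hi1 hi2
    have h1 := anti (-(i + 1)) (by omega) (by omega)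
    have e : -(i + 1) + 1 = -i := by omega
    rw [e] at h1
    exact h1)
  refine ⟨X, ?_, ?_⟩
  · rw [neg_neg, neg_neg] at hX
    exact hX
  · intro i hi1 hi2 h h1 h2
    have h3 := hf (-(i + 1)) (by omega) (by omega) h
    have e1 : - -(i + 1) = i + 1 := neg_neg _
    have e2 : -(-(i + 1) + 1) = i := by omega
    simp only [e1, e2] at h3
    rw [h3 h1 h2]
    have h4 := anti i hi1 hi2
    have h5 : (Q i).2 - (Q (i + 1)).2 ≠ 0 := by linarith
    have h6 : (Q (i + 1)).2 - (Q i).2 ≠ 0 := by linarith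
    field_simp
    ring

theorem exists_level' {y : ℤ → ℝ} {a b : ℤ} (hab : a < b) (anti : ∀ i, a ≤ i → i < b → y (i + 1) < y i) {h : ℝ}
    (h0 : y b ≤ h) (h1 : h ≤ y a) : ∃ i, a ≤ i ∧ i < b ∧ y (i + 1) ≤ h ∧ h ≤ y i := by
  obtain ⟨i, hi1, hi2, hi3, hi4⟩ := exists_level (y := fun i => y (-i)) (a := -b) (b := -a)
    (by omega) (by
      intro i hi1 hi2
      have h1 := anti (-(i + 1)) (by omega) (by omega)
      have e : -(i + 1) + 1 = -i := by omega
      rw [e] at h1
      exact h1) (h := h) (by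
        show y (- -b) ≤ h
        rwa [neg_neg]) (by
        show h ≤ y (- -a)
        rwa [neg_neg])
  refine ⟨-(i + 1), by omega, by omega, ?_, hi4⟩
  have e : -(i + 1) + 1 = -i := by omega
  rw [e]
  exact hi3

end Pool.Agent.SO
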