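import Pool.Agent.Lib.MP_2f17d2_lc.Mg.G005

/-!
# Task Al: directions and crossing points with the right order give a stretching
-/

set_option autoImplicit false

namespace Pool.Agent.SO

variable {n : ℕ} {w : List ℕ}

/-- The case of clockwise order of the directions.

Proof. For `n ≤ 1` there are no events (`Wiring.evs_lt`) and no pairs. Let `n ≥ 2`, `f v = -cr (d 0) v - cr v (d (n - 1))`, `g v = cr (d 0) v`. `f (d i) > 0` for all `i < n` (for `0 < i < n - 1` both terms
are positive, for `i = 0` and `i = n - 1` one term vanishes). Put `m i = g (d i) / f (d i)`. For `i < j < n`: by the identity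
`cr a b * cr c d - cr a c * cr b d + cr a d * cr b c = 0` for `d 0, d i, d j, d (n - 1)`: `g (d j) * f (d i) - g (d i) * f (d j) = -cr (d 0) (d (n - 1)) * cr (d i) (d j) < 0`, so `m j < m i`.
For `i < n` choose an event `e` which contains `i` (exists: `n ≥ 2`, `Wiring.exists_ev`) and put `c i = g (x e) - m i * f (x e)`. For every event `e'` which contains
`i`: `g (x e') = m i * f (x e') + c i` (`x e' - x e` is a multiple of `d i`). So for an event `(a, b)` at `x`: `(c b - c a) / (m a - m b) = f x`, and for two events with a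
common wire `i`: `f (x e') - f (x e) = t * f (d i) > 0`. -/
theorem stretchable_of_dirs_neg (hw : Wiring n w) (d : ℕ → Pt) (x : ℕ → Pt)
    (hd : ∀ i j, i < j → j < n → cr (d i) (d j) < 0)
    (hx : ∀ e e', e < e' → e' < w.length → ∀ i,
      (((evs (List.range n) w).getD e (0, 0)).1 = i ∨ ((evs (List.range n) w).getD e (0, 0)).2 = i) →
      (((evs (List.range n) w).getD e' (0, 0)).1 = i ∨ ((evs (List.range n) w).getD e' (0, 0)).2 = i) →
      ∃ t : ℝ, 0 < t ∧ x e' - x e = t • d i) : Stretchable n w := by
  classical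
  by_cases hn : n < 2
  · have hw0 : w = [] := by
      rcases w with _ | ⟨p, w'⟩
      · rfl
      · exact absurd (hw.pos p (by simp)) (by omega)
    subst hw0
    refine ⟨fun _ => 0, fun _ => 0, ?_, ?_⟩
    · intro i j hij hj
      omega
    · simp [evs]
  · push Not at hn
    set f : Pt → ℝ := fun v => -cr (d 0) v - cr v (d (n - 1)) with hf
    set g : Pt → ℝ := fun v => cr (d 0) v with hg
    have hfadd : ∀ (u v : Pt), f (u - v) = f u - f v := by
      intro u v
      simp only [hf, cr, Prod.fst_sub, Prod.snd_sub]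
      ring
    have hfsm : ∀ (t : ℝ) (v : Pt), f (t • v) = t * f v := by
      intro t v
      simp only [hf, cr, Prod.smul_fst, Prod.smul_snd, smul_eq_mul]
      ring
    have hgadd : ∀ (u v : Pt), g (u - v) = g u - g v := by
      intro u v
      simp only [hg, cr, Prod.fst_sub, Prod.snd_sub]
      ring
    have hgsm : ∀ (t : ℝ) (v : Pt), g (t • v) = t * g v := by
      intro t v
      simp only [hg, cr, Prod.smul_fst, Prod.smul_snd, smul_eq_mul]
      ring
    have hself : ∀ v : Pt, cr v v = 0 := by
      intro v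
      simp only [cr]
      ring
    have hfpos : ∀ i < n, 0 < f (d i) := by
      intro i hi
      simp only [hf]
      have h01 := hd 0 (n - 1) (by omega) (by omega)
      rcases Nat.eq_zero_or_pos i with h0 | h0
      · subst h0
        rw [hself]
        linarith
      · have h1 := hd 0 i h0 hi
        rcases Nat.lt_or_ge i (n - 1) with h2 | h2
        · have h3 := hd i (n - 1) h2 (by omega)
          linarith
        · have h4 : i = n - 1 := by omega
          subst h4
          rw [hself]
          linarith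
    set m : ℕ → ℝ := fun i => g (d i) / f (d i) with hm
    have hmf : ∀ i < n, g (d i) = m i * f (d i) := by
      intro i hi
      simp only [hm]
      rw [div_mul_cancel₀ _ (hfpos i hi).ne']
    have hmlt : ∀ i j, i < j → j < n → m j < m i := by
      intro i j hij hj
      simp only [hm]
      rw [div_lt_div_iff₀ (hfpos j hj) (hfpos i (by omega))]
      have key : g (d j) * f (d i) - g (d i) * f (d j) =
          -(cr (d 0) (d (n - 1)) * cr (d i) (d j)) := by
        simp only [hf, hg, cr]
        ring
      have h1 := hd 0 (n - 1) (by omega) (by omega)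
      have h2 := hd i j hij hj
      have h3 := mul_pos_of_neg_of_neg h1 h2
      linarith
    have hlen := length_evs (List.range n) w
    have hex : ∀ i, ∃ e, i < n → e < w.length ∧
        (((evs (List.range n) w).getD e (0, 0)).1 = i ∨ ((evs (List.range n) w).getD e (0, 0)).2 = i) := by
      intro i
      by_cases hi : i < n
      · rcases Nat.eq_zero_or_pos i with h0 | h0
        · obtain ⟨e, he, h1, -⟩ := hw.exists_ev (i := i) (j := 1) (by omega) (by omega)
          exact ⟨e, fun _ => ⟨he, Or.inl (by rw [h1])⟩⟩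
        · obtain ⟨e, he, h1, -⟩ := hw.exists_ev (i := 0) (j := i) h0 hi
          exact ⟨e, fun _ => ⟨he, Or.inr (by rw [h1])⟩⟩
      · exact ⟨0, fun h => absurd h hi⟩
    choose ev hev using hex
    set c : ℕ → ℝ := fun i => g (x (ev i)) - m i * f (x (ev i)) with hc
    have hline : ∀ i < n, ∀ e' < w.length,
        (((evs (List.range n) w).getD e' (0, 0)).1 = i ∨ ((evs (List.range n) w).getD e' (0, 0)).2 = i) →
        g (x e') = m i * f (x e') + c i := by
      intro i hi e' he' hmem
      obtain ⟨h1, h2⟩ := hev i hi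
      simp only [hc]
      rcases lt_trichotomy (ev i) e' with h3 | h3 | h3
      · obtain ⟨t, -, ht⟩ := hx (ev i) e' h3 he' i h2 hmem
        have h4 := hgadd (x e') (x (ev i))
        have h5 := hfadd (x e') (x (ev i))
        rw [ht, hgsm, hmf i hi] at h4
        rw [ht, hfsm] at h5
        have h6 : t * (m i * f (d i)) = m i * (t * f (d i)) := by ring
        rw [h6, h5] at h4
        linarith
      · rw [← h3]
        ring
      · obtain ⟨t, -, ht⟩ := hx e' (ev i) h3 h1 i hmem h2
        have h4 := hgadd (x (ev i)) (x e')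
        have h5 := hfadd (x (ev i)) (x e')
        rw [ht, hgsm, hmf i hi] at h4
        rw [ht, hfsm] at h5
        have h6 : t * (m i * f (d i)) = m i * (t * f (d i)) := by ring
        rw [h6, h5] at h4
        linarith
    have hval : ∀ e < w.length,
        (c ((evs (List.range n) w).getD e (0, 0)).2 - c ((evs (List.range n) w).getD e (0, 0)).1) /
          (m ((evs (List.range n) w).getD e (0, 0)).1 - m ((evs (List.range n) w).getD e (0, 0)).2) =
        f (x e) := by
      intro e he
      obtain ⟨h1, h2⟩ := hw.evs_lt (e := e) (by rw [hlen]; exact he)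
      have h3 := hline _ (lt_trans h1 h2) e he (Or.inl rfl)
      have h4 := hline _ h2 e he (Or.inr rfl)
      have h5 := hmlt _ _ h1 h2
      rw [div_eq_iff (by linarith)]
      linarith
    refine ⟨m, c, hmlt, ?_⟩
    rw [List.pairwise_iff_getElem]
    intro e e' he he' hee' hcom
    rw [hlen] at he he'
    have hge : (evs (List.range n) w)[e]'(by rw [hlen]; exact he) = (evs (List.range n) w).getD e (0, 0) :=
      (List.getD_eq_getElem _ _ _).symm
    have hge' : (evs (List.range n) w)[e']'(by rw [hlen]; exact he') =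
        (evs (List.range n) w).getD e' (0, 0) :=
      (List.getD_eq_getElem _ _ _).symm
    rw [hge, hge'] at hcom ⊢
    rw [hval e he, hval e' he']
    have hcommon : ∃ i < n,
        (((evs (List.range n) w).getD e (0, 0)).1 = i ∨ ((evs (List.range n) w).getD e (0, 0)).2 = i) ∧
        (((evs (List.range n) w).getD e' (0, 0)).1 = i ∨ ((evs (List.range n) w).getD e' (0, 0)).2 = i) := by
      obtain ⟨h1, h2⟩ := hw.evs_lt (e := e) (by rw [hlen]; exact he)
      rcases hcom with h | h | h | h
      · exact ⟨_, lt_trans h1 h2, Or.inl rfl, Or.inl h.symm⟩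
      · exact ⟨_, lt_trans h1 h2, Or.inl rfl, Or.inr h.symm⟩
      · exact ⟨_, h2, Or.inr rfl, Or.inl h.symm⟩
      · exact ⟨_, h2, Or.inr rfl, Or.inr h.symm⟩
    obtain ⟨i, hi, hi1, hi2⟩ := hcommon
    obtain ⟨t, ht, hxt⟩ := hx e e' hee' he' i hi1 hi2
    have h5 := hfadd (x e') (x e)
    rw [hxt, hfsm] at h5
    have h6 := mul_pos ht (hfpos i hi)
    linarith

/-- Proof. For `i < j < k < n` let `e₁, e₂, e₃` be the events `(i, j)`, `(i, k)`, `(j, k)`. By `Wiring.triple` `e₁ < e₂ < e₃` or `e₃ < e₂ < e₁`. In the first case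
`x e₂ - x e₁ = λ • d i`, `x e₃ - x e₁ = μ • d j`, `x e₃ - x e₂ = ν • d k`, in the second case `x e₁ - x e₂ = λ • d i`, `x e₁ - x e₃ = μ • d j`, `x e₂ - x e₃ = ν • d k`, with positive coefficients; in both cases
`μ • d j = λ • d i + ν • d k`. So `cr (d i) (d j)`, `cr (d i) (d k)`, `cr (d j) (d k)` have the same sign. Therefore all `cr (d i) (d j)`, `i < j < n`, have the same sign (compare
`(i, j)` with `(0, j)` and `(0, j)` with `(0, 1)`). If the sign is negative use `stretchable_of_dirs_neg`; if it is positive use it for the reflected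
`d' i = ((d i).1, -(d i).2)`, `x' e = ((x e).1, -(x e).2)`. -/
theorem stretchable_of_dirs (hw : Wiring n w) (d : ℕ → Pt) (x : ℕ → Pt)
    (hd : ∀ i j, i < j → j < n → cr (d i) (d j) ≠ 0)
    (hx : ∀ e e', e < e' → e' < w.length → ∀ i,
      (((evs (List.range n) w).getD e (0, 0)).1 = i ∨ ((evs (List.range n) w).getD e (0, 0)).2 = i) →
      (((evs (List.range n) w).getD e' (0, 0)).1 = i ∨ ((evs (List.range n) w).getD e' (0, 0)).2 = i) →
      ∃ t : ℝ, 0 < t ∧ x e' - x e = t • d i) : Stretchable n w := by
  have hcr_smul_left : ∀ (t : ℝ) (u v : Pt), cr (t • u) v = t * cr u v := by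
    intro t u v
    simp only [cr, Prod.smul_fst, Prod.smul_snd, smul_eq_mul]
    ring
  have hcr_smul_right : ∀ (t : ℝ) (u v : Pt), cr u (t • v) = t * cr u v := by
    intro t u v
    simp only [cr, Prod.smul_fst, Prod.smul_snd, smul_eq_mul]
    ring
  have htri : ∀ i j k, i < j → j < k → k < n → ∃ l μ ν : ℝ, 0 < l ∧ 0 < μ ∧ 0 < ν ∧
      μ • d j = l • d i + ν • d k := by
    intro i j k hij hjk hk
    obtain ⟨e₁, h₁, E₁, -⟩ := hw.exists_ev (i := i) (j := j) hij (by omega)
    obtain ⟨e₂, h₂, E₂, -⟩ := hw.exists_ev (i := i) (j := k) (by omega) hk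
    obtain ⟨e₃, h₃, E₃, -⟩ := hw.exists_ev (i := j) (j := k) hjk hk
    rcases hw.triple hij hjk hk h₁ h₂ h₃ E₁ E₂ E₃ with ⟨h12, h23⟩ | ⟨h32, h21⟩
    · obtain ⟨l, hl, hxl⟩ := hx e₁ e₂ h12 h₂ i (Or.inl (by rw [E₁])) (Or.inl (by rw [E₂]))
      obtain ⟨μ, hμ, hxμ⟩ := hx e₁ e₃ (by omega) h₃ j (Or.inr (by rw [E₁])) (Or.inl (by rw [E₃]))
      obtain ⟨ν, hν, hxν⟩ := hx e₂ e₃ h23 h₃ k (Or.inr (by rw [E₂])) (Or.inr (by rw [E₃]))
      refine ⟨l, μ, ν, hl, hμ, hν, ?_⟩
      rw [← hxl, ← hxμ, ← hxν]
      abel
    · obtain ⟨l, hl, hxl⟩ := hx e₂ e₁ h21 h₁ i (Or.inl (by rw [E₂])) (Or.inl (by rw [E₁]))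
      obtain ⟨μ, hμ, hxμ⟩ := hx e₃ e₁ (by omega) h₁ j (Or.inl (by rw [E₃])) (Or.inr (by rw [E₁]))
      obtain ⟨ν, hν, hxν⟩ := hx e₃ e₂ h32 h₂ k (Or.inr (by rw [E₃])) (Or.inr (by rw [E₂]))
      refine ⟨l, μ, ν, hl, hμ, hν, ?_⟩
      rw [← hxl, ← hxμ, ← hxν]
      abel
  have hsign : ∀ i j k, i < j → j < k → k < n → ∃ p q : ℝ, 0 < p ∧ 0 < q ∧
      cr (d i) (d k) = p * cr (d i) (d j) ∧ cr (d j) (d k) = q * cr (d i) (d j) := by
    intro i j k hij hjk hk
    obtain ⟨l, μ, ν, hl, hμ, hν, h⟩ := htri i j k hij hjk hk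
    have hself : ∀ v : Pt, cr v v = 0 := by
      intro v
      simp only [cr]
      ring
    have hadd_right : ∀ u v v' : Pt, cr u (v + v') = cr u v + cr u v' := by
      intro u v v'
      simp only [cr, Prod.fst_add, Prod.snd_add]
      ring
    have hadd_left : ∀ u v v' : Pt, cr (v + v') u = cr v u + cr v' u := by
      intro u v v'
      simp only [cr, Prod.fst_add, Prod.snd_add]
      ring
    have h1 : μ * cr (d i) (d j) = ν * cr (d i) (d k) := by
      rw [← hcr_smul_right, h, hadd_right, hcr_smul_right, hcr_smul_right, hself]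
      ring
    have h2 : μ * cr (d j) (d k) = l * cr (d i) (d k) := by
      rw [← hcr_smul_left, h, hadd_left, hcr_smul_left, hcr_smul_left, hself]
      ring
    refine ⟨μ / ν, l / ν, div_pos hμ hν, div_pos hl hν, ?_, ?_⟩
    · field_simp
      linarith
    · have h3 : cr (d i) (d k) = μ / ν * cr (d i) (d j) := by
        field_simp
        linarith
      have h4 : μ * cr (d j) (d k) = μ * (l / ν * cr (d i) (d j)) := by
        rw [h2, h3]
        ring
      exact mul_left_cancel₀ hμ.ne' h4
  by_cases hn : n < 2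
  · exact stretchable_of_dirs_neg hw d x (fun i j hij hj => by omega) hx
  · push Not at hn
    rcases lt_or_gt_of_ne (hd 0 1 (by omega) (by omega)) with h01 | h01
    · refine stretchable_of_dirs_neg hw d x ?_ hx
      have h0 : ∀ j, 0 < j → j < n → cr (d 0) (d j) < 0 := by
        intro j hj0 hj
        rcases Nat.lt_or_ge 1 j with h1 | h1
        · obtain ⟨p, q, hp, hq, e1, -⟩ := hsign 0 1 j (by omega) h1 hj
          rw [e1]
          exact mul_neg_of_pos_of_neg hp h01
        · have : j = 1 := by omega
          rw [this]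
          exact h01
      intro i j hij hj
      rcases Nat.eq_zero_or_pos i with hi | hi
      · subst hi
        exact h0 j hij hj
      · obtain ⟨p, q, hp, hq, -, e2⟩ := hsign 0 i j hi hij hj
        rw [e2]
        exact mul_neg_of_pos_of_neg hq (h0 i hi (by omega))
    · have h0 : ∀ j, 0 < j → j < n → 0 < cr (d 0) (d j) := by
        intro j hj0 hj
        rcases Nat.lt_or_ge 1 j with h1 | h1
        · obtain ⟨p, q, hp, hq, e1, -⟩ := hsign 0 1 j (by omega) h1 hj
          rw [e1]
          exact mul_pos hp h01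
        · have : j = 1 := by omega
          rw [this]
          exact h01
      have hall : ∀ i j, i < j → j < n → 0 < cr (d i) (d j) := by
        intro i j hij hj
        rcases Nat.eq_zero_or_pos i with hi | hi
        · subst hi
          exact h0 j hij hj
        · obtain ⟨p, q, hp, hq, -, e2⟩ := hsign 0 i j hi hij hj
          rw [e2]
          exact mul_pos hq (h0 i hi (by omega))
      refine stretchable_of_dirs_neg hw (fun i => ((d i).1, -(d i).2)) (fun e => ((x e).1, -(x e).2)) ?_ ?_
      · intro i j hij hj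
        have h1 := hall i j hij hj
        simp only [cr] at h1 ⊢
        linarith
      · intro e e' hee' he' i hi1 hi2
        obtain ⟨t, ht, hxt⟩ := hx e e' hee' he' i hi1 hi2
        refine ⟨t, ht, ?_⟩
        have h1 := congrArg Prod.fst hxt
        have h2 := congrArg Prod.snd hxt
        simp only [Prod.fst_sub, Prod.snd_sub, Prod.smul_fst, Prod.smul_snd, smul_eq_mul] at h1 h2
        refine Prod.ext ?_ ?_
        · simp only [Prod.fst_sub, Prod.smul_fst, smul_eq_mul]
          exact h1
        · simp only [Prod.snd_sub, Prod.smul_snd, smul_eq_mul]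
          linarith

end Pool.Agent.SO
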