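import Pool.Agent.Lib.MP_2f17d2_lc.Mg.G005

/-!
# Task Bk: a closed polygon made of two pieces of a curve
-/

set_option autoImplicit false

namespace Pool.Agent.SO

/-- The vertices `v p0, ..., v (p1 - 1), v q0, ..., v (q1 - 1)`, repeated periodically. -/
def blockQ (v : ℕ → Pt) (p0 p1 q0 q1 : ℕ) : ℤ → Pt := fun z =>
  let r := (z % (((p1 - p0) + (q1 - q0) : ℕ) : ℤ)).toNat
  if r < p1 - p0 then v (p0 + r) else v (q0 + (r - (p1 - p0)))

variable {v : ℕ → Pt} {p0 p1 q0 q1 : ℕ}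

private def Bk_ix (p0 p1 q0 : ℕ) (k : ℕ) : ℕ := if k < p1 - p0 then p0 + k else q0 + (k - (p1 - p0))

private theorem Bk_val {z : ℤ} {k : ℕ} (hk : k < (p1 - p0) + (q1 - q0))
    (h : z % (((p1 - p0) + (q1 - q0) : ℕ) : ℤ) = (k : ℤ)) :
    blockQ v p0 p1 q0 q1 z = v (Bk_ix p0 p1 q0 k) := by
  unfold blockQ Bk_ix
  simp only [h, Int.toNat_natCast]
  split_ifs <;> rfl

private theorem Bk_nat {k : ℕ} (hk : k < (p1 - p0) + (q1 - q0)) :
    blockQ v p0 p1 q0 q1 (k : ℤ) = v (Bk_ix p0 p1 q0 k) := by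
  apply Bk_val hk
  exact Int.emod_eq_of_lt (by positivity) (by exact_mod_cast hk)

private theorem Bk_top :
    blockQ v p0 p1 q0 q1 (((p1 - p0) + (q1 - q0) : ℕ) : ℤ) = blockQ v p0 p1 q0 q1 0 := by
  unfold blockQ
  simp

/-- The vertices of the first piece (also the last one, `r = p1 - p0`, because `v p1 = v q0`). -/
theorem blockQ_left (hp : p0 < p1) (hq : q0 < q1) (hB : v p1 = v q0) {r : ℕ} (hr : r ≤ p1 - p0) :
    blockQ v p0 p1 q0 q1 r = v (p0 + r) := by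
  rw [Bk_nat (by omega)]
  unfold Bk_ix
  split_ifs with h1
  · rfl
  · have h2 : r = p1 - p0 := by omega
    have h3 : q0 + (r - (p1 - p0)) = q0 := by omega
    have h4 : p0 + r = p1 := by omega
    rw [h3, h4, hB]

/-- The vertices of the second piece (also the last one, because `v q1 = v p0`). -/
theorem blockQ_right (hp : p0 < p1) (hq : q0 < q1) (hA : v q1 = v p0) {r : ℕ} (hr : r ≤ q1 - q0) :
    blockQ v p0 p1 q0 q1 ((p1 - p0 + r : ℕ) : ℤ) = v (q0 + r) := by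
  rcases Nat.lt_or_ge r (q1 - q0) with h1 | h1
  · rw [Bk_nat (by omega)]
    unfold Bk_ix
    rw [if_neg (by omega)]
    congr 1
    omega
  · have h2 : r = q1 - q0 := by omega
    subst h2
    rw [Bk_top]
    have h0 : blockQ v p0 p1 q0 q1 ((0 : ℕ) : ℤ) = v (Bk_ix p0 p1 q0 0) := Bk_nat (by omega)
    rw [Nat.cast_zero] at h0
    rw [h0]
    unfold Bk_ix
    rw [if_pos (by omega)]
    have h4 : q0 + (q1 - q0) = q1 := by omega
    rw [h4, hA, Nat.add_zero]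

private theorem Bk_next (hp : p0 < p1) (hq : q0 < q1) (hB : v p1 = v q0) (hA : v q1 = v p0) {k : ℕ}
    (hk : k < (p1 - p0) + (q1 - q0)) :
    blockQ v p0 p1 q0 q1 ((k : ℤ) + 1) = v (Bk_ix p0 p1 q0 k + 1) := by
  unfold Bk_ix
  split_ifs with h1
  · have h := blockQ_left hp hq hB (r := k + 1) (by omega)
    push_cast at h
    rw [h]
    congr 1
  · have h := blockQ_right hp hq hA (r := k - (p1 - p0) + 1) (by omega)
    have h2 : ((p1 - p0 + (k - (p1 - p0) + 1) : ℕ) : ℤ) = (k : ℤ) + 1 := by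
      have h3 : p1 - p0 + (k - (p1 - p0) + 1) = k + 1 := by omega
      rw [h3]
      push_cast
      ring
    rw [h2] at h
    rw [h]
    congr 1

private theorem Bk_per (z c : ℤ) :
    blockQ v p0 p1 q0 q1 (z + (((p1 - p0) + (q1 - q0) : ℕ) : ℤ) * c) = blockQ v p0 p1 q0 q1 z := by
  unfold blockQ
  simp only [Int.add_mul_emod_self_left]

private theorem Bk_key (hp : p0 < p1) (hq : q0 < q1) (hB : v p1 = v q0) (hA : v q1 = v p0) (i : ℤ) :
    ∃ a : ℕ, a < (p1 - p0) + (q1 - q0) ∧ (∃ c : ℤ, i = (a : ℤ) + (((p1 - p0) + (q1 - q0) : ℕ) : ℤ) * c) ∧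
      blockQ v p0 p1 q0 q1 i = v (Bk_ix p0 p1 q0 a) ∧ blockQ v p0 p1 q0 q1 (i + 1) = v (Bk_ix p0 p1 q0 a + 1) := by
  set M : ℕ := (p1 - p0) + (q1 - q0) with hM
  have hM0 : (0 : ℤ) < (M : ℤ) := by
    have : 0 < M := by omega
    exact_mod_cast this
  have h1 := Int.emod_nonneg i hM0.ne'
  have h2 := Int.emod_lt_of_pos i hM0
  obtain ⟨a, ha⟩ := Int.eq_ofNat_of_zero_le h1
  have h3 : a < M := by
    rw [ha] at h2
    exact_mod_cast h2
  have h4 : i = (a : ℤ) + (M : ℤ) * (i / M) := by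
    rw [← ha]
    exact (Int.emod_add_mul_ediv i M).symm
  refine ⟨a, h3, ⟨i / M, h4⟩, ?_, ?_⟩
  · exact Bk_val h3 ha
  · have h5 : i + 1 = ((a : ℤ) + 1) + (M : ℤ) * (i / M) := by linarith
    rw [h5]
    rw [hM, Bk_per]
    exact Bk_next hp hq hB hA h3

private theorem Bk_ix_inj (hp : p0 < p1) (hq : q0 < q1) (hsep : p1 ≤ q0 ∨ q1 ≤ p0) {a b : ℕ}
    (ha : a < (p1 - p0) + (q1 - q0)) (hb : b < (p1 - p0) + (q1 - q0)) (hab : a ≠ b) :
    Bk_ix p0 p1 q0 a ≠ Bk_ix p0 p1 q0 b := by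
  unfold Bk_ix
  split_ifs <;> omega

private theorem Bk_ix_mem (hp : p0 < p1) (hq : q0 < q1) {a : ℕ}
    (ha : a < (p1 - p0) + (q1 - q0)) :
    (p0 ≤ Bk_ix p0 p1 q0 a ∧ Bk_ix p0 p1 q0 a < p1) ∨ (q0 ≤ Bk_ix p0 p1 q0 a ∧ Bk_ix p0 p1 q0 a < q1) := by
  unfold Bk_ix
  split_ifs <;> omega

private theorem Bk_ne {M a b : ℕ} {i j c d : ℤ} (hi : i = (a : ℤ) + (M : ℤ) * c) (hj : j = (b : ℤ) + (M : ℤ) * d)
    (h1 : i < j) (h2 : j < i + M) : a ≠ b := by
  rintro rfl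
  have h3 : (M : ℤ) * c < (M : ℤ) * d := by linarith
  have h4 : (M : ℤ) * d < (M : ℤ) * (c + 1) := by linarith
  have hM : (0 : ℤ) ≤ M := Int.natCast_nonneg M
  have h5 : c < d := lt_of_mul_lt_mul_left h3 hM
  have h6 : d < c + 1 := lt_of_mul_lt_mul_left h4 hM
  omega

/-- Two pieces `[p0, p1]` and `[q0, q1]` of a sequence of points which fit together (`v p1 = v q0`, `v q1 = v p0`) form a closed polygon. All
the conditions are inherited.

Proof. With `M = (p1 - p0) + (q1 - q0)`: by periodicity, reduce the index `i` to `0 ≤ i < M`; the edge `i` of the polygon is the edge `p0 + i` of `v` if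
`i < p1 - p0` and the edge `q0 + (i - (p1 - p0))` otherwise. The map from `{0, ..., M - 1}` to the indices in `[p0, p1) ∪ [q0, q1)` is injective (`hsep`).
For `i < j < i + M` with `0 ≤ i < M` either `j < M` or `j - M < i`: both are different indices in `{0, ..., M - 1}`; use `hinj`, `hedge` (which are
symmetric in the two indices). For `turn` at `i`: `0 < i < p1 - p0` and `p1 - p0 < i < M` by `hturn`, `i = p1 - p0` by `tB`, `i = 0` by `tA`. -/
theorem cc_of_blocks (hp : p0 < p1) (hq : q0 < q1) (hsep : p1 ≤ q0 ∨ q1 ≤ p0) (hB : v p1 = v q0) (hA : v q1 = v p0)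
    (hturn : ∀ j, (p0 < j ∧ j < p1) ∨ (q0 < j ∧ j < q1) →
      Same (v j - v (j - 1)) (v (j + 1) - v j) ∨ cr (v j - v (j - 1)) (v (j + 1) - v j) < 0)
    (tB : Same (v p1 - v (p1 - 1)) (v (q0 + 1) - v q0) ∨ cr (v p1 - v (p1 - 1)) (v (q0 + 1) - v q0) < 0)
    (tA : Same (v q1 - v (q1 - 1)) (v (p0 + 1) - v p0) ∨ cr (v q1 - v (q1 - 1)) (v (p0 + 1) - v p0) < 0)
    (hinj : ∀ j k, j ≠ k → ((p0 ≤ j ∧ j < p1) ∨ (q0 ≤ j ∧ j < q1)) → ((p0 ≤ k ∧ k < p1) ∨ (q0 ≤ k ∧ k < q1)) →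
      v j ≠ v k)
    (hedge : ∀ j k, j ≠ k → ((p0 ≤ j ∧ j < p1) ∨ (q0 ≤ j ∧ j < q1)) → ((p0 ≤ k ∧ k < p1) ∨ (q0 ≤ k ∧ k < q1)) →
      ∀ s t : ℝ, 0 < s → s < 1 → 0 ≤ t → t ≤ 1 → v j + s • (v (j + 1) - v j) ≠ v k + t • (v (k + 1) - v k)) :
    CC (blockQ v p0 p1 q0 q1) ((p1 - p0) + (q1 - q0)) := by
  refine ⟨by omega, ?_, ?_, ?_, ?_⟩
  · intro i
    have h := Bk_per (v := v) (p0 := p0) (p1 := p1) (q0 := q0) (q1 := q1) i 1
    rw [mul_one] at h
    exact h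
  · intro i j hij hj
    obtain ⟨a, ha, ⟨c, hc⟩, ha1, ha2⟩ := Bk_key hp hq hB hA i
    obtain ⟨b, hb, ⟨d, hd⟩, hb1, hb2⟩ := Bk_key hp hq hB hA j
    have hab := Bk_ne hc hd hij hj
    rw [ha1, hb1]
    exact hinj _ _ (Bk_ix_inj hp hq hsep ha hb hab) (Bk_ix_mem hp hq ha) (Bk_ix_mem hp hq hb)
  · intro i
    obtain ⟨a, ha, ⟨c, hc⟩, ha1, ha2⟩ := Bk_key hp hq hB hA i
    obtain ⟨b, hb, ⟨d, hd⟩, hb1, hb2⟩ := Bk_key hp hq hB hA (i - 1)
    rw [sub_add_cancel] at hb2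
    rw [ha2]
    -- relation of a and b
    have hrel : (0 < a ∧ b = a - 1) ∨ (a = 0 ∧ b = (p1 - p0) + (q1 - q0) - 1) := by
      have hM0 : (0 : ℤ) < (((p1 - p0) + (q1 - q0) : ℕ) : ℤ) := by
        have : 0 < (p1 - p0) + (q1 - q0) := by omega
        exact_mod_cast this
      generalize hM : (p1 - p0) + (q1 - q0) = M at *
      have e1 : (a : ℤ) + (M : ℤ) * c - 1 = (b : ℤ) + (M : ℤ) * d := by linarith
      have e2 : (M : ℤ) * (d - c) = (a : ℤ) - 1 - b := by linarith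
      have a0 : (0 : ℤ) ≤ a := Int.natCast_nonneg a
      have b0 : (0 : ℤ) ≤ b := Int.natCast_nonneg b
      have a1 : (a : ℤ) < M := by exact_mod_cast ha
      have b1 : (b : ℤ) < M := by exact_mod_cast hb
      have e3 : (M : ℤ) * (d - c) < M * 1 := by linarith
      have e4 : (M : ℤ) * (-2) < M * (d - c) := by linarith
      have e5 := lt_of_mul_lt_mul_left e3 hM0.le
      have e6 := lt_of_mul_lt_mul_left e4 hM0.le
      have e7 : d - c = 0 ∨ d - c = -1 := by omega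
      rcases e7 with e7 | e7
      · rw [e7] at e2
        left
        omega
      · rw [e7] at e2
        right
        omega
    rcases hrel with ⟨h0, hb'⟩ | ⟨h0, hb'⟩
    · by_cases h1 : a = p1 - p0
      · have ea : Bk_ix p0 p1 q0 a = q0 := by
          unfold Bk_ix
          split_ifs <;> omega
        have eb : Bk_ix p0 p1 q0 b = p1 - 1 := by
          unfold Bk_ix
          split_ifs <;> omega
        rw [ha1, hb1, ea, eb]
        rw [hB] at tB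
        exact tB
      · have eab : Bk_ix p0 p1 q0 b = Bk_ix p0 p1 q0 a - 1 := by
          unfold Bk_ix
          split_ifs <;> omega
        rw [ha1, hb1, eab]
        apply hturn
        unfold Bk_ix
        split_ifs <;> omega
    · have ea : Bk_ix p0 p1 q0 a = p0 := by
        unfold Bk_ix
        split_ifs <;> omega
      have eb : Bk_ix p0 p1 q0 b = q1 - 1 := by
        unfold Bk_ix
        split_ifs <;> omega
      rw [ha1, hb1, ea, eb]
      rw [hA] at tA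
      exact tA
  · intro i j hij hj s t hs0 hs1 ht0 ht1
    obtain ⟨a, ha, ⟨c, hc⟩, ha1, ha2⟩ := Bk_key hp hq hB hA i
    obtain ⟨b, hb, ⟨d, hd⟩, hb1, hb2⟩ := Bk_key hp hq hB hA j
    have hab := Bk_ne hc hd hij hj
    rw [ha1, ha2, hb1, hb2]
    exact hedge _ _ (Bk_ix_inj hp hq hsep ha hb hab) (Bk_ix_mem hp hq ha) (Bk_ix_mem hp hq hb) s t hs0 hs1 ht0 ht1

/-- The corners at the two joints. -/
theorem strictAt_blockQ_zero (hp : p0 < p1) (hq : q0 < q1) (hB : v p1 = v q0) (hA : v q1 = v p0)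
    (h : cr (v q1 - v (q1 - 1)) (v (p0 + 1) - v p0) < 0) : StrictAt (blockQ v p0 p1 q0 q1) 0 := by
  unfold StrictAt
  have e0 := blockQ_left hp hq hB (r := 0) (by omega)
  have e1 := blockQ_left hp hq hB (r := 1) (by omega)
  have e2 : blockQ v p0 p1 q0 q1 (0 - 1) = v (q1 - 1) := by
    have e3 := blockQ_right hp hq hA (r := q1 - q0 - 1) (by omega)
    have e4 : ((p1 - p0 + (q1 - q0 - 1) : ℕ) : ℤ) = (0 - 1 : ℤ) + (((p1 - p0) + (q1 - q0) : ℕ) : ℤ) * 1 := by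
      have : p1 - p0 + (q1 - q0 - 1) = (p1 - p0) + (q1 - q0) - 1 := by omega
      rw [this, Nat.cast_sub (by omega)]
      push_cast
      ring
    rw [e4, Bk_per] at e3
    rw [e3]
    congr 1
    omega
  rw [Nat.cast_zero, Nat.add_zero] at e0
  rw [Nat.cast_one] at e1
  rw [e2, zero_add, e0, e1, ← hA]
  rw [hA] at h
  rw [hA]
  exact h

theorem strictAt_blockQ_mid (hp : p0 < p1) (hq : q0 < q1) (hB : v p1 = v q0) (hA : v q1 = v p0)
    (h : cr (v p1 - v (p1 - 1)) (v (q0 + 1) - v q0) < 0) :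
    StrictAt (blockQ v p0 p1 q0 q1) ((p1 - p0 : ℕ) : ℤ) := by
  unfold StrictAt
  have e0 := blockQ_left hp hq hB (r := p1 - p0) (by omega)
  have e1 := blockQ_left hp hq hB (r := p1 - p0 - 1) (by omega)
  have e2 := blockQ_right hp hq hA (r := 1) (by omega)
  have e3 : ((p1 - p0 - 1 : ℕ) : ℤ) = ((p1 - p0 : ℕ) : ℤ) - 1 := by
    rw [Nat.cast_sub (by omega)]
    push_cast
    ring
  have e4 : ((p1 - p0 + 1 : ℕ) : ℤ) = ((p1 - p0 : ℕ) : ℤ) + 1 := by
    push_cast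
    ring
  have e5 : p0 + (p1 - p0) = p1 := by omega
  have e6 : p0 + (p1 - p0 - 1) = p1 - 1 := by omega
  rw [e3, e6] at e1
  rw [e4] at e2
  rw [e5] at e0
  rw [e0, e1, e2]
  rw [← hB] at h
  exact h

end Pool.Agent.SO
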