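import Pool.Agent.Lib.MP_2f17d2_lc.SO.Defs

/-!
# Task Qd: four points in the four quadrants of two lines
-/

set_option autoImplicit false

namespace Pool.Agent.SO

private theorem Qd_smul {u d : Pt} (hu : u ≠ 0) (h : u.1 * d.2 - u.2 * d.1 = 0) : ∃ s : ℝ, d = s • u := by
  by_cases h1 : u.1 = 0
  · have h2 : u.2 ≠ 0 := by
      intro h2
      exact hu (Prod.ext h1 h2)
    refine ⟨d.2 / u.2, Prod.ext ?_ ?_⟩
    · have h3 : u.2 * d.1 = 0 := by
        rw [h1] at h
        linarith
      have h4 : d.1 = 0 := by
        rcases mul_eq_zero.1 h3 with h | h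
        · exact absurd h h2
        · exact h
      simp [h1, h4]
    · simp only [Prod.smul_snd, smul_eq_mul]
      field_simp
  · refine ⟨d.1 / u.1, Prod.ext ?_ ?_⟩
    · simp only [Prod.smul_fst, smul_eq_mul]
      field_simp
    · simp only [Prod.smul_snd, smul_eq_mul]
      field_simp
      linarith

private theorem Qd_lin (u p1 p2 p3 p4 : Pt) (l1 l2 l3 l4 : ℝ) :
    cr u (l1 • p1 + l2 • p2 + l3 • p3 + l4 • p4) =
      l1 * cr u p1 + l2 * cr u p2 + l3 * cr u p3 + l4 * cr u p4 := by
  simp only [cr, Prod.fst_add, Prod.snd_add, Prod.smul_fst, Prod.smul_snd, smul_eq_mul]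
  ring

/-- Four points, one in each of the four regions `cr u z > α` or `< α`, `cr v z > β` or `< β`. Then `u`, `v` are not parallel and the common point of the
lines `cr u z = α`, `cr v z = β` is a convex combination of the four points.

Proof. If `cr u v = 0`: `u ≠ 0` and `v ≠ 0` (two different values), so `v = k • u`, `k ≠ 0`, `cr v z = k * cr u z`. If `k > 0`: `P true false` gives `α < β / k`, `P false true` gives
`β / k < α`. If `k < 0`: `P true true` gives `cr u (P true true) < β / k` and `> α`, `P false false` gives `cr u (P false false) > β / k` and `< α`.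
Convex combination: on the segment from `P true false` to `P true true` there is a point `Y₁` with `cr v Y₁ = β`, and `cr u Y₁ > α`; on the segment from
`P false false` to `P false true` there is `Y₂` with `cr v Y₂ = β`, `cr u Y₂ < α`; on the segment from `Y₂` to `Y₁` there is `x`. (All points by explicit
parameters `(β - c) / (c' - c)`.) -/
theorem quad {u v : Pt} {α β : ℝ} {P : Bool → Bool → Pt}
    (h1 : ∀ τ, α < cr u (P true τ)) (h2 : ∀ τ, cr u (P false τ) < α)
    (h3 : ∀ τ, β < cr v (P τ true)) (h4 : ∀ τ, cr v (P τ false) < β) :
    cr u v ≠ 0 ∧ ∃ l : Bool → Bool → ℝ, (∀ a b, 0 ≤ l a b) ∧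
      l true true + l true false + l false true + l false false = 1 ∧
      cr u (l true true • P true true + l true false • P true false + l false true • P false true +
        l false false • P false false) = α ∧
      cr v (l true true • P true true + l true false • P true false + l false true • P false true +
        l false false • P false false) = β := by
  constructor
  · intro h0
    have hu : u ≠ 0 := by
      rintro rfl
      have := h1 true
      have := h2 true
      simp [cr] at *
      linarith
    obtain ⟨k, rfl⟩ := Qd_smul hu (show u.1 * v.2 - u.2 * v.1 = 0 from h0)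
    have hk : ∀ z : Pt, cr (k • u) z = k * cr u z := by
      intro z
      simp only [cr, Prod.smul_fst, Prod.smul_snd, smul_eq_mul]
      ring
    simp only [hk] at h3 h4
    rcases le_total 0 k with hk0 | hk0
    · have e1 := h3 false
      have e2 := h4 true
      have e3 : cr u (P false true) ≤ cr u (P true false) := ((h2 true).trans (h1 false)).le
      have e4 := mul_le_mul_of_nonneg_left e3 hk0
      linarith
    · have e1 := h3 true
      have e2 := h4 false
      have e3 : cr u (P false false) ≤ cr u (P true true) := ((h2 false).trans (h1 true)).le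
      have e4 := mul_le_mul_of_nonpos_left e3 hk0
      linarith
  · have a11 := h1 true
    have a10 := h1 false
    have a01 := h2 true
    have a00 := h2 false
    have b11 := h3 true
    have b01 := h3 false
    have b10 := h4 true
    have b00 := h4 false
    generalize hA11 : cr u (P true true) = A11 at *
    generalize hA10 : cr u (P true false) = A10 at *
    generalize hA01 : cr u (P false true) = A01 at *
    generalize hA00 : cr u (P false false) = A00 at *
    generalize hB11 : cr v (P true true) = B11 at *
    generalize hB10 : cr v (P true false) = B10 at *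
    generalize hB01 : cr v (P false true) = B01 at *
    generalize hB00 : cr v (P false false) = B00 at *
    obtain ⟨s1, hs10, hs11, hs1⟩ : ∃ s : ℝ, 0 < s ∧ s < 1 ∧ s * B11 + (1 - s) * B10 = β := by
      refine ⟨(β - B10) / (B11 - B10), div_pos (by linarith) (by linarith), ?_, ?_⟩
      · rw [div_lt_one (by linarith)]
        linarith
      · have : B11 - B10 ≠ 0 := by
          intro h
          linarith
        field_simp
        ring
    obtain ⟨s0, hs00, hs01, hs0⟩ : ∃ s : ℝ, 0 < s ∧ s < 1 ∧ s * B01 + (1 - s) * B00 = β := by
      refine ⟨(β - B00) / (B01 - B00), div_pos (by linarith) (by linarith), ?_, ?_⟩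
      · rw [div_lt_one (by linarith)]
        linarith
      · have : B01 - B00 ≠ 0 := by
          intro h
          linarith
        field_simp
        ring
    have hY1 : α < s1 * A11 + (1 - s1) * A10 := by
      nlinarith [mul_pos hs10 (sub_pos.2 a11), mul_pos (sub_pos.2 hs11) (sub_pos.2 a10)]
    have hY0 : s0 * A01 + (1 - s0) * A00 < α := by
      nlinarith [mul_pos hs00 (sub_pos.2 a01), mul_pos (sub_pos.2 hs01) (sub_pos.2 a00)]
    obtain ⟨r, hr0, hr1, hr⟩ : ∃ r : ℝ, 0 < r ∧ r < 1 ∧
        r * (s1 * A11 + (1 - s1) * A10) + (1 - r) * (s0 * A01 + (1 - s0) * A00) = α := by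
      generalize s1 * A11 + (1 - s1) * A10 = Y1 at *
      generalize s0 * A01 + (1 - s0) * A00 = Y0 at *
      refine ⟨(α - Y0) / (Y1 - Y0), div_pos (by linarith) (by linarith), ?_, ?_⟩
      · rw [div_lt_one (by linarith)]
        linarith
      · have : Y1 - Y0 ≠ 0 := by
          intro h
          linarith
        field_simp
        ring
    refine ⟨fun a b => (if a then r else 1 - r) *
      (if a then (if b then s1 else 1 - s1) else (if b then s0 else 1 - s0)), ?_, ?_, ?_, ?_⟩
    · intro a b
      cases a <;> cases b <;> simp <;> apply mul_nonneg <;> linarith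
    · simp
      ring
    · rw [Qd_lin, hA11, hA10, hA01, hA00]
      simp
      linarith
    · rw [Qd_lin, hB11, hB10, hB01, hB00]
      simp
      have e : r * (s1 * B11 + (1 - s1) * B10) + (1 - r) * (s0 * B01 + (1 - s0) * B00) = β := by
        rw [hs1, hs0]
        ring
      linarith

/-- Two points with the same value of `cr u` differ by a multiple of `u` (`u ≠ 0`). -/
theorem eq_smul_of_cr {u z z' : Pt} (hu : u ≠ 0) (h : cr u z = cr u z') : ∃ s : ℝ, z' - z = s • u := by
  refine Qd_smul hu ?_
  simp only [cr] at h
  simp only [Prod.fst_sub, Prod.snd_sub]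
  linarith

end Pool.Agent.SO
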