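import Pool.Agent.Lib.MP_2f17d2_lc.Mg.G005

/-!
# Task Cm: first properties of `CC`
-/

set_option autoImplicit false

namespace Pool.Agent.SO

variable {Q : ℤ → Pt} {M : ℕ}

/-- Periodicity for multiples of `M`. -/
theorem CC.per' (hQ : CC Q M) (i k : ℤ) : Q (i + k * M) = Q i := by
  induction k using Int.induction_on with
  | zero => simp
  | succ k ih =>
    rw [show i + ((k : ℤ) + 1) * (M : ℤ) = (i + (k : ℤ) * M) + M by ring, hQ.per]
    exact ih
  | pred k ih =>
    rw [← hQ.per (i + (-(k : ℤ) - 1) * M),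
      show i + (-(k : ℤ) - 1) * (M : ℤ) + M = i + -(k : ℤ) * M by ring]
    exact ih

/-- The field `edge` when the interior point is on the later edge. Proof: `hQ.edge j (i + M)`, periodicity. -/
theorem CC.edge' (hQ : CC Q M) {i j : ℤ} (hij : i < j) (hj : j < i + M) {s t : ℝ} (hs0 : 0 ≤ s) (hs1 : s ≤ 1)
    (ht0 : 0 < t) (ht1 : t < 1) : Q i + s • (Q (i + 1) - Q i) ≠ Q j + t • (Q (j + 1) - Q j) := by
  intro h
  have h1 := hQ.edge j (i + M) hj (by linarith) t s ht0 ht1 hs0 hs1
  apply h1
  rw [show i + (M : ℤ) + 1 = (i + 1) + M by ring, hQ.per, hQ.per]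
  exact h.symm

theorem CC.ne (hQ : CC Q M) (i : ℤ) : Q i ≠ Q (i + 1) := by
  apply hQ.inj i (i + 1) (by linarith)
  have h2 : (2 : ℤ) ≤ M := by exact_mod_cast hQ.two
  linarith

/-- A common point of two different closed edges is their common vertex. Proof: the parameters are `0` or `1` by `edge` and
`edge'`, then use `inj` for the four cases (in the cases `(1, 0)` and `(0, 1)` compare `i + 1` with `j`, `j + 1` with `i + M`). -/
theorem CC.meet (hQ : CC Q M) {i j : ℤ} (hij : i < j) (hj : j < i + M) {s t : ℝ} (hs0 : 0 ≤ s) (hs1 : s ≤ 1)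
    (ht0 : 0 ≤ t) (ht1 : t ≤ 1) (h : Q i + s • (Q (i + 1) - Q i) = Q j + t • (Q (j + 1) - Q j)) :
    (j = i + 1 ∧ s = 1 ∧ t = 0) ∨ (j + 1 = i + M ∧ s = 0 ∧ t = 1) := by
  have h2 : (2 : ℤ) ≤ M := by exact_mod_cast hQ.two
  have hs : s = 0 ∨ s = 1 := by
    by_contra hc
    push Not at hc
    exact hQ.edge i j hij hj s t (lt_of_le_of_ne hs0 (Ne.symm hc.1)) (lt_of_le_of_ne hs1 hc.2) ht0 ht1 h
  have ht : t = 0 ∨ t = 1 := by
    by_contra hc
    push Not at hc
    exact hQ.edge' hij hj hs0 hs1 (lt_of_le_of_ne ht0 (Ne.symm hc.1)) (lt_of_le_of_ne ht1 hc.2) h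
  rcases hs with rfl | rfl <;> rcases ht with rfl | rfl
  · exfalso
    simp only [zero_smul, add_zero] at h
    exact hQ.inj i j hij hj h
  · right
    simp only [zero_smul, add_zero, one_smul, add_sub_cancel] at h
    refine ⟨?_, rfl, rfl⟩
    by_contra hne
    exact hQ.inj i (j + 1) (by linarith) (lt_of_le_of_ne (by linarith) hne) h
  · left
    simp only [zero_smul, add_zero, one_smul, add_sub_cancel] at h
    refine ⟨?_, rfl, rfl⟩
    by_contra hne
    exact hQ.inj (i + 1) j (lt_of_le_of_ne (by linarith) (Ne.symm hne)) (by linarith) h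
  · exfalso
    simp only [one_smul, add_sub_cancel] at h
    exact hQ.inj (i + 1) (j + 1) (by linarith) (by linarith) h

/-- For `M = 2` the edges `0` and `1` would be the same segment. -/
theorem CC.three (hQ : CC Q M) : 3 ≤ M := by
  by_contra hc
  have h2 : M = 2 := by have := hQ.two; omega
  subst h2
  have h0 : Q 2 = Q 0 := by
    have := hQ.per 0
    simpa using this
  have h1 := hQ.edge 0 1 (by norm_num) (by norm_num) (1 / 2) (1 / 2) (by norm_num) (by norm_num)
    (by norm_num) (by norm_num)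
  apply h1
  rw [show (1 : ℤ) + 1 = 2 by norm_num, show (0 : ℤ) + 1 = 1 by norm_num, h0]
  module

theorem CC.shift (hQ : CC Q M) (k : ℤ) : CC (fun i => Q (i + k)) M := by
  refine ⟨hQ.two, ?_, ?_, ?_, ?_⟩
  · intro i
    rw [show i + (M : ℤ) + k = (i + k) + M by ring, hQ.per]
  · intro i j hij hj
    exact hQ.inj (i + k) (j + k) (by linarith) (by linarith)
  · intro i
    have h := hQ.turn (i + k)
    rw [show i + k - 1 = i - 1 + k by ring, show i + k + 1 = i + 1 + k by ring] at h
    exact h
  · intro i j hij hj s t hs0 hs1 ht0 ht1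
    have h := hQ.edge (i + k) (j + k) (by linarith) (by linarith) s t hs0 hs1 ht0 ht1
    rw [show i + k + 1 = i + 1 + k by ring, show j + k + 1 = j + 1 + k by ring] at h
    exact h

/-- Linear maps of positive determinant `k`. `T` is injective because `T u = 0` gives `cr u v = 0` for all `v`. -/
theorem CC.lin (hQ : CC Q M) (T : Pt →ₗ[ℝ] Pt) {k : ℝ} (hk : 0 < k) (hT : ∀ u v, cr (T u) (T v) = k * cr u v) :
    CC (fun i => T (Q i)) M := by
  have hinj0 : ∀ u, T u = 0 → u = 0 := by
    intro u hu
    have h1 := hT u (1, 0)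
    have h2 := hT u (0, 1)
    rw [hu] at h1 h2
    simp only [cr, Prod.fst_zero, Prod.snd_zero, zero_mul, sub_zero, mul_zero, mul_one, zero_sub] at h1 h2
    have h3 : u.2 = 0 := by
      have : k * u.2 = 0 := by linarith
      exact (mul_eq_zero.1 this).resolve_left hk.ne'
    have h4 : u.1 = 0 := by
      have : k * u.1 = 0 := by linarith
      exact (mul_eq_zero.1 this).resolve_left hk.ne'
    exact Prod.ext h4 h3
  have hinj : ∀ u v, T u = T v → u = v := by
    intro u v h
    exact sub_eq_zero.1 (hinj0 (u - v) (by rw [map_sub, h, sub_self]))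
  refine ⟨hQ.two, ?_, ?_, ?_, ?_⟩
  · intro i
    rw [hQ.per]
  · intro i j hij hj h
    exact hQ.inj i j hij hj (hinj _ _ h)
  · intro i
    rw [← map_sub, ← map_sub, hT]
    rcases hQ.turn i with ⟨t, ht, h⟩ | h
    · left
      exact ⟨t, ht, by rw [h, map_smul]⟩
    · right
      exact mul_neg_of_pos_of_neg hk h
  · intro i j hij hj s t hs0 hs1 ht0 ht1 h
    apply hQ.edge i j hij hj s t hs0 hs1 ht0 ht1
    apply hinj
    simpa only [map_add, map_smul, map_sub] using h

/-- Reflection and reversal of the direction of traversal: right turns remain right turns. (In the field `edge` the parameters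
become `1 - s`, `1 - t` and the edge `i` becomes the edge `- i - 1`.) -/
theorem CC.mirror (hQ : CC Q M) : CC (fun i => (-(Q (-i)).1, (Q (-i)).2)) M := by
  refine ⟨hQ.two, ?_, ?_, ?_, ?_⟩
  · intro i
    have h : Q (-(i + M)) = Q (-i) := by
      rw [← hQ.per (-(i + M))]
      congr 1
      ring
    simp only [h]
  · intro i j hij hj h
    have h1 := Prod.ext_iff.1 h
    simp only [neg_inj] at h1
    exact hQ.inj (-j) (-i) (by linarith) (by linarith) (Prod.ext h1.1.symm h1.2.symm)
  · intro i
    have h := hQ.turn (-i)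
    rw [show -(i - 1) = -i + 1 by ring, show -(i + 1) = -i - 1 by ring]
    rcases h with ⟨t, ht, h⟩ | h
    · left
      refine ⟨t⁻¹, inv_pos.2 ht, ?_⟩
      have h1 := congrArg Prod.fst h
      have h2 := congrArg Prod.snd h
      simp only [Prod.fst_sub, Prod.snd_sub, Prod.smul_fst, Prod.smul_snd, smul_eq_mul] at h1 h2
      apply Prod.ext
      · simp only [Prod.fst_sub, Prod.smul_fst, smul_eq_mul]
        field_simp
        linarith
      · simp only [Prod.snd_sub, Prod.smul_snd, smul_eq_mul]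
        field_simp
        linarith
    · right
      simp only [cr, Prod.fst_sub, Prod.snd_sub] at h ⊢
      linarith
  · intro i j hij hj s t hs0 hs1 ht0 ht1 h
    apply hQ.edge' (i := -j - 1) (j := -i - 1) (by linarith) (by linarith) (s := 1 - t) (t := 1 - s)
      (by linarith) (by linarith) (by linarith) (by linarith)
    rw [show -j - 1 + 1 = -j by ring, show -i - 1 + 1 = -i by ring]
    simp only [show -(i + 1) = -i - 1 by ring, show -(j + 1) = -j - 1 by ring] at h
    have h1 := congrArg Prod.fst h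
    have h2 := congrArg Prod.snd h
    simp only [Prod.fst_sub, Prod.snd_sub, Prod.smul_fst, Prod.smul_snd, smul_eq_mul, Prod.fst_add,
      Prod.snd_add] at h1 h2
    apply Prod.ext
    · simp only [Prod.fst_sub, Prod.fst_add, Prod.smul_fst, smul_eq_mul]
      linarith
    · simp only [Prod.snd_sub, Prod.snd_add, Prod.smul_snd, smul_eq_mul]
      linarith

/-- Among `M` consecutive vertices there is a real corner. Proof: otherwise all vertices are straight (periodicity), so all
edges `j = 0, ..., M - 1` are positive multiples of the edge `0`, but their sum `Q M - Q 0` is zero. -/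
theorem CC.exists_strict (hQ : CC Q M) (i : ℤ) : ∃ j : ℤ, j ≤ i ∧ i < j + M ∧ StrictAt Q j := by
  by_contra hc
  push Not at hc
  have h2 := hQ.two
  obtain ⟨i0, hi0⟩ : ∃ i0 : ℤ, i = i0 + M := ⟨i - M, by ring⟩
  subst hi0
  set d : Pt := Q (i0 + 1) - Q i0 with hd
  have hd0 : d ≠ 0 := by
    intro h
    exact hQ.ne i0 (sub_eq_zero.1 h).symm
  have h1 : ∀ n : ℕ, n < M → ∃ c : ℝ, 0 < c ∧ Q (i0 + n + 1) - Q (i0 + n) = c • d := by
    intro n
    induction n with
    | zero =>
      intro _
      exact ⟨1, one_pos, by simp [hd]⟩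
    | succ n ih =>
      intro hn
      obtain ⟨c, hc0, hc1⟩ := ih (by omega)
      have hn' : ((n : ℤ) + 1) < M := by exact_mod_cast hn
      have hns := hc (i0 + n + 1) (by linarith) (by linarith)
      rcases hQ.turn (i0 + n + 1) with ⟨t, ht, h⟩ | h
      · refine ⟨t * c, mul_pos ht hc0, ?_⟩
        push_cast
        rw [show i0 + (n : ℤ) + 1 - 1 = i0 + n by ring, hc1] at h
        rw [← add_assoc, h, mul_smul]
      · exact absurd h hns
  have h3 : ∀ n : ℕ, n + 1 ≤ M → ∃ c : ℝ, 0 < c ∧ Q (i0 + n + 1) - Q i0 = c • d := by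
    intro n
    induction n with
    | zero =>
      intro _
      exact ⟨1, one_pos, by simp [hd]⟩
    | succ n ih =>
      intro hn
      obtain ⟨c, hc0, hc1⟩ := ih (by omega)
      obtain ⟨c', hc0', hc1'⟩ := h1 (n + 1) (by omega)
      refine ⟨c' + c, by linarith, ?_⟩
      push_cast at hc1' ⊢
      rw [add_smul, ← hc1, ← hc1', ← add_assoc]
      abel
  obtain ⟨c, hc0, hc1⟩ := h3 (M - 1) (by omega)
  have hcast : i0 + ((M - 1 : ℕ) : ℤ) + 1 = i0 + M := by
    have : ((M - 1 : ℕ) : ℤ) = (M : ℤ) - 1 := by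
      rw [Nat.cast_sub (by omega)]
      simp
    rw [this]
    ring
  rw [hcast, hQ.per, sub_self] at hc1
  rcases smul_eq_zero.1 hc1.symm with h | h
  · exact hc0.ne' h
  · exact hd0 h

theorem CC.strictAt_add (hQ : CC Q M) (i : ℤ) : StrictAt Q (i + M) ↔ StrictAt Q i := by
  unfold StrictAt
  rw [show i + (M : ℤ) - 1 = i - 1 + M by ring, show i + (M : ℤ) + 1 = i + 1 + M by ring, hQ.per, hQ.per,
    hQ.per]

end Pool.Agent.SO
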