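import Pool.Agent.Lib.MP_2f17d2_lc.Mg.G010

/-!
# Task Cx: the right side of a convex polygon is bounded
-/

set_option autoImplicit false

namespace Pool.Agent.SO

variable {Q : ℤ → Pt} {M : ℕ}

private theorem Cx_red (hQ : CC Q M) {P : Pt → Pt → Prop}
    (h : ∀ j : ℕ, j < M → P (Q (j : ℤ)) (Q ((j : ℤ) + 1))) (j : ℤ) : P (Q j) (Q (j + 1)) := by
  have hM0 : (0 : ℤ) < (M : ℤ) := by
    have := hQ.two
    have : 0 < M := by omega
    exact_mod_cast this
  have h1 := Int.emod_nonneg j hM0.ne'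
  have h2 := Int.emod_lt_of_pos j hM0
  obtain ⟨a, ha⟩ := Int.eq_ofNat_of_zero_le h1
  have h3 : a < M := by
    rw [ha] at h2
    exact_mod_cast h2
  have h4 : j = (a : ℤ) + (j / M) * (M : ℤ) := by
    rw [← ha, mul_comm]
    exact (Int.emod_add_mul_ediv j M).symm
  have h5 : Q j = Q (a : ℤ) := by
    have := hQ.per' (a : ℤ) (j / M)
    rw [← h4] at this
    exact this
  have h6 : Q (j + 1) = Q ((a : ℤ) + 1) := by
    have := hQ.per' ((a : ℤ) + 1) (j / M)
    rw [← this]
    congr 1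
    linarith
  rw [h5, h6]
  exact h a h3

private theorem Cx_ne (hQ : CC Q M) (i : ℤ) : 0 < (Q (i + 1) - Q i).1 ^ 2 + (Q (i + 1) - Q i).2 ^ 2 := by
  have h := hQ.ne i
  have h1 : (Q (i + 1) - Q i).1 ≠ 0 ∨ (Q (i + 1) - Q i).2 ≠ 0 := by
    by_contra hc
    push Not at hc
    apply h
    have : Q (i + 1) - Q i = 0 := Prod.ext hc.1 hc.2
    exact (sub_eq_zero.mp this).symm
  rcases h1 with h1 | h1
  · positivity
  · positivity

/-- Two vectors which are parallel to a third one. -/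
private theorem Cx_par {e a b : Pt} (he : 0 < e.1 ^ 2 + e.2 ^ 2) (h1 : cr e a = 0) (h2 : cr e b = 0) : cr a b = 0 := by
  unfold cr at *
  have h : (e.1 ^ 2 + e.2 ^ 2) * (a.1 * b.2 - a.2 * b.1) = 0 := by
    linear_combination (-(e.1 * b.1) - e.2 * b.2) * h1 + (e.1 * a.1 + e.2 * a.2) * h2
  rcases mul_eq_zero.mp h with h | h
  · exact absurd h he.ne'
  · exact h

private theorem Cx_mul {e f : Pt} (he : 0 < e.1 ^ 2 + e.2 ^ 2) (h1 : cr e f = 0) : ∃ k : ℝ, f = k • e := by
  refine ⟨(e.1 * f.1 + e.2 * f.2) / (e.1 ^ 2 + e.2 ^ 2), ?_⟩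
  unfold cr at h1
  apply Prod.ext
  · simp only [Prod.smul_fst, smul_eq_mul]
    field_simp
    linear_combination (-e.2) * h1
  · simp only [Prod.smul_snd, smul_eq_mul]
    field_simp
    linear_combination e.1 * h1

private theorem Cx_cases (hQ : CC Q M) (i : ℤ) {s : ℝ} (h0 : 0 < s) (h1 : s < 1) (j : ℤ) :
    cr (Q (j + 1) - Q j) (Q i + s • (Q (i + 1) - Q i) - Q j) < 0 ∨
    (cr (Q (j + 1) - Q j) (Q i + s • (Q (i + 1) - Q i) - Q j) = 0 ∧
      cr (Q (j + 1) - Q j) (nrm false (Q (i + 1) - Q i)) < 0) := by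
  have e1 : cr (Q (j + 1) - Q j) (Q i + s • (Q (i + 1) - Q i) - Q j) =
      (1 - s) * cr (Q (j + 1) - Q j) (Q i - Q j) + s * cr (Q (j + 1) - Q j) (Q (i + 1) - Q j) := by
    unfold cr
    simp only [Prod.fst_sub, Prod.snd_sub, Prod.fst_add, Prod.snd_add, Prod.smul_fst, Prod.smul_snd, smul_eq_mul]
    ring
  have l1 := hQ.left j i
  have l2 := hQ.left j (i + 1)
  have p1 : 0 ≤ (1 - s) * (-cr (Q (j + 1) - Q j) (Q i - Q j)) := mul_nonneg (by linarith) (by linarith)
  have p2 : 0 ≤ s * (-cr (Q (j + 1) - Q j) (Q (i + 1) - Q j)) := mul_nonneg h0.le (by linarith)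
  have l3 : cr (Q (j + 1) - Q j) (Q i + s • (Q (i + 1) - Q i) - Q j) ≤ 0 := by
    rw [e1]
    linarith
  rcases lt_or_eq_of_le l3 with h | h
  · left
    exact h
  · right
    refine ⟨h, ?_⟩
    rw [e1] at h
    have z1 : cr (Q (j + 1) - Q j) (Q i - Q j) = 0 := by
      have : (1 - s) * (-cr (Q (j + 1) - Q j) (Q i - Q j)) = 0 := by linarith
      rcases mul_eq_zero.mp this with h' | h'
      · linarith
      · linarith
    have z2 : cr (Q (j + 1) - Q j) (Q (i + 1) - Q j) = 0 := by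
      have : s * (-cr (Q (j + 1) - Q j) (Q (i + 1) - Q j)) = 0 := by linarith
      rcases mul_eq_zero.mp this with h' | h'
      · linarith
      · linarith
    have z3 : cr (Q (i + 1) - Q i) (Q (j + 1) - Q j) = 0 := by
      unfold cr at *
      simp only [Prod.fst_sub, Prod.snd_sub] at *
      linear_combination z1 - z2
    obtain ⟨k, hk⟩ := Cx_mul (Cx_ne hQ i) z3
    have hE := Cx_ne hQ i
    have hEj := Cx_ne hQ j
    have key : cr (Q (j + 1) - Q j) (nrm false (Q (i + 1) - Q i)) =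
        -(k * ((Q (i + 1) - Q i).1 ^ 2 + (Q (i + 1) - Q i).2 ^ 2)) := by
      rw [hk]
      unfold cr nrm
      simp only [Prod.smul_fst, Prod.smul_snd, smul_eq_mul, Bool.false_eq_true, if_false]
      ring
    rw [key]
    rcases lt_trichotomy k 0 with hk0 | hk0 | hk0
    · exfalso
      -- all vertices are on one line
      have hline : ∀ l, cr (Q (i + 1) - Q i) (Q l - Q i) = 0 := by
        intro l
        have g1 := hQ.left i l
        have g2 := hQ.left j l
        have g3 : cr (Q (j + 1) - Q j) (Q l - Q j) = k * cr (Q (i + 1) - Q i) (Q l - Q j) := by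
          rw [hk]
          unfold cr
          simp only [Prod.smul_fst, Prod.smul_snd, smul_eq_mul]
          ring
        have g4 : cr (Q (j + 1) - Q j) (Q i - Q j) = k * cr (Q (i + 1) - Q i) (Q i - Q j) := by
          rw [hk]
          unfold cr
          simp only [Prod.smul_fst, Prod.smul_snd, smul_eq_mul]
          ring
        have g5 : cr (Q (i + 1) - Q i) (Q i - Q j) = 0 := by
          rw [z1] at g4
          rcases mul_eq_zero.mp g4.symm with h' | h'
          · exact absurd h' hk0.ne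
          · exact h'
        have g6 : cr (Q (i + 1) - Q i) (Q l - Q i) =
            cr (Q (i + 1) - Q i) (Q l - Q j) - cr (Q (i + 1) - Q i) (Q i - Q j) := by
          unfold cr
          simp only [Prod.fst_sub, Prod.snd_sub]
          ring
        have g7 : 0 ≤ cr (Q (i + 1) - Q i) (Q l - Q j) := by
          by_contra hc
          push Not at hc
          have := mul_pos_of_neg_of_neg hk0 hc
          linarith
        have g8 : 0 ≤ cr (Q (i + 1) - Q i) (Q l - Q i) := by
          rw [g6, g5]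
          linarith
        exact le_antisymm g1 g8
      obtain ⟨r, -, -, hr⟩ := hQ.exists_strict i
      unfold StrictAt at hr
      have c1 : cr (Q (i + 1) - Q i) (Q r - Q (r - 1)) = 0 := by
        have a1 := hline r
        have a2 := hline (r - 1)
        unfold cr at *
        simp only [Prod.fst_sub, Prod.snd_sub] at *
        linear_combination a1 - a2
      have c2 : cr (Q (i + 1) - Q i) (Q (r + 1) - Q r) = 0 := by
        have a1 := hline r
        have a2 := hline (r + 1)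
        unfold cr at *
        simp only [Prod.fst_sub, Prod.snd_sub] at *
        linear_combination a2 - a1
      have c3 := Cx_par hE c1 c2
      linarith
    · exfalso
      rw [hk0, zero_smul] at hk
      rw [hk] at hEj
      simp at hEj
    · have := mul_pos hk0 hE
      linarith

/-- Points slightly to the right of an edge are to the right of all edges.

Proof. Let `E j = Q (j + 1) - Q j`, `z₀ = Q i + s • E i`, `ν` the right normal, `cr (E i) ν = -((E i).1 ^ 2 + (E i).2 ^ 2) < 0`. For every `j`, `cr (E j) (z₀ - Q j) ≤ 0`, as `z₀` is a convex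
combination of `Q i` and `Q (i + 1)` (`CC.left`). If it is `< 0`, the point `z₀ + t • ν` satisfies the inequality for small `t`. If it is `0` then
`cr (E j) (Q i - Q j) = 0` and `cr (E j) (Q (i + 1) - Q j) = 0` (both are `≤ 0`, `0 < s < 1`), so `cr (E j) (E i) = 0`, `E j = k • E i`, `k ≠ 0`. If `k > 0` then
`cr (E j) (z₀ + t • ν - Q j) = t * k * cr (E i) ν < 0`. If `k < 0`: for all `l`, `cr (E i) (Q l - Q i) ≤ 0` and `cr (E j) (Q l - Q j) ≤ 0`, i.e. `k * cr (E i) (Q l - Q i) ≤ 0` (the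
points `Q i`, `Q j` are on one line in direction `E i`), so all vertices are on one line, which contradicts `CC.exists_strict`. By periodicity
finitely many `j` suffice. -/
theorem CC.inside_near (hQ : CC Q M) (i : ℤ) {s : ℝ} (h0 : 0 < s) (h1 : s < 1) :
    ∃ ε : ℝ, 0 < ε ∧ ∀ t, 0 < t → t < ε → ∀ j, cr (Q (j + 1) - Q j)
      (Q i + s • (Q (i + 1) - Q i) + t • nrm false (Q (i + 1) - Q i) - Q j) < 0 := by
  have main : ∀ j : ℤ, ∃ ε : ℝ, 0 < ε ∧ ∀ t, 0 < t → t < ε → cr (Q (j + 1) - Q j)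
      (Q i + s • (Q (i + 1) - Q i) + t • nrm false (Q (i + 1) - Q i) - Q j) < 0 := by
    intro j
    have e : ∀ t : ℝ, cr (Q (j + 1) - Q j)
        (Q i + s • (Q (i + 1) - Q i) + t • nrm false (Q (i + 1) - Q i) - Q j) =
        cr (Q (j + 1) - Q j) (Q i + s • (Q (i + 1) - Q i) - Q j) +
          t * cr (Q (j + 1) - Q j) (nrm false (Q (i + 1) - Q i)) := by
      intro t
      unfold cr
      simp only [Prod.fst_sub, Prod.snd_sub, Prod.fst_add, Prod.snd_add, Prod.smul_fst, Prod.smul_snd, smul_eq_mul]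
      ring
    rcases Cx_cases hQ i h0 h1 j with h | ⟨h, h'⟩
    · generalize cr (Q (j + 1) - Q j) (Q i + s • (Q (i + 1) - Q i) - Q j) = a at *
      generalize cr (Q (j + 1) - Q j) (nrm false (Q (i + 1) - Q i)) = b at *
      have hb : 0 < |b| + 1 := by positivity
      refine ⟨-a / (|b| + 1), by apply div_pos <;> linarith, ?_⟩
      intro t ht0 ht1
      rw [e]
      rw [lt_div_iff₀ hb] at ht1
      have : t * b ≤ t * |b| := mul_le_mul_of_nonneg_left (le_abs_self b) ht0.le
      nlinarith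
    · refine ⟨1, one_pos, ?_⟩
      intro t ht0 ht1
      rw [e, h]
      have := mul_neg_of_pos_of_neg ht0 h'
      linarith
  choose ε hε0 hε using main
  have hne : (Finset.range M).Nonempty := by
    rw [Finset.nonempty_range_iff]
    have := hQ.two
    omega
  refine ⟨(Finset.range M).inf' hne (fun j => ε (j : ℤ)), ?_, ?_⟩
  · rw [Finset.lt_inf'_iff]
    intro j _
    exact hε0 _
  · intro t ht0 ht1
    rw [Finset.lt_inf'_iff] at ht1
    apply Cx_red hQ (P := fun a b => cr (b - a)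
      (Q i + s • (Q (i + 1) - Q i) + t • nrm false (Q (i + 1) - Q i) - a) < 0)
    intro j hj
    exact hε _ t ht0 (ht1 j (Finset.mem_range.mpr hj))

/-- The induction step forwards. -/
private theorem Cx_step (hQ : CC Q M) {z : Pt} (h : ∀ j, cr (Q (j + 1) - Q j) (z - Q j) ≤ 0) {l : ℤ} {y : ℝ}
    (hy : 1 < y) (hz : z = Q l + y • (Q (l + 1) - Q l)) :
    ¬ StrictAt Q (l + 1) ∧ ∃ y' : ℝ, 0 ≤ y' ∧ z = Q (l + 1) + y' • (Q (l + 1 + 1) - Q (l + 1)) := by
  have hns : ¬ StrictAt Q (l + 1) := by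
    intro hs
    unfold StrictAt at hs
    rw [add_sub_cancel_right] at hs
    have h2 := h (l + 1)
    have e : cr (Q (l + 1 + 1) - Q (l + 1)) (z - Q (l + 1)) =
        -((y - 1) * cr (Q (l + 1) - Q l) (Q (l + 1 + 1) - Q (l + 1))) := by
      rw [hz]
      unfold cr
      simp only [Prod.fst_sub, Prod.snd_sub, Prod.fst_add, Prod.snd_add, Prod.smul_fst, Prod.smul_snd, smul_eq_mul]
      ring
    have := mul_neg_of_pos_of_neg (show 0 < y - 1 by linarith) hs
    linarith
  refine ⟨hns, ?_⟩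
  have ht := hQ.turn (l + 1)
  rw [add_sub_cancel_right] at ht
  rcases ht with ⟨k, hk0, hk⟩ | ht
  · refine ⟨(y - 1) / k, div_nonneg (by linarith) hk0.le, ?_⟩
    rw [hk, smul_smul, div_mul_cancel₀ _ hk0.ne', hz]
    apply Prod.ext
    · simp only [Prod.fst_sub, Prod.fst_add, Prod.smul_fst, smul_eq_mul]
      ring
    · simp only [Prod.snd_sub, Prod.snd_add, Prod.smul_snd, smul_eq_mul]
      ring
  · exact absurd (show StrictAt Q (l + 1) by unfold StrictAt; rw [add_sub_cancel_right]; exact ht) hns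

/-- The induction step backwards. -/
private theorem Cx_stepb (hQ : CC Q M) {z : Pt} (h : ∀ j, cr (Q (j + 1) - Q j) (z - Q j) ≤ 0) {l : ℤ} {y : ℝ}
    (hy : y < 0) (hz : z = Q l + y • (Q (l + 1) - Q l)) :
    ¬ StrictAt Q l ∧ ∃ y' : ℝ, y' ≤ 1 ∧ z = Q (l - 1) + y' • (Q (l - 1 + 1) - Q (l - 1)) := by
  have hns : ¬ StrictAt Q l := by
    intro hs
    unfold StrictAt at hs
    have h2 := h (l - 1)
    rw [sub_add_cancel] at h2
    have e : cr (Q l - Q (l - 1)) (z - Q (l - 1)) = y * cr (Q l - Q (l - 1)) (Q (l + 1) - Q l) := by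
      rw [hz]
      unfold cr
      simp only [Prod.fst_sub, Prod.snd_sub, Prod.fst_add, Prod.snd_add, Prod.smul_fst, Prod.smul_snd, smul_eq_mul]
      ring
    have := mul_pos_of_neg_of_neg hy hs
    linarith
  refine ⟨hns, ?_⟩
  rcases hQ.turn l with ⟨k, hk0, hk⟩ | ht
  · refine ⟨1 + y * k, by nlinarith [mul_neg_of_neg_of_pos hy hk0], ?_⟩
    rw [sub_add_cancel, hz, hk]
    apply Prod.ext
    · simp only [Prod.fst_sub, Prod.fst_add, Prod.smul_fst, smul_eq_mul]
      ring
    · simp only [Prod.snd_sub, Prod.snd_add, Prod.smul_snd, smul_eq_mul]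
      ring
  · exact absurd ht hns

/-- A point which is not to the left of any edge and on the line of the edge `i` lies on the polygon.

Proof. Let `z = Q i + x • E i`. If `0 ≤ x ≤ 1` take the edge `i`. Let `x > 1` (the case `x < 0` is symmetric: go back to the corner `r ≤ i`). Let `r > i` be the first real
corner after `i` (`CC.exists_strict`, periodicity): the edges `i, ..., r - 1` are positive multiples of `E i`, and `z = Q r + y • E (r - 1)` for some real `y`.
From `cr (E r) (z - Q r) ≤ 0` and `cr (E (r - 1)) (E r) < 0`: `y * cr (E r) (E (r - 1)) ≤ 0`, so `y ≤ 0`. So `z` is on the segment from `Q i` to `Q r`, and this is the union of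
the edges `i, ..., r - 1` (induction). -/
theorem CC.on_curve (hQ : CC Q M) {z : Pt} (h : ∀ j, cr (Q (j + 1) - Q j) (z - Q j) ≤ 0) {i : ℤ}
    (hi : cr (Q (i + 1) - Q i) (z - Q i) = 0) :
    ∃ j : ℤ, ∃ t : ℝ, 0 ≤ t ∧ t ≤ 1 ∧ z = Q j + t • (Q (j + 1) - Q j) := by
  by_contra hno
  push Not at hno
  obtain ⟨x, hx⟩ := Cx_mul (Cx_ne hQ i) hi
  have hz : z = Q i + x • (Q (i + 1) - Q i) := by
    rw [← hx]
    abel
  rcases lt_or_ge x 0 with h0 | h0
  · -- backwards
    have ind : ∀ m : ℕ, ∃ y : ℝ, y < 0 ∧ z = Q (i - m) + y • (Q (i - m + 1) - Q (i - m)) := by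
      intro m
      induction m with
      | zero =>
        refine ⟨x, h0, ?_⟩
        simpa using hz
      | succ m ih =>
        obtain ⟨y, hy, hzy⟩ := ih
        obtain ⟨-, y', hy', hz'⟩ := Cx_stepb hQ h hy hzy
        have e : i - ((m + 1 : ℕ) : ℤ) = i - m - 1 := by
          push_cast
          ring
        rw [e]
        refine ⟨y', ?_, hz'⟩
        by_contra hc
        push Not at hc
        exact hno _ _ hc hy' hz'
    obtain ⟨r, hr1, hr2, hr3⟩ := hQ.exists_strict i
    obtain ⟨m, hm⟩ := Int.eq_ofNat_of_zero_le (show 0 ≤ i - r by linarith)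
    obtain ⟨y, hy, hzy⟩ := ind m
    obtain ⟨hns, -⟩ := Cx_stepb hQ h hy hzy
    apply hns
    have e : i - (m : ℤ) = r := by linarith
    rw [e]
    exact hr3
  · rcases le_or_gt x 1 with h1 | h1
    · exact hno i x h0 h1 hz
    · have ind : ∀ m : ℕ, ∃ y : ℝ, 1 < y ∧ z = Q (i + m) + y • (Q (i + m + 1) - Q (i + m)) := by
        intro m
        induction m with
        | zero =>
          refine ⟨x, h1, ?_⟩
          simpa using hz
        | succ m ih =>
          obtain ⟨y, hy, hzy⟩ := ih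
          obtain ⟨-, y', hy', hz'⟩ := Cx_step hQ h hy hzy
          have e : i + ((m + 1 : ℕ) : ℤ) = i + m + 1 := by
            push_cast
            ring
          rw [e]
          refine ⟨y', ?_, hz'⟩
          by_contra hc
          push Not at hc
          exact hno _ _ hy' hc hz'
      obtain ⟨r, hr1, hr2, hr3⟩ := hQ.exists_strict (i + M)
      obtain ⟨m, hm⟩ := Int.eq_ofNat_of_zero_le (show 0 ≤ r - i - 1 by omega)
      obtain ⟨y, hy, hzy⟩ := ind m
      obtain ⟨hns, -⟩ := Cx_step hQ h hy hzy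
      apply hns
      have e : i + (m : ℤ) + 1 = r := by linarith
      rw [e]
      exact hr3

/-- The inside is bounded. Proof: the sum of `cr (E j) (z - Q j)` over a period is a constant `-K` (because the sum of `E j` is zero), all terms are `≤ 0`, so each is
`≥ -K`. At a real corner `r` the vectors `u = E (r - 1)`, `v = E r` are not parallel and `-K ≤ cr u (z - Q (r - 1)) ≤ 0`, `-K ≤ cr v (z - Q r) ≤ 0`, and the coordinates of `z` are
combinations of `cr u z` and `cr v z` with fixed coefficients. -/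
theorem CC.bounded (hQ : CC Q M) : ∃ R : ℝ, ∀ z : Pt, (∀ j, cr (Q (j + 1) - Q j) (z - Q j) ≤ 0) → ‖z‖ ≤ R := by
  obtain ⟨r, -, -, hr⟩ := hQ.exists_strict 0
  unfold StrictAt at hr
  -- the constant sum over a period which starts at `r - 1`
  obtain ⟨K, hK⟩ : ∃ K : ℝ, K = ∑ m ∈ Finset.range M, cr (Q (r - 1 + (m : ℤ) + 1) - Q (r - 1 + (m : ℤ))) (Q (r - 1 + (m : ℤ))) := ⟨_, rfl⟩
  have hsum : ∀ z : Pt, ∑ m ∈ Finset.range M, cr (Q (r - 1 + (m : ℤ) + 1) - Q (r - 1 + (m : ℤ))) (z - Q (r - 1 + (m : ℤ))) = -K := by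
    intro z
    have e1 : ∀ m : ℕ, cr (Q (r - 1 + (m : ℤ) + 1) - Q (r - 1 + (m : ℤ))) (z - Q (r - 1 + (m : ℤ))) =
        (cr (Q (r - 1 + ((m + 1 : ℕ) : ℤ))) z - cr (Q (r - 1 + (m : ℤ))) z) -
          cr (Q (r - 1 + (m : ℤ) + 1) - Q (r - 1 + (m : ℤ))) (Q (r - 1 + (m : ℤ))) := by
      intro m
      have e2 : r - 1 + ((m + 1 : ℕ) : ℤ) = r - 1 + (m : ℤ) + 1 := by
        push_cast
        ring
      rw [e2]
      unfold cr
      simp only [Prod.fst_sub, Prod.snd_sub]
      ring
    rw [Finset.sum_congr rfl (fun m _ => e1 m), Finset.sum_sub_distrib, ← hK,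
      Finset.sum_range_sub (fun m : ℕ => cr (Q (r - 1 + (m : ℤ))) z)]
    have e3 : Q (r - 1 + (M : ℤ)) = Q (r - 1) := hQ.per (r - 1)
    simp only [Nat.cast_zero, add_zero, e3, sub_self, zero_sub]
  set u : Pt := Q r - Q (r - 1) with hu
  set v : Pt := Q (r + 1) - Q r with hv
  set A : ℝ := K + |cr u (Q (r - 1))| with hA
  set B : ℝ := K + |cr v (Q r)| with hB
  refine ⟨(B * ‖u‖ + A * ‖v‖) / (-cr u v), ?_⟩
  intro z hz
  have hterm : ∀ m : ℕ, m < M →
      -K ≤ cr (Q (r - 1 + (m : ℤ) + 1) - Q (r - 1 + (m : ℤ))) (z - Q (r - 1 + (m : ℤ))) := by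
    intro m hm
    rw [← hsum z]
    have h1 := Finset.sum_erase_add (Finset.range M)
      (fun m : ℕ => cr (Q (r - 1 + (m : ℤ) + 1) - Q (r - 1 + (m : ℤ))) (z - Q (r - 1 + (m : ℤ)))) (Finset.mem_range.mpr hm)
    have h2 : ∑ m ∈ (Finset.range M).erase m,
        cr (Q (r - 1 + (m : ℤ) + 1) - Q (r - 1 + (m : ℤ))) (z - Q (r - 1 + (m : ℤ))) ≤ 0 :=
      Finset.sum_nonpos (fun m _ => hz _)
    linarith
  have hM := hQ.two
  have t0 := hterm 0 (by omega)
  have t1 := hterm 1 (by omega)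
  have z0 := hz (r - 1)
  have z1 := hz r
  simp only [Nat.cast_zero, add_zero, Nat.cast_one, sub_add_cancel] at t0 t1 z0
  rw [← hu] at t0 z0
  rw [← hv] at t1 z1
  have ex : ∀ a b c : Pt, cr a (b - c) = cr a b - cr a c := by
    intro a b c
    unfold cr
    simp only [Prod.fst_sub, Prod.snd_sub]
    ring
  rw [ex] at t0 t1 z0 z1
  have a0 := abs_le.mp (le_refl |cr u (Q (r - 1))|)
  have a1 := abs_le.mp (le_refl |cr v (Q r)|)
  have bu : |cr u z| ≤ A := by
    rw [abs_le]
    have K0 : 0 ≤ K := by linarith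
    constructor <;> linarith [a0.1, a0.2]
  have bv : |cr v z| ≤ B := by
    rw [abs_le]
    have K0 : 0 ≤ K := by linarith
    constructor <;> linarith [a1.1, a1.2]
  have hD : 0 < -cr u v := by linarith
  rw [le_div_iff₀ hD]
  have i1 : z.1 * (-cr u v) = cr v z * u.1 - cr u z * v.1 := by
    unfold cr
    ring
  have i2 : z.2 * (-cr u v) = cr v z * u.2 - cr u z * v.2 := by
    unfold cr
    ring
  have u1 : |u.1| ≤ ‖u‖ := by
    rw [Prod.norm_def]
    exact le_max_left _ _
  have u2 : |u.2| ≤ ‖u‖ := by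
    rw [Prod.norm_def]
    exact le_max_right _ _
  have v1 : |v.1| ≤ ‖v‖ := by
    rw [Prod.norm_def]
    exact le_max_left _ _
  have v2 : |v.2| ≤ ‖v‖ := by
    rw [Prod.norm_def]
    exact le_max_right _ _
  have A0 : 0 ≤ A := le_trans (abs_nonneg _) bu
  have B0 : 0 ≤ B := le_trans (abs_nonneg _) bv
  have c1 : |z.1| * (-cr u v) ≤ B * ‖u‖ + A * ‖v‖ := by
    have : |z.1| * (-cr u v) = |z.1 * (-cr u v)| := by
      rw [abs_mul, abs_of_pos hD]
    rw [this, i1]
    refine le_trans (abs_sub _ _) ?_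
    rw [abs_mul, abs_mul]
    exact add_le_add (mul_le_mul bv u1 (abs_nonneg _) B0) (mul_le_mul bu v1 (abs_nonneg _) A0)
  have c2 : |z.2| * (-cr u v) ≤ B * ‖u‖ + A * ‖v‖ := by
    have : |z.2| * (-cr u v) = |z.2 * (-cr u v)| := by
      rw [abs_mul, abs_of_pos hD]
    rw [this, i2]
    refine le_trans (abs_sub _ _) ?_
    rw [abs_mul, abs_mul]
    exact add_le_add (mul_le_mul bv u2 (abs_nonneg _) B0) (mul_le_mul bu v2 (abs_nonneg _) A0)
  rw [Prod.norm_def]
  rcases max_choice ‖z.1‖ ‖z.2‖ with hm | hm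
  · rw [hm]
    exact c1
  · rw [hm]
    exact c2

/-- Proof. Otherwise take `z'` with `‖z'‖ > R`, `R` from `CC.bounded`, and a path `γ` from `z` to `z'` in the complement. Let `φ x = max` over `j` in a period of
`cr (E j) (γ x - Q j)` (a continuous function, `Finset.sup'`); `φ 0 < 0`, `φ 1 > 0` (otherwise `‖z'‖ ≤ R`). So `φ x = 0` for some `x`; then `CC.on_curve` says that
`γ x` lies on the polygon. -/
theorem CC.not_outside (hQ : CC Q M) {C : Set Pt}
    (hC : ∀ j : ℤ, ∀ t : ℝ, 0 ≤ t → t ≤ 1 → Q j + t • (Q (j + 1) - Q j) ∈ C) {z : Pt}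
    (hz : ∀ j, cr (Q (j + 1) - Q j) (z - Q j) < 0) : ¬ ∀ R : ℝ, ∃ z' : Pt, R < ‖z'‖ ∧ JoinedIn Cᶜ z z' := by
  intro hall
  obtain ⟨R, hR⟩ := hQ.bounded
  obtain ⟨z', hz', γ, hγ⟩ := hall R
  have hne : (Finset.range M).Nonempty := by
    rw [Finset.nonempty_range_iff]
    have := hQ.two
    omega
  have hcr : ∀ (a b : Pt), Continuous (fun w : Pt => cr a (w - b)) := by
    intro a b
    unfold cr
    fun_prop
  obtain ⟨φ, hφ⟩ : ∃ φ : unitInterval → ℝ, φ = fun x => (Finset.range M).sup' hne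
      (fun j : ℕ => cr (Q ((j : ℤ) + 1) - Q (j : ℤ)) (γ x - Q (j : ℤ))) := ⟨_, rfl⟩
  have hcont : Continuous φ := by
    rw [hφ]
    apply Continuous.finset_sup'_apply
    intro j _
    exact (hcr _ _).comp γ.continuous
  have h0 : φ 0 < 0 := by
    rw [hφ]
    simp only
    rw [Finset.sup'_lt_iff]
    intro j _
    rw [γ.source]
    exact hz _
  have h1 : 0 < φ 1 := by
    by_contra hc
    push Not at hc
    rw [hφ] at hc
    simp only at hc
    rw [Finset.sup'_le_iff, γ.target] at hc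
    have : ∀ j : ℤ, cr (Q (j + 1) - Q j) (z' - Q j) ≤ 0 := by
      apply Cx_red hQ (P := fun a b => cr (b - a) (z' - a) ≤ 0)
      intro j hj
      exact hc j (Finset.mem_range.mpr hj)
    have := hR z' this
    linarith
  obtain ⟨x, hx⟩ := intermediate_value_univ (0 : unitInterval) 1 hcont ⟨h0.le, h1.le⟩
  rw [hφ] at hx
  simp only at hx
  have hle : ∀ j : ℤ, cr (Q (j + 1) - Q j) (γ x - Q j) ≤ 0 := by
    apply Cx_red hQ (P := fun a b => cr (b - a) (γ x - a) ≤ 0)
    have := hx.le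
    rw [Finset.sup'_le_iff] at this
    intro j hj
    exact this j (Finset.mem_range.mpr hj)
  obtain ⟨j, hj, hj'⟩ := Finset.exists_mem_eq_sup' hne
    (fun j : ℕ => cr (Q ((j : ℤ) + 1) - Q (j : ℤ)) (γ x - Q (j : ℤ)))
  rw [hx] at hj'
  obtain ⟨l, t, ht0, ht1, hl⟩ := hQ.on_curve hle hj'.symm
  apply hγ x
  rw [hl]
  exact hC l t ht0 ht1

end Pool.Agent.SO
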