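import Pool.Agent.Lib.MP_2f17d2_lc.SO.Fx
import Pool.Agent.Lib.MP_2f17d2_lc.SO.Wd

/-!
# Task Fy: neighbouring vertices of a strand
-/

set_option autoImplicit false

namespace Pool.Agent.SO

variable {S : Fam}

/-- `p` and `q` are neighbours in the list `xs i τ`. -/
def Fam.Adj (S : Fam) (i : ℕ) (τ : Bool) (p q : ℝ × Option (ℕ × Bool)) : Prop :=
  (p, q) ∈ (S.xs i τ).zip (S.xs i τ).tail

private theorem Fy_split {α : Type*} : ∀ (l : List α) (p q : α), (p, q) ∈ l.zip l.tail →
    ∃ l₁ l₂, l = l₁ ++ p :: q :: l₂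
  | [], _, _, h => by simp at h
  | [_], _, _, h => by simp at h
  | x :: y :: l, p, q, h => by
    rw [List.tail_cons, List.zip_cons_cons, List.mem_cons] at h
    rcases h with h | h
    · obtain ⟨rfl, rfl⟩ := Prod.mk.inj h
      exact ⟨[], l, rfl⟩
    · obtain ⟨l₁, l₂, h'⟩ := Fy_split (y :: l) p q (by simpa using h)
      exact ⟨x :: l₁, l₂, by rw [h']; rfl⟩

private theorem Fy_join {α : Type*} : ∀ (l₁ l₂ : List α) (p q : α),
    (p, q) ∈ (l₁ ++ p :: q :: l₂).zip (l₁ ++ p :: q :: l₂).tail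
  | [], l₂, p, q => by simp
  | [x], l₂, p, q => by simp
  | x :: y :: l₁, l₂, p, q => by
    have h := Fy_join (y :: l₁) l₂ p q
    simp only [List.cons_append, List.tail_cons] at h ⊢
    rw [List.zip_cons_cons]
    exact List.mem_cons_of_mem _ h

theorem Fam.Ok.uniq (h : S.Ok) {i : ℕ} (hi : i < S.n) {τ : Bool} {p q : ℝ × Option (ℕ × Bool)}
    (hp : p ∈ S.xs i τ) (hq : q ∈ S.xs i τ) (hpq : p.1 = q.1) : p = q := by
  by_contra hne
  have h1 : (S.xs i τ).Pairwise fun p q => p.1 ≠ q.1 := (h.sorted hi τ).imp fun h => ne_of_lt h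
  have : Std.Symm (fun p q : ℝ × Option (ℕ × Bool) => p.1 ≠ q.1) := ⟨fun _ _ h => Ne.symm h⟩
  exact h1.forall hp hq hne hpq

/-- Proof: write `xs i τ = l₁ ++ p :: q :: l₂`; `sorted`. -/
theorem Fam.Ok.adj (h : S.Ok) {i : ℕ} (hi : i < S.n) {τ : Bool} {p q : ℝ × Option (ℕ × Bool)}
    (hpq : S.Adj i τ p q) : p ∈ S.xs i τ ∧ q ∈ S.xs i τ ∧ p.1 < q.1 ∧ -2 ≤ p.1 ∧ q.1 ≤ 2 ∧
      ∀ r ∈ S.xs i τ, ¬ (p.1 < r.1 ∧ r.1 < q.1) := by
  obtain ⟨l₁, l₂, hl⟩ := Fy_split _ _ _ hpq
  have hs := h.sorted hi τ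
  have hp : p ∈ S.xs i τ := by rw [hl]; simp
  have hq : q ∈ S.xs i τ := by rw [hl]; simp
  rw [hl, List.pairwise_append] at hs
  obtain ⟨-, h2, h3⟩ := hs
  rw [List.pairwise_cons, List.pairwise_cons] at h2
  obtain ⟨h4, h5, -⟩ := h2
  refine ⟨hp, hq, h4 q (by simp), (h.xs_bd hi τ hp).1, (h.xs_bd hi τ hq).2, ?_⟩
  intro r hr hr'
  rw [hl, List.mem_append, List.mem_cons, List.mem_cons] at hr
  rcases hr with hr | rfl | rfl | hr
  · exact absurd (h3 r hr p (by simp)) (not_lt.2 hr'.1.le)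
  · exact lt_irrefl _ hr'.1
  · exact lt_irrefl _ hr'.2
  · exact absurd (h5 r hr) (not_lt.2 hr'.2.le)

/-- Proof: `affine`; there is no `-1`, `1` or element of `G e` strictly between (`mem_xs_none`). -/
theorem Fam.Ok.adj_affine (h : S.Ok) {i : ℕ} (hi : i < S.n) {τ : Bool} {p q : ℝ × Option (ℕ × Bool)}
    (hpq : S.Adj i τ p q) : ∃ m c : ℝ, ∀ z, p.1 ≤ z → z ≤ q.1 → S.F i τ z = m * z + c := by
  obtain ⟨-, -, h1, h2, h3, h4⟩ := h.adj hi hpq
  obtain ⟨-, m1, m2, -, m3⟩ := S.mem_xs_none i τ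
  exact h.affine i hi τ p.1 q.1 h2 h1 h3 (h4 _ m1) (h4 _ m2)
    (fun e he g hg => h4 _ (m3 e he g hg))

/-- At a marked vertex the strand is straight. Proof: `affine` on `[p.1, r.1]`: an element `-1`, `1` or `g ∈ G e` strictly between `p.1` and `r.1` must be `q.1`, and then
`q = (.., none)` by `uniq`. -/
theorem Fam.Ok.adj_affine_marked (h : S.Ok) {i : ℕ} (hi : i < S.n) {τ : Bool}
    {p q r : ℝ × Option (ℕ × Bool)} (hpq : S.Adj i τ p q) (hqr : S.Adj i τ q r) (hq : q.2 ≠ none) :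
    ∃ m c : ℝ, ∀ z, p.1 ≤ z → z ≤ r.1 → S.F i τ z = m * z + c := by
  obtain ⟨-, hq1, h1, h2, -, h4⟩ := h.adj hi hpq
  obtain ⟨-, -, k1, -, k3, k4⟩ := h.adj hi hqr
  obtain ⟨-, m1, m2, -, m3⟩ := S.mem_xs_none i τ
  have key : ∀ g : ℝ, (g, none) ∈ S.xs i τ → ¬ (p.1 < g ∧ g < r.1) := by
    intro g hg hg'
    rcases lt_trichotomy g q.1 with hlt | heq | hgt
    · exact h4 _ hg ⟨hg'.1, hlt⟩
    · have := h.uniq hi hg hq1 heq
      exact hq (by rw [← this])
    · exact k4 _ hg ⟨hgt, hg'.2⟩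
  exact h.affine i hi τ p.1 r.1 h2 (h1.trans k1) k3 (key _ m1) (key _ m2)
    (fun e he g hg => key _ (m3 e he g hg))

/-- A marked vertex has two neighbours (it is neither the first nor the last one). -/
theorem Fam.Ok.exists_adj (h : S.Ok) {i : ℕ} (hi : i < S.n) {τ : Bool} {q : ℝ × Option (ℕ × Bool)}
    (hq : q ∈ S.xs i τ) (hq' : q.2 ≠ none) : ∃ p r, S.Adj i τ p q ∧ S.Adj i τ q r := by
  obtain ⟨l₁, l₂, hl⟩ := List.append_of_mem hq
  have hh := S.xs_head i τ
  have hlast := S.xs_last i τ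
  rcases List.eq_nil_or_concat l₁ with rfl | ⟨l₁', p, rfl⟩
  · exfalso
    rw [hl] at hh
    simp only [List.nil_append, List.head?_cons, Option.some.injEq] at hh
    exact hq' (by rw [hh])
  rcases l₂ with _ | ⟨r, l₂'⟩
  · exfalso
    rw [hl, List.getLast?_append_cons, List.getLast?_singleton, Option.some.injEq] at hlast
    exact hq' (by rw [hlast])
  refine ⟨p, r, ?_, ?_⟩
  · have h1 := Fy_join l₁' (r :: l₂') p q
    unfold Fam.Adj
    rw [hl]
    simpa using h1
  · have h1 := Fy_join (l₁' ++ [p]) l₂' q r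
    unfold Fam.Adj
    rw [hl]
    simpa using h1

/-- Two strands which meet over a point `x` of `[-2, 2]`: it is a crossing, and both have a vertex there with the same label. Proof: `own_in`, `own_left`, `own_right` for `i = j`; `cross_lt` and
`cross_gt` for `i ≠ j` (with `once`), `mem_xs`. -/
theorem Fam.Ok.meet (h : S.Ok) {i j : ℕ} (hi : i < S.n) (hj : j < S.n) {τ τ' : Bool}
    (hne : (i, τ) ≠ (j, τ')) {x : ℝ} (h0 : -2 ≤ x) (h1 : x ≤ 2) (hx : S.F i τ x = S.F j τ' x) :
    ∃ a b b', (x, some (a, b)) ∈ S.xs i τ ∧ (x, some (a, b')) ∈ S.xs j τ' := by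
  have main : ∀ i j : ℕ, i < j → j < S.n → ∀ τ τ' : Bool, S.F i τ x = S.F j τ' x →
      ∃ a b b', (x, some (a, b)) ∈ S.xs i τ ∧ (x, some (a, b')) ∈ S.xs j τ' := by
    intro i j hij hj τ τ' hx
    obtain ⟨e, he, hE, -⟩ := h.once i j hij hj
    have hxX : x = S.X e τ τ' := by
      rcases lt_trichotomy x (S.X e τ τ') with hlt | heq | hgt
      · exact absurd (h.cross_lt e he i j hE τ τ' x h0 hlt) (by rw [hx]; exact lt_irrefl _)
      · exact heq
      · exact absurd (h.cross_gt e he i j hE τ τ' x hgt h1) (by rw [hx]; exact lt_irrefl _)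
    refine ⟨lab S.n e τ τ', (τ != τ'), (τ' == τ), ?_, ?_⟩
    · rw [h.mem_xs (hij.trans hj)]
      refine Or.inr (Or.inr ⟨e, τ', he, Or.inl ⟨by rw [hE], hxX, rfl, rfl⟩⟩)
    · rw [h.mem_xs hj]
      refine Or.inr (Or.inr ⟨e, τ, he, Or.inr ⟨by rw [hE], hxX, rfl, rfl⟩⟩)
  rcases lt_trichotomy i j with hij | rfl | hij
  · exact main i j hij hj τ τ' hx
  · have hττ : τ' = !τ := by
      cases τ <;> cases τ' <;> simp_all
    have hx' : S.F i true x = S.F i false x := by
      subst hττ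
      cases τ
      · exact hx.symm
      · exact hx
    have hxx : x = -3 / 2 ∨ x = 3 / 2 := by
      by_contra hcon
      push Not at hcon
      rcases lt_or_gt_of_ne hcon.1 with h2 | h2
      · have := h.own_left i hi x h0 h2
        rw [hx'] at this
        exact lt_irrefl _ this
      · rcases lt_or_gt_of_ne hcon.2 with h3 | h3
        · have := h.own_in i hi x h2 h3
          rw [hx'] at this
          exact lt_irrefl _ this
        · have := h.own_right i hi x h3 h1
          rw [hx'] at this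
          exact lt_irrefl _ this
    rcases hxx with hxx | hxx
    · refine ⟨1 + 2 * i, τ, τ', ?_, ?_⟩
      · rw [h.mem_xs hi]; exact Or.inl ⟨hxx, rfl, rfl⟩
      · rw [h.mem_xs hi]; exact Or.inl ⟨hxx, rfl, rfl⟩
    · refine ⟨2 + 2 * i, !τ, !τ', ?_, ?_⟩
      · rw [h.mem_xs hi]; exact Or.inr (Or.inl ⟨hxx, rfl, rfl⟩)
      · rw [h.mem_xs hi]; exact Or.inr (Or.inl ⟨hxx, rfl, rfl⟩)
  · obtain ⟨a, b, b', h2, h3⟩ := main j i hij hi τ' τ hx.symm
    exact ⟨a, b', b, h3, h2⟩

/-- Conversely vertices with the same label of different strands coincide, and the difference of the two functions changes its sign there in the way the bits say.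

Proof: `mem_xs` for both strands, `lab_inj`, `lab_gt` (file Wd): the labels `1 + 2 i`, `2 + 2 i` are `≤ 2 n` and the labels `lab` are `> 2 n`; for the crossings of different wires the event is the same,
`E.getD e _ = (i, j)` or `(j, i)` (the same event cannot contain `i` twice, `lt`); then `cross`, `cross_lt`, `cross_gt` (`ε` with `-2 ≤ x - ε`, `x + ε ≤ 2`). For `i = j`, `τ' = !τ`: `x = y = -3 / 2` or `3 / 2`,
`own_A`, `own_B`, `own_in`, `own_left`, `own_right`, `ε = 1 / 2`. -/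
theorem Fam.Ok.same_label (h : S.Ok) {i j : ℕ} (hi : i < S.n) (hj : j < S.n) {τ τ' : Bool}
    (hne : (i, τ) ≠ (j, τ')) {x y : ℝ} {a : ℕ} {b b' : Bool} (hx : (x, some (a, b)) ∈ S.xs i τ)
    (hy : (y, some (a, b')) ∈ S.xs j τ') :
    x = y ∧ S.F i τ x = S.F j τ' x ∧ b' = !b ∧ ∃ ε : ℝ, 0 < ε ∧
      ((b = (τ != τ') ∧ (∀ z, x - ε < z → z < x → S.F i τ z < S.F j τ' z) ∧
          ∀ z, x < z → z < x + ε → S.F j τ' z < S.F i τ z) ∨
        (b = (τ == τ') ∧ (∀ z, x - ε < z → z < x → S.F j τ' z < S.F i τ z) ∧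
          ∀ z, x < z → z < x + ε → S.F i τ z < S.F j τ' z)) := by
  rw [h.mem_xs hi] at hx
  rw [h.mem_xs hj] at hy
  rcases hx with ⟨rfl, rfl, rfl⟩ | ⟨rfl, rfl, rfl⟩ | ⟨e, σ, he, hx⟩
  · rcases hy with ⟨rfl, ha, rfl⟩ | ⟨rfl, ha, rfl⟩ | ⟨e', σ', he', hy⟩
    · have hij : i = j := by omega
      subst hij
      have hA := h.own_A i hi
      cases b <;> cases b' <;> first
        | exact absurd rfl hne
        | skip
      · refine ⟨rfl, hA.symm, rfl, 1 / 2, by norm_num, Or.inr ⟨rfl, ?_, ?_⟩⟩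
        · intro z h1 h2
          exact h.own_left i hi z (by linarith) h2
        · intro z h1 h2
          exact h.own_in i hi z h1 (by linarith)
      · refine ⟨rfl, hA, rfl, 1 / 2, by norm_num, Or.inl ⟨rfl, ?_, ?_⟩⟩
        · intro z h1 h2
          exact h.own_left i hi z (by linarith) h2
        · intro z h1 h2
          exact h.own_in i hi z h1 (by linarith)
    · omega
    · exfalso
      rcases hy with ⟨-, -, ha, -⟩ | ⟨-, -, ha, -⟩
      · have := lab_gt S.n e' τ' σ'; omega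
      · have := lab_gt S.n e' σ' τ'; omega
  · rcases hy with ⟨rfl, ha, rfl⟩ | ⟨rfl, ha, rfl⟩ | ⟨e', σ', he', hy⟩
    · omega
    · have hij : i = j := by omega
      subst hij
      have hB := h.own_B i hi
      cases τ <;> cases τ' <;> first
        | exact absurd rfl hne
        | skip
      · refine ⟨rfl, hB.symm, rfl, 1 / 2, by norm_num, Or.inl ⟨rfl, ?_, ?_⟩⟩
        · intro z h1 h2
          exact h.own_in i hi z (by linarith) h2
        · intro z h1 h2
          exact h.own_right i hi z h1 (by linarith)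
      · refine ⟨rfl, hB, rfl, 1 / 2, by norm_num, Or.inr ⟨rfl, ?_, ?_⟩⟩
        · intro z h1 h2
          exact h.own_in i hi z (by linarith) h2
        · intro z h1 h2
          exact h.own_right i hi z h1 (by linarith)
    · exfalso
      rcases hy with ⟨-, -, ha, -⟩ | ⟨-, -, ha, -⟩
      · have := lab_gt S.n e' τ' σ'; omega
      · have := lab_gt S.n e' σ' τ'; omega
  · rcases hy with ⟨rfl, ha, rfl⟩ | ⟨rfl, ha, rfl⟩ | ⟨e', σ', he', hy⟩
    · exfalso
      rcases hx with ⟨-, -, ha', -⟩ | ⟨-, -, ha', -⟩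
      · have := lab_gt S.n e τ σ; omega
      · have := lab_gt S.n e σ τ; omega
    · exfalso
      rcases hx with ⟨-, -, ha', -⟩ | ⟨-, -, ha', -⟩
      · have := lab_gt S.n e τ σ; omega
      · have := lab_gt S.n e σ τ; omega
    · rcases hx with ⟨hi1, hxX, ha, hb⟩ | ⟨hi1, hxX, ha, hb⟩
      · rcases hy with ⟨hj1, hyX, ha', hb'⟩ | ⟨hj1, hyX, ha', hb'⟩
        · exfalso
          rw [ha, lab_inj] at ha'
          obtain ⟨rfl, rfl, rfl⟩ := ha'
          exact hne (by rw [← hi1, ← hj1])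
        · rw [ha, lab_inj] at ha'
          obtain ⟨rfl, rfl, rfl⟩ := ha'
          have hE : S.E.getD e (0, 0) = (i, j) := Prod.ext hi1 hj1
          have hX := h.X_mem e he τ σ
          refine ⟨by rw [hxX, hyX], ?_, ?_, 1, one_pos, Or.inl ⟨hb, ?_, ?_⟩⟩
          · rw [hxX]
            exact h.cross e he i j hE τ σ
          · rw [hb, hb']
            cases τ <;> cases σ <;> rfl
          · intro z h1 h2
            refine h.cross_lt e he i j hE τ σ z ?_ (by rw [← hxX]; exact h2)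
            rw [hxX] at h1
            linarith [hX.1]
          · intro z h1 h2
            refine h.cross_gt e he i j hE τ σ z (by rw [← hxX]; exact h1) ?_
            rw [hxX] at h2
            linarith [hX.2]
      · rcases hy with ⟨hj1, hyX, ha', hb'⟩ | ⟨hj1, hyX, ha', hb'⟩
        · rw [ha, lab_inj] at ha'
          obtain ⟨rfl, rfl, rfl⟩ := ha'
          have hE : S.E.getD e (0, 0) = (j, i) := Prod.ext hj1 hi1
          have hX := h.X_mem e he σ τ
          refine ⟨by rw [hxX, hyX], ?_, ?_, 1, one_pos, Or.inr ⟨hb, ?_, ?_⟩⟩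
          · rw [hxX]
            exact (h.cross e he j i hE σ τ).symm
          · rw [hb, hb']
            cases τ <;> cases σ <;> rfl
          · intro z h1 h2
            refine h.cross_lt e he j i hE σ τ z ?_ (by rw [← hxX]; exact h2)
            rw [hxX] at h1
            linarith [hX.1]
          · intro z h1 h2
            refine h.cross_gt e he j i hE σ τ z (by rw [← hxX]; exact h1) ?_
            rw [hxX] at h2
            linarith [hX.2]
        · exfalso
          rw [ha, lab_inj] at ha'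
          obtain ⟨rfl, rfl, rfl⟩ := ha'
          exact hne (by rw [← hi1, ← hj1])

end Pool.Agent.SO
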