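import Pool.Agent.Lib.MP_2f17d2_lc.SO.Red
import Pool.Agent.Lib.MP_2f17d2_lc.Mg.G005

/-!
# Task Mo: an additional wire makes the number of wires even
-/

set_option autoImplicit false

namespace Pool.Agent.SO

variable {n : ℕ} {w : List ℕ}

private theorem mo_evs_cons (a : ℕ) : ∀ (w σ : List ℕ), evs (a :: σ) (w.map (· + 1)) = evs σ w := by
  intro w
  induction w with
  | nil => intro σ; rfl
  | cons p w ih =>
    intro σ
    have h : swp (a :: σ) (p + 1) = a :: swp σ p := by
      simp [swp, List.set_cons_succ]
    simp only [List.map_cons, evs, h, ih, List.getD_cons_succ]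

private theorem mo_evs_range (n : ℕ) (u : List ℕ) : ∀ (m : ℕ) (τ : List ℕ),
    evs (List.range m ++ n :: τ) ((List.range m).reverse ++ u) =
      (List.range m).reverse.map (fun k => (k, n)) ++ evs (n :: (List.range m ++ τ)) u := by
  intro m
  induction m with
  | zero => intro τ; rfl
  | succ m ih =>
    intro τ
    have h1 : (List.range (m + 1) ++ n :: τ).getD m 0 = m := by
      rw [List.getD_eq_getElem?_getD, List.getElem?_append_left (by simp)]
      simp
    have h2 : (List.range (m + 1) ++ n :: τ).getD (m + 1) 0 = n := by
      rw [List.getD_eq_getElem?_getD, List.getElem?_append_right (by simp)]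
      simp
    have h3 : swp (List.range (m + 1) ++ n :: τ) m = List.range m ++ n :: (m :: τ) := by
      have e : List.range (m + 1) ++ n :: τ = List.range m ++ (m :: n :: τ) := by
        rw [List.range_succ]; simp
      unfold swp
      rw [h1, h2, e]
      rw [List.set_append_right _ _ (by simp), List.set_append_right _ _ (by simp)]
      simp
    have h4 : (List.range (m + 1)).reverse = m :: (List.range m).reverse := by
      rw [List.range_succ]; simp
    have h5 : (List.range (m + 1)) ++ τ = List.range m ++ m :: τ := by
      rw [List.range_succ]; simp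
    rw [h4, h5]
    simp only [List.cons_append, evs, h1, h2, h3, ih, List.map_cons]

/-- The events of the extended diagram: first the new wire `n` crosses the wires `n - 1, ..., 0`, then the old events. Proof: the first `k` steps of the word `n - 1, n - 2, ...` bring the wire `n` from the level `n` to the level `n - k`; `swp (n :: σ) (p + 1) = n :: swp σ p`. -/
theorem evs_ext (n : ℕ) (w : List ℕ) :
    evs (List.range (n + 1)) ((List.range n).reverse ++ w.map (· + 1)) =
      (List.range n).reverse.map (fun k => (k, n)) ++ evs (List.range n) w := by
  have h := mo_evs_range n (w.map (· + 1)) n []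
  rw [List.append_nil, mo_evs_cons] at h
  rw [← h]
  congr 1
  rw [List.range_succ]

theorem evenW_pos (hn : 0 < n) : 0 < (evenW n w).1 := by
  unfold evenW
  split_ifs
  · exact hn
  · exact Nat.succ_pos n

theorem evenW_even (n : ℕ) (w : List ℕ) : (evenW n w).1 % 2 = 0 := by
  unfold evenW
  split_ifs with h
  · exact h
  · show (n + 1) % 2 = 0
    omega

private theorem mo_mem_lt (hw : Wiring n w) {q : ℕ × ℕ} (hq : q ∈ evs (List.range n) w) :
    q.1 < q.2 ∧ q.2 < n := by
  obtain ⟨e, he, rfl⟩ := List.mem_iff_getElem.1 hq
  have := hw.evs_lt he
  rwa [List.getD_eq_getElem _ _ he] at this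

theorem evenW_wiring (hw : Wiring n w) : Wiring (evenW n w).1 (evenW n w).2 := by
  unfold evenW
  split_ifs with h
  · exact hw
  · refine ⟨?_, ?_, ?_⟩
    · intro p hp
      show p + 1 < n + 1
      rcases List.mem_append.1 hp with hp | hp
      · have : p < n := by simpa using hp
        omega
      · obtain ⟨q, hq, rfl⟩ := List.mem_map.1 hp
        have := hw.pos q hq
        simp only at *
        omega
    · intro q hq
      rw [evs_ext] at hq
      rcases List.mem_append.1 hq with hq | hq
      · obtain ⟨k, hk, rfl⟩ := List.mem_map.1 hq
        simpa using hk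
      · exact hw.lt q hq
    · intro i j hij hj
      have hj' : j < n + 1 := hj
      show (evs (List.range (n + 1)) ((List.range n).reverse ++ w.map (· + 1))).count (i, j) = 1
      rw [evs_ext, List.count_append]
      by_cases hjn : j = n
      · subst hjn
        have h1 : ((List.range j).reverse.map (fun k => (k, j))).count (i, j) = 1 := by
          have hinj : Function.Injective (fun k : ℕ => (k, j)) := fun a b h => by
            simpa using h
          have := List.count_map_of_injective (List.range j).reverse (fun k : ℕ => (k, j)) hinj i
          rw [this, List.count_reverse]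
          exact List.count_eq_one_of_mem List.nodup_range (List.mem_range.2 hij)
        have h2 : (evs (List.range j) w).count (i, j) = 0 := by
          rw [List.count_eq_zero]
          intro hm
          have := (mo_mem_lt hw hm).2
          exact lt_irrefl _ this
        rw [h1, h2]
      · have h1 : ((List.range n).reverse.map (fun k => (k, n))).count (i, j) = 0 := by
          rw [List.count_eq_zero]
          intro hm
          obtain ⟨k, hk, hk'⟩ := List.mem_map.1 hm
          exact hjn (Prod.mk.inj hk').2.symm
        rw [h1, zero_add]
        exact hw.once i j hij (by omega)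

/-- Proof. One direction: the same lines (`List.pairwise_append`). Other direction: given `m, c` choose `x₀` with `x₀ + 1 < X e` for all the crossings of the lines `0, ..., n - 1` (all pairs `i < j` cross: `Wiring.exists_ev`), let `y i = m i * x₀ + c i`; `y i < y j` for `i < j < n`
(`x₀` is to the left of their crossing). Let `b` be larger than all `y i` and let the new line be `y = -K * (x - x₀) + b`, i.e. `m n = -K`, `c n = K * x₀ + b`, with `K` large. It meets the line `i` at `x i = x₀ + (b - y i) / (K + m i)`. For large `K`: `-K < m i`, `x i < x₀ + 1`, and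
`x i < x j` for `j < i`: `(b - y i) * (K + m j) < (b - y j) * (K + m i)`, since `b - y i < b - y j`. (Finitely many conditions on `K`, each true for all large `K`: `Filter.Eventually atTop`.) -/
theorem evenW_stretchable (hw : Wiring n w) :
    Stretchable (evenW n w).1 (evenW n w).2 ↔ Stretchable n w := by
  unfold evenW
  split_ifs with hpar
  · exact Iff.rfl
  show Stretchable (n + 1) ((List.range n).reverse ++ w.map (· + 1)) ↔ Stretchable n w
  constructor
  · rintro ⟨m, c, hm, hp⟩
    rw [evs_ext] at hp
    exact ⟨m, c, fun i j hij hj => hm i j hij (by omega), (List.pairwise_append.1 hp).2.1⟩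
  · rintro ⟨m, c, hm, hp⟩
    -- the abscissa `x₀`
    obtain ⟨x₀, hx₀⟩ : ∃ x₀ : ℝ, ∀ i < n, ∀ j < n, x₀ + 1 < (c j - c i) / (m i - m j) := by
      have : ∀ᶠ x in (Filter.atBot : Filter ℝ), ∀ i ∈ Finset.range n, ∀ j ∈ Finset.range n,
          x + 1 < (c j - c i) / (m i - m j) := by
        rw [Filter.eventually_all_finset]
        intro i _
        rw [Filter.eventually_all_finset]
        intro j _
        filter_upwards [Filter.eventually_lt_atBot ((c j - c i) / (m i - m j) - 1)] with x hx
        linarith
      obtain ⟨x, hx⟩ := this.exists
      exact ⟨x, fun i hi j hj => hx i (Finset.mem_range.2 hi) j (Finset.mem_range.2 hj)⟩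
    set y : ℕ → ℝ := fun i => m i * x₀ + c i with hy
    have hylt : ∀ i j, i < j → j < n → y i < y j := by
      intro i j hij hj
      have h1 := hx₀ i (by omega) j hj
      have h2 := hm i j hij hj
      have h3 : 0 < m i - m j := by linarith
      rw [lt_div_iff₀ h3] at h1
      simp only [hy]
      nlinarith
    obtain ⟨b, hb⟩ : ∃ b : ℝ, ∀ i < n, y i < b := by
      have : ∀ᶠ b in (Filter.atTop : Filter ℝ), ∀ i ∈ Finset.range n, y i < b := by
        rw [Filter.eventually_all_finset]
        intro i _
        exact Filter.eventually_gt_atTop _
      obtain ⟨x, hx⟩ := this.exists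
      exact ⟨x, fun i hi => hx i (Finset.mem_range.2 hi)⟩
    obtain ⟨K, hK1, hK2, hK3⟩ : ∃ K : ℝ, (∀ i < n, -K < m i) ∧ (∀ i < n, b - y i < K + m i) ∧
        (∀ i < n, ∀ j < n, j < i → (b - y i) * (K + m j) < (b - y j) * (K + m i)) := by
      have e1 : ∀ᶠ K in (Filter.atTop : Filter ℝ), ∀ i ∈ Finset.range n, -K < m i := by
        rw [Filter.eventually_all_finset]
        intro i _
        filter_upwards [Filter.eventually_gt_atTop (-m i)] with K hK
        linarith
      have e2 : ∀ᶠ K in (Filter.atTop : Filter ℝ), ∀ i ∈ Finset.range n, b - y i < K + m i := by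
        rw [Filter.eventually_all_finset]
        intro i _
        filter_upwards [Filter.eventually_gt_atTop (b - y i - m i)] with K hK
        linarith
      have e3 : ∀ᶠ K in (Filter.atTop : Filter ℝ), ∀ i ∈ Finset.range n, ∀ j ∈ Finset.range n,
          j < i → (b - y i) * (K + m j) < (b - y j) * (K + m i) := by
        rw [Filter.eventually_all_finset]
        intro i hi
        rw [Filter.eventually_all_finset]
        intro j _
        by_cases hji : j < i
        · have h1 := hylt j i hji (Finset.mem_range.1 hi)
          have h2 : 0 < y i - y j := by linarith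
          filter_upwards [Filter.eventually_gt_atTop
            (((b - y i) * m j - (b - y j) * m i) / (y i - y j))] with K hK _
          rw [div_lt_iff₀ h2] at hK
          nlinarith
        · exact Filter.Eventually.of_forall fun K h => absurd h hji
      obtain ⟨K, h1, h2, h3⟩ := (e1.and (e2.and e3)).exists
      exact ⟨K, fun i hi => h1 i (Finset.mem_range.2 hi), fun i hi => h2 i (Finset.mem_range.2 hi),
        fun i hi j hj => h3 i (Finset.mem_range.2 hi) j (Finset.mem_range.2 hj)⟩
    set m' : ℕ → ℝ := fun i => if i = n then -K else m i with hm'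
    set c' : ℕ → ℝ := fun i => if i = n then K * x₀ + b else c i with hc'
    have m'n : m' n = -K := by simp [hm']
    have c'n : c' n = K * x₀ + b := by simp [hc']
    have m'i : ∀ i, i < n → m' i = m i := fun i hi => by simp [hm', hi.ne]
    have c'i : ∀ i, i < n → c' i = c i := fun i hi => by simp [hc', hi.ne]
    have hpos : ∀ i < n, 0 < K + m i := fun i hi => by
      have := hK1 i hi
      linarith
    have hX : ∀ i < n, (c' n - c' i) / (m' i - m' n) = x₀ + (b - y i) / (K + m i) := by
      intro i hi
      rw [m'n, c'n, m'i i hi, c'i i hi]
      have h0 := hpos i hi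
      have h1 : m i - -K = K + m i := by ring
      rw [h1, div_eq_iff h0.ne', add_mul, div_mul_cancel₀ _ h0.ne']
      simp only [hy]
      ring
    refine ⟨m', c', ?_, ?_⟩
    · intro i j hij hj
      by_cases hjn : j = n
      · subst hjn
        rw [m'n, m'i i hij]
        exact hK1 i hij
      · have hj' : j < n := by omega
        rw [m'i i (by omega), m'i j hj']
        exact hm i j hij hj'
    · rw [evs_ext, List.pairwise_append]
      refine ⟨?_, ?_, ?_⟩
      · rw [List.pairwise_map]
        have h1 : (List.range n).reverse.Pairwise (fun a b => b < a) := by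
          rw [List.pairwise_reverse]
          exact List.pairwise_lt_range
        refine (List.Pairwise.and_mem.1 h1).imp ?_
        rintro i j ⟨hi, hj, hji⟩ _
        have hi' : i < n := by simpa using hi
        have hj' : j < n := by simpa using hj
        show (c' n - c' i) / (m' i - m' n) < (c' n - c' j) / (m' j - m' n)
        rw [hX i hi', hX j hj']
        have h2 : (b - y i) / (K + m i) < (b - y j) / (K + m j) := by
          rw [div_lt_div_iff₀ (hpos i hi') (hpos j hj')]
          exact hK3 i hi' j hj' hji
        linarith
      · refine (List.Pairwise.and_mem.1 hp).imp ?_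
        rintro p q ⟨hp', hq', h⟩ hpq
        have h1 := mo_mem_lt hw hp'
        have h2 := mo_mem_lt hw hq'
        rw [c'i p.2 h1.2, c'i p.1 (by omega), m'i p.2 h1.2, m'i p.1 (by omega),
          c'i q.2 h2.2, c'i q.1 (by omega), m'i q.2 h2.2, m'i q.1 (by omega)]
        exact h hpq
      · intro p hp' q hq' _
        obtain ⟨k, hk, rfl⟩ := List.mem_map.1 hp'
        have hk' : k < n := by simpa using hk
        have h2 := mo_mem_lt hw hq'
        show (c' n - c' k) / (m' k - m' n) < (c' q.2 - c' q.1) / (m' q.1 - m' q.2)
        rw [hX k hk', c'i q.2 h2.2, c'i q.1 (by omega), m'i q.2 h2.2, m'i q.1 (by omega)]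
        have h3 := hx₀ q.1 (by omega) q.2 h2.2
        have h4 : (b - y k) / (K + m k) < 1 := by
          rw [div_lt_one (hpos k hk')]
          exact hK2 k hk'
        linarith

end Pool.Agent.SO
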