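import Pool.Agent.Lib.MP_2f17d2_lc.SO.Ro

/-!
# Task Nx: consecutive edges of the drawing
-/

set_option autoImplicit false

namespace Pool.Agent.SO

variable {S : Fam}

/-- The block of a strand: its edges and the connector after it. -/
noncomputable def Fam.blk (S : Fam) (i : ℕ) (τ : Bool) : List Seg := S.inner i τ ++ [S.conn i τ]

/-- Consecutive pairs of neighbours in a list. -/
private theorem Nx_zip_chain {α : Type} (L : List α) :
    (L.zip L.tail).IsChain (fun u v => u ∈ L.zip L.tail ∧ v ∈ L.zip L.tail ∧ u.2 = v.1) := by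
  rw [List.isChain_iff_getElem]
  intro k hk
  refine ⟨List.getElem_mem _, List.getElem_mem _, ?_⟩
  simp [List.getElem_zip, List.getElem_tail]

private theorem Nx_adj_chain (S : Fam) (i : ℕ) (τ : Bool) :
    ((S.xs i τ).zip (S.xs i τ).tail).IsChain
      (fun u v => S.Adj i τ u.1 u.2 ∧ S.Adj i τ v.1 v.2 ∧ u.2 = v.1) :=
  Nx_zip_chain (S.xs i τ)

/-- Slopes of two neighbouring pieces. -/
private theorem Nx_slopes (h : S.Ok) {i : ℕ} (hi : i < S.n) {τ : Bool}
    {p q r : ℝ × Option (ℕ × Bool)} (hpq : S.Adj i τ p q) (hqr : S.Adj i τ q r) :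
    ∃ m m' : ℝ, 0 < q.1 - p.1 ∧ 0 < r.1 - q.1 ∧ S.F i τ q.1 - S.F i τ p.1 = m * (q.1 - p.1) ∧
      S.F i τ r.1 - S.F i τ q.1 = m' * (r.1 - q.1) ∧ (q.2 ≠ none → m = m') ∧
      -2 ≤ p.1 ∧ r.1 ≤ 2 := by
  obtain ⟨-, -, h1, h1a, -, -⟩ := h.adj hi hpq
  obtain ⟨-, -, h2, -, h2b, -⟩ := h.adj hi hqr
  obtain ⟨m, c, hm⟩ := h.adj_affine hi hpq
  obtain ⟨m', c', hm'⟩ := h.adj_affine hi hqr
  refine ⟨m, m', by linarith, by linarith, ?_, ?_, ?_, h1a, h2b⟩
  · rw [hm q.1 h1.le le_rfl, hm p.1 le_rfl h1.le]; ring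
  · rw [hm' r.1 h2.le le_rfl, hm' q.1 le_rfl h2.le]; ring
  · intro hq
    obtain ⟨m₀, c₀, hm₀⟩ := h.adj_affine_marked hi hpq hqr hq
    have e1 : m * (q.1 - p.1) = m₀ * (q.1 - p.1) := by
      have a1 := hm q.1 h1.le le_rfl
      have a2 := hm p.1 le_rfl h1.le
      have b1 := hm₀ q.1 h1.le h2.le
      have b2 := hm₀ p.1 le_rfl (h1.le.trans h2.le)
      linarith
    have e2 : m' * (r.1 - q.1) = m₀ * (r.1 - q.1) := by
      have a1 := hm' r.1 h2.le le_rfl
      have a2 := hm' q.1 le_rfl h2.le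
      have b1 := hm₀ r.1 (h1.le.trans h2.le) le_rfl
      have b2 := hm₀ q.1 h1.le h2.le
      linarith
    have f1 : m = m₀ := mul_right_cancel₀ (by linarith : q.1 - p.1 ≠ 0) e1
    have f2 : m' = m₀ := mul_right_cancel₀ (by linarith : r.1 - q.1 ≠ 0) e2
    rw [f1, f2]

private theorem Nx_d (S : Fam) (i : ℕ) (τ : Bool) (x y : ℝ) (o : Option (ℕ × Bool)) :
    (⟨S.P i τ x, S.P i τ y, o⟩ : Seg).d = (y - x, S.F i τ y - S.F i τ x) := rfl

/-- Two consecutive edges of an upper strand. -/
private theorem Nx_up (h : S.Ok) {i : ℕ} (hi : i < S.n) {p q r : ℝ × Option (ℕ × Bool)}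
    (hpq : S.Adj i true p q) (hqr : S.Adj i true q r) :
    Nxt ⟨S.P i true p.1, S.P i true q.1, p.2⟩ ⟨S.P i true q.1, S.P i true r.1, q.2⟩ := by
  obtain ⟨m, m', hl, hl', e, e', hf, -, -⟩ := Nx_slopes h hi hpq hqr
  have same : m = m' → Same (⟨S.P i true p.1, S.P i true q.1, p.2⟩ : Seg).d
      (⟨S.P i true q.1, S.P i true r.1, q.2⟩ : Seg).d := by
    intro hm
    refine ⟨(r.1 - q.1) / (q.1 - p.1), div_pos hl' hl, ?_⟩
    rw [Nx_d, Nx_d, e, e', hm]
    ext
    · simp only [Prod.smul_mk, smul_eq_mul]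
      field_simp
    · simp only [Prod.smul_mk, smul_eq_mul]
      field_simp
  refine ⟨fun hm => same (hf hm), ?_⟩
  by_cases hm : m = m'
  · exact Or.inl (same hm)
  · right
    rw [Nx_d, Nx_d, e, e']
    simp only [cr]
    have : (q.1 - p.1) * (m' * (r.1 - q.1)) - m * (q.1 - p.1) * (r.1 - q.1) =
        (q.1 - p.1) * (r.1 - q.1) * (m' - m) := by ring
    rw [this]
    exact mul_ne_zero (mul_pos hl hl').ne' (sub_ne_zero.mpr (Ne.symm hm))

/-- Two consecutive edges of a lower strand. -/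
private theorem Nx_dn (h : S.Ok) {i : ℕ} (hi : i < S.n) {p q r : ℝ × Option (ℕ × Bool)}
    (hpq : S.Adj i false p q) (hqr : S.Adj i false q r) :
    Nxt ⟨S.P i false r.1, S.P i false q.1, r.2⟩ ⟨S.P i false q.1, S.P i false p.1, q.2⟩ := by
  obtain ⟨m, m', hl, hl', e, e', hf, -, -⟩ := Nx_slopes h hi hpq hqr
  have e1 : S.F i false q.1 - S.F i false r.1 = m' * (q.1 - r.1) := by linarith
  have e2 : S.F i false p.1 - S.F i false q.1 = m * (p.1 - q.1) := by linarith
  have same : m = m' → Same (⟨S.P i false r.1, S.P i false q.1, r.2⟩ : Seg).d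
      (⟨S.P i false q.1, S.P i false p.1, q.2⟩ : Seg).d := by
    intro hm
    have h0 : q.1 - r.1 ≠ 0 := by linarith
    refine ⟨(p.1 - q.1) / (q.1 - r.1), div_pos_of_neg_of_neg (by linarith) (by linarith), ?_⟩
    rw [Nx_d, Nx_d, e1, e2, hm]
    ext
    · simp only [Prod.smul_mk, smul_eq_mul]
      field_simp
    · simp only [Prod.smul_mk, smul_eq_mul]
      field_simp
  refine ⟨fun hm => same (hf hm), ?_⟩
  by_cases hm : m = m'
  · exact Or.inl (same hm)
  · right
    rw [Nx_d, Nx_d, e1, e2]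
    simp only [cr]
    have : (q.1 - r.1) * (m * (p.1 - q.1)) - m' * (q.1 - r.1) * (p.1 - q.1) =
        (q.1 - p.1) * (r.1 - q.1) * (m - m') := by ring
    rw [this]
    exact mul_ne_zero (mul_pos hl hl').ne' (sub_ne_zero.mpr hm)

/-- The slopes of a concave strand. -/
private theorem Nx_upR (h : S.Ok) (hc : S.Cw) {i : ℕ} (hi : i < S.n) {p q r : ℝ × Option (ℕ × Bool)}
    (hpq : S.Adj i true p q) (hqr : S.Adj i true q r) :
    NxtR ⟨S.P i true p.1, S.P i true q.1, p.2⟩ ⟨S.P i true q.1, S.P i true r.1, q.2⟩ := by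
  have hN := Nx_up h hi hpq hqr
  obtain ⟨m, m', hl, hl', e, e', hf, h0, h2⟩ := Nx_slopes h hi hpq hqr
  rcases hN.turn with h1 | h1
  · exact Or.inl h1
  · right
    have hs := (hc i hi).1.slope_anti_adjacent (x := p.1) (y := q.1) (z := r.1)
      ⟨h0, by linarith⟩ ⟨by linarith, h2⟩ (by linarith) (by linarith)
    have hm : m' ≤ m := by
      rw [e, e', mul_div_assoc, mul_div_assoc, div_self hl.ne', div_self hl'.ne', mul_one,
        mul_one] at hs
      exact hs
    refine lt_of_le_of_ne ?_ h1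
    rw [Nx_d, Nx_d, e, e']
    simp only [cr]
    have : (q.1 - p.1) * (m' * (r.1 - q.1)) - m * (q.1 - p.1) * (r.1 - q.1) =
        -((q.1 - p.1) * (r.1 - q.1) * (m - m')) := by ring
    rw [this, neg_nonpos]
    exact mul_nonneg (mul_pos hl hl').le (by linarith)

/-- The slopes of a convex strand. -/
private theorem Nx_dnR (h : S.Ok) (hc : S.Cw) {i : ℕ} (hi : i < S.n) {p q r : ℝ × Option (ℕ × Bool)}
    (hpq : S.Adj i false p q) (hqr : S.Adj i false q r) :
    NxtR ⟨S.P i false r.1, S.P i false q.1, r.2⟩ ⟨S.P i false q.1, S.P i false p.1, q.2⟩ := by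
  have hN := Nx_dn h hi hpq hqr
  obtain ⟨m, m', hl, hl', e, e', hf, h0, h2⟩ := Nx_slopes h hi hpq hqr
  rcases hN.turn with h1 | h1
  · exact Or.inl h1
  · right
    have hs := (hc i hi).2.slope_mono_adjacent (x := p.1) (y := q.1) (z := r.1)
      ⟨h0, by linarith⟩ ⟨by linarith, h2⟩ (by linarith) (by linarith)
    have hm : m ≤ m' := by
      rw [e, e', mul_div_assoc, mul_div_assoc, div_self hl.ne', div_self hl'.ne', mul_one,
        mul_one] at hs
      exact hs
    have e1 : S.F i false q.1 - S.F i false r.1 = m' * (q.1 - r.1) := by linarith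
    have e2 : S.F i false p.1 - S.F i false q.1 = m * (p.1 - q.1) := by linarith
    refine lt_of_le_of_ne ?_ h1
    rw [Nx_d, Nx_d, e1, e2]
    simp only [cr]
    have : (q.1 - r.1) * (m * (p.1 - q.1)) - m' * (q.1 - r.1) * (p.1 - q.1) =
        -((q.1 - p.1) * (r.1 - q.1) * (m' - m)) := by ring
    rw [this, neg_nonpos]
    exact mul_nonneg (mul_pos hl hl').le (by linarith)

/-- The chain of the edges of a strand, for any relation. -/
private theorem Nx_inner_chain {i : ℕ} {τ : Bool} (R : Seg → Seg → Prop)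
    (hup : τ = true → ∀ p q r : ℝ × Option (ℕ × Bool), S.Adj i true p q → S.Adj i true q r →
      R ⟨S.P i true p.1, S.P i true q.1, p.2⟩ ⟨S.P i true q.1, S.P i true r.1, q.2⟩)
    (hdn : τ = false → ∀ p q r : ℝ × Option (ℕ × Bool), S.Adj i false p q → S.Adj i false q r →
      R ⟨S.P i false r.1, S.P i false q.1, r.2⟩ ⟨S.P i false q.1, S.P i false p.1, q.2⟩) :
    (S.inner i τ).IsChain R := by
  cases τ with
  | true =>
    simp only [Fam.inner, if_true, List.isChain_map]
    refine (Nx_adj_chain S i true).imp ?_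
    rintro ⟨p, q⟩ ⟨q', r⟩ ⟨h1, h2, h3⟩
    simp only at h1 h2 h3
    subst h3
    exact hup rfl p q r h1 h2
  | false =>
    simp only [Fam.inner, if_false, Bool.false_eq_true, List.isChain_reverse, List.isChain_map]
    refine (Nx_adj_chain S i false).imp ?_
    rintro ⟨p, q⟩ ⟨q', r⟩ ⟨h1, h2, h3⟩
    simp only at h1 h2 h3
    subst h3
    exact hdn rfl p q r h1 h2

/-- The direction of an edge of a strand. -/
private theorem Nx_inner_d (h : S.Ok) {i : ℕ} (hi : i < S.n) {τ : Bool} {s : Seg} (hs : s ∈ S.inner i τ) :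
    ∃ l y : ℝ, 0 < l ∧ s.d = (if τ then l else -l, y) := by
  cases τ with
  | true =>
    obtain ⟨p, q, hpq, rfl⟩ := Fam.mem_inner_true.1 hs
    obtain ⟨-, -, h1, -, -, -⟩ := h.adj hi hpq
    exact ⟨q.1 - p.1, S.F i true q.1 - S.F i true p.1, by linarith, by rw [Nx_d]; simp⟩
  | false =>
    obtain ⟨p, q, hpq, rfl⟩ := Fam.mem_inner_false.1 hs
    obtain ⟨-, -, h1, -, -, -⟩ := h.adj hi hpq
    exact ⟨q.1 - p.1, S.F i false p.1 - S.F i false q.1, by linarith, by rw [Nx_d]; simp⟩

/-- The last pair of neighbours ends at the last element. -/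
private theorem Nx_zip_last {α : Type} (L : List α) {u : α × α} (hu : (L.zip L.tail).getLast? = some u) :
    L.getLast? = some u.2 := by
  rw [List.getLast?_eq_getElem?] at hu ⊢
  obtain ⟨hk, hu⟩ := List.getElem?_eq_some_iff.1 hu
  have hlen : (L.zip L.tail).length = L.length - 1 := by simp
  rw [hlen] at hk
  rw [List.getElem?_eq_some_iff]
  refine ⟨by omega, ?_⟩
  rw [← hu]
  simp only [List.getElem_zip, List.getElem_tail, hlen]
  congr 1
  omega

private theorem Nx_xs_len (S : Fam) (i : ℕ) (τ : Bool) : (S.xs i τ).zip (S.xs i τ).tail ≠ [] := by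
  intro h0
  have h1 := Fam.xs_head S i τ
  have h2 := Fam.xs_last S i τ
  rcases hx : S.xs i τ with _ | ⟨a, _ | ⟨b, L⟩⟩
  · rw [hx] at h1; simp at h1
  · rw [hx] at h1 h2
    simp only [List.head?_cons, Option.some.injEq] at h1
    simp only [List.getLast?_singleton, Option.some.injEq] at h2
    rw [h1] at h2
    have := congrArg Prod.fst h2
    norm_num at this
  · rw [hx] at h0; simp at h0

private theorem Nx_inner_ne (S : Fam) (i : ℕ) (τ : Bool) : S.inner i τ ≠ [] := by
  have := Nx_xs_len S i τ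
  cases τ with
  | true => simpa [Fam.inner] using this
  | false => simpa [Fam.inner] using this

/-- The first edge of a strand has no mark. -/
private theorem Nx_head {i : ℕ} {τ : Bool} {s : Seg}
    (hs : (S.blk i τ).head? = some s) : s ∈ S.inner i τ ∧ s.m = none := by
  have hne := Nx_inner_ne S i τ
  rw [Fam.blk, List.head?_append_of_ne_nil _ hne] at hs
  refine ⟨List.mem_of_mem_head? hs, ?_⟩
  cases τ with
  | true =>
    have h1 := Fam.xs_head S i true
    rcases hx : S.xs i true with _ | ⟨a, L⟩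
    · rw [hx] at h1; simp at h1
    · rw [hx] at h1
      simp only [List.head?_cons, Option.some.injEq] at h1
      simp only [Fam.inner, if_true, hx, List.tail_cons] at hs
      rcases L with _ | ⟨b, L⟩
      · simp at hs
      · simp only [List.zip_cons_cons, List.map_cons, List.head?_cons, Option.some.injEq] at hs
        rw [← hs, h1]
  | false =>
    simp only [Fam.inner, Bool.false_eq_true, if_false, List.head?_reverse, List.getLast?_map,
      Option.map_eq_some_iff] at hs
    obtain ⟨u, hu, rfl⟩ := hs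
    have h2 := Nx_zip_last _ hu
    rw [Fam.xs_last, Option.some.injEq] at h2
    show u.2.2 = none
    rw [← h2]

/-- Proof. Two consecutive edges of a strand both go to the right (or both to the left): they have the same direction or are not parallel; at a marked vertex `adj_affine_marked`. The last edge of a strand and the connector:
`(l, _)`, `l > 0`, and `(0, -l')` for upper strands, `(-l, _)` and `(0, l')` for lower strands; the connector has no mark. -/
theorem Fam.Ok.chain_blk (h : S.Ok) {i : ℕ} (hi : i < S.n) (τ : Bool) : (S.blk i τ).IsChain Nxt := by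
  rw [Fam.blk, List.isChain_append]
  refine ⟨Nx_inner_chain Nxt (fun hτ p q r => by subst hτ; exact Nx_up h hi)
    (fun hτ p q r => by subst hτ; exact Nx_dn h hi), List.isChain_singleton _, ?_⟩
  intro s hs s' hs'
  simp only [List.head?_cons, Option.mem_def, Option.some.injEq] at hs'
  subst hs'
  obtain ⟨l, y, hl, hd⟩ := Nx_inner_d h hi (List.mem_of_mem_getLast? hs)
  obtain ⟨hm, ⟨l', hl', hd'⟩, -, -⟩ := h.conn_point hi τ
  refine ⟨fun h0 => absurd hm h0, Or.inr ?_⟩
  rw [hd, hd']
  cases τ with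
  | true => simp [cr, hl.ne', hl'.ne']
  | false => simp [cr, hl.ne', hl'.ne']

/-- From a connector to the first edge of the next strand (of the other type): `(0, -l)` and `(-l', _)`, or `(0, l)` and `(l', _)`. -/
theorem Fam.Ok.nxt_conn (h : S.Ok) {i j : ℕ} (hi : i < S.n) (hj : j < S.n) (τ : Bool) {s : Seg}
    (hs : (S.blk j (!τ)).head? = some s) : Nxt (S.conn i τ) s ∧ NxtR (S.conn i τ) s := by
  obtain ⟨hs, hm⟩ := Nx_head hs
  obtain ⟨l, y, hl, hd⟩ := Nx_inner_d h hj hs
  obtain ⟨-, ⟨l', hl', hd'⟩, -, -⟩ := h.conn_point hi τ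
  have key : cr (S.conn i τ).d s.d < 0 := by
    rw [hd, hd']
    have := mul_pos hl hl'
    cases τ with
    | true => simp only [cr, Bool.not_true, Bool.false_eq_true, if_false, if_true]; nlinarith
    | false => simp only [cr, Bool.not_false, Bool.false_eq_true, if_false, if_true]; nlinarith
  exact ⟨⟨fun h0 => absurd hm h0, Or.inr key.ne⟩, Or.inr key⟩

private theorem Nx_H (h : S.Ok) : 0 < S.H ∧ S.F 0 false 2 < S.H ∧ -S.H < S.F 0 true (-2) := by
  have h1 := h.bound 0 h.n_pos false 2 (by norm_num) le_rfl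
  have h2 := h.bound 0 h.n_pos true (-2) le_rfl (by norm_num)
  exact ⟨by linarith [h1.1, h1.2], h1.2, h2.1⟩

private theorem Nx_of {s s' : Seg} (hm : s'.m = none) (hc : cr s.d s'.d < 0) : Nxt s s' ∧ NxtR s s' :=
  ⟨⟨fun h0 => absurd hm h0, Or.inr hc.ne⟩, Or.inr hc⟩

private theorem Nx_same {s s' : Seg} (hc : Same s.d s'.d) : Nxt s s' ∧ NxtR s s' :=
  ⟨⟨fun _ => hc, Or.inl hc⟩, Or.inl hc⟩

private theorem Nx_dd (x y x' y' : ℝ) (o : Option (ℕ × Bool)) :
    (⟨(x, y), (x', y'), o⟩ : Seg).d = (x' - x, y' - y) := rfl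

private theorem Nx_chain_of {l : List Seg} (hl : l.IsChain fun s s' => Nxt s s' ∧ NxtR s s') :
    l.IsChain Nxt ∧ l.IsChain NxtR :=
  ⟨hl.imp fun _ _ h => h.1, hl.imp fun _ _ h => h.2⟩

theorem Fam.Ok.chain_fr (h : S.Ok) : S.fr1.IsChain Nxt ∧ S.fr2.IsChain Nxt ∧ S.fr1.IsChain NxtR ∧
    S.fr2.IsChain NxtR := by
  obtain ⟨hH, h1, h2⟩ := Nx_H h
  have a1 : S.fr1.IsChain fun s s' => Nxt s s' ∧ NxtR s s' := by
    simp only [Fam.fr1, List.isChain_cons_cons, List.isChain_singleton, and_true]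
    refine ⟨Nx_of rfl ?_, Nx_of rfl ?_, Nx_of rfl ?_, Nx_of rfl ?_, Nx_of rfl ?_, Nx_same ?_,
      Nx_of rfl ?_⟩
    · simp only [Nx_dd, cr]; nlinarith
    · simp only [Nx_dd, cr]; nlinarith
    · simp only [Nx_dd, cr]; nlinarith
    · simp only [Nx_dd, cr]; nlinarith
    · simp only [Nx_dd, cr]; nlinarith
    · refine ⟨4, by norm_num, ?_⟩
      simp only [Nx_dd, Prod.smul_mk, smul_eq_mul]
      ext <;> norm_num
    · simp only [Nx_dd, cr, Fam.P]; nlinarith
  have a2 : S.fr2.IsChain fun s s' => Nxt s s' ∧ NxtR s s' := by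
    simp only [Fam.fr2, List.isChain_cons_cons, List.isChain_singleton, and_true]
    refine Nx_of rfl ?_
    simp only [Nx_dd, cr, Fam.P]; nlinarith
  exact ⟨(Nx_chain_of a1).1, (Nx_chain_of a2).1, (Nx_chain_of a1).2, (Nx_chain_of a2).2⟩

/-- The four transitions between rounds and frames: the last connector of the first round `conn (n - 1) false` (up) and the first edge of `fr1` (up), the last edge of `fr1` (down) and the first edge of the strand `(0, false)` (to the left), the last connector of the second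
round `conn (n - 1) true` (down) and the first edge of `fr2` (to the left), the last edge of `fr2` (up) and the first edge of the strand `(0, true)` (to the right). -/
theorem Fam.Ok.nxt_fr (h : S.Ok) :
    (∀ s, S.fr1.head? = some s → Nxt (S.conn (S.n - 1) false) s ∧ NxtR (S.conn (S.n - 1) false) s) ∧
    (∀ s s', S.fr1.getLast? = some s → (S.blk 0 false).head? = some s' → Nxt s s' ∧ NxtR s s') ∧
    (∀ s, S.fr2.head? = some s → Nxt (S.conn (S.n - 1) true) s ∧ NxtR (S.conn (S.n - 1) true) s) ∧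
    (∀ s s', S.fr2.getLast? = some s → (S.blk 0 true).head? = some s' → Nxt s s' ∧ NxtR s s') := by
  obtain ⟨hH, h1, h2⟩ := Nx_H h
  have hn : S.n - 1 < S.n := by have := h.n_pos; omega
  refine ⟨?_, ?_, ?_, ?_⟩
  · intro s hs
    obtain ⟨-, ⟨l, hl, hd⟩, -, -⟩ := h.conn_point hn false
    simp only [Fam.fr1, List.head?_cons, Option.some.injEq] at hs
    subst hs
    apply Nx_same
    rw [hd, Nx_dd]
    refine ⟨1 / l, by positivity, ?_⟩
    ext
    · simp
    · simp [hl.ne']
  · intro s s' hs hs'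
    simp only [Fam.fr1, List.getLast?_cons_cons, List.getLast?_singleton, Option.some.injEq] at hs
    subst hs
    obtain ⟨hs', hm⟩ := Nx_head hs'
    obtain ⟨l, y, hl, hd⟩ := Nx_inner_d h h.n_pos hs'
    refine Nx_of hm ?_
    rw [hd]
    simp only [Nx_dd, cr, Fam.P, Bool.false_eq_true, if_false]
    nlinarith
  · intro s hs
    obtain ⟨-, ⟨l, hl, hd⟩, -, -⟩ := h.conn_point hn true
    simp only [Fam.fr2, List.head?_cons, Option.some.injEq] at hs
    subst hs
    refine Nx_of rfl ?_
    rw [hd]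
    simp only [Nx_dd, cr, if_true]
    nlinarith
  · intro s s' hs hs'
    simp only [Fam.fr2, List.getLast?_cons_cons, List.getLast?_singleton, Option.some.injEq] at hs
    subst hs
    obtain ⟨hs', hm⟩ := Nx_head hs'
    obtain ⟨l, y, hl, hd⟩ := Nx_inner_d h h.n_pos hs'
    refine Nx_of hm ?_
    rw [hd]
    simp only [Nx_dd, cr, Fam.P, if_true]
    nlinarith

/-- Upper strands are concave, lower strands are convex. Proof: three neighbours `p, q, r`: the slope on `[q, r]` is at most the slope on `[p, q]` for a concave function (`ConcaveOn.slope_anti_adjacent`), at least for a convex function. -/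
theorem Fam.Ok.chainR_blk (h : S.Ok) (hc : S.Cw) {i : ℕ} (hi : i < S.n) (τ : Bool) :
    (S.blk i τ).IsChain NxtR := by
  rw [Fam.blk, List.isChain_append]
  refine ⟨Nx_inner_chain NxtR (fun hτ p q r => by subst hτ; exact Nx_upR h hc hi)
    (fun hτ p q r => by subst hτ; exact Nx_dnR h hc hi), List.isChain_singleton _, ?_⟩
  intro s hs s' hs'
  simp only [List.head?_cons, Option.mem_def, Option.some.injEq] at hs'
  subst hs'
  obtain ⟨l, y, hl, hd⟩ := Nx_inner_d h hi (List.mem_of_mem_getLast? hs)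
  obtain ⟨-, ⟨l', hl', hd'⟩, -, -⟩ := h.conn_point hi τ
  right
  rw [hd, hd']
  have := mul_pos hl hl'
  cases τ with
  | true => simp only [cr, if_true]; nlinarith
  | false => simp only [cr, Bool.false_eq_true, if_false]; nlinarith

/-- All edges have positive length. -/
theorem Fam.Ok.ne_blk (h : S.Ok) {i : ℕ} (hi : i < S.n) {τ : Bool} {s : Seg} (hs : s ∈ S.blk i τ) : s.p ≠ s.q := by
  intro he
  have hd0 : s.d = 0 := by rw [Seg.d, he, sub_self]
  rw [Fam.blk, List.mem_append, List.mem_singleton] at hs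
  rcases hs with hs | rfl
  · obtain ⟨l, y, hl, hd⟩ := Nx_inner_d h hi hs
    rw [hd0] at hd
    have := congrArg Prod.fst hd
    cases τ with
    | true => simp at this; linarith
    | false => simp at this; linarith
  · obtain ⟨-, ⟨l, hl, hd⟩, -, -⟩ := h.conn_point hi τ
    rw [hd0] at hd
    have := congrArg Prod.snd hd
    cases τ with
    | true => simp at this; linarith
    | false => simp at this; linarith

theorem Fam.Ok.ne_fr (h : S.Ok) {s : Seg} (hs : s ∈ S.fr1 ∨ s ∈ S.fr2) : s.p ≠ s.q := by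
  obtain ⟨hH, h1, h2⟩ := Nx_H h
  intro he
  simp only [Fam.fr1, Fam.fr2, List.mem_cons, List.not_mem_nil, or_false] at hs
  rcases hs with (rfl | rfl | rfl | rfl | rfl | rfl | rfl | rfl) | (rfl | rfl)
  all_goals
    simp only [Fam.P, Prod.mk.injEq] at he
    obtain ⟨ha, hb⟩ := he
    linarith

end Pool.Agent.SO
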