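import Pool.Agent.Lib.MP_2f17d2_lc.SO.Defs

/-!
# The code attached to a wiring diagram

Every wire `i` is replaced by a lens: an upper strand `(i, true)` and a lower strand `(i, false)` which cross in two points
`A_i` (on the left, label `1 + 2 i`) and `B_i` (on the right, label `2 + 2 i`), between which all the crossings with the other
wires lie. The crossing number `e`, of the wires `i < j` (`i` below `j` on the left) becomes four crossings `lab n e a b`, the crossing
of the strands `(i, a)` and `(j, b)`. Upper strands are traversed from left to right, lower strands from right to left.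
-/

set_option autoImplicit false

namespace Pool.Agent.SO

/-- The label of the crossing of the strand of type `a` of the first wire and the strand of type `b` of the second wire at the
crossing number `e` of the wiring diagram. -/
def lab (n e : ℕ) (a b : Bool) : ℕ := 2 * n + 1 + 4 * e + 2 * a.toNat + b.toNat

/-- The passages of the strand `(i, τ)` at the crossing number `e`, from left to right; `q` is the pair of wires which cross. -/
def mk (n i : ℕ) (τ : Bool) (e : ℕ) (q : ℕ × ℕ) : List (ℕ × Bool) :=
  if q.1 = i then [(lab n e τ false, τ), (lab n e τ true, !τ)]
  else if q.2 = i then [(lab n e true τ, τ), (lab n e false τ, !τ)]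
  else []

/-- The passages of the strand `(i, τ)` through the strands of the other wires, from left to right. -/
def cl (n : ℕ) (E : List (ℕ × ℕ)) (i : ℕ) (τ : Bool) : List (ℕ × Bool) :=
  (List.range E.length).flatMap fun e => mk n i τ e (E.getD e (0, 0))

/-- All passages of the strand `(i, τ)`, from left to right. -/
def chain (n : ℕ) (E : List (ℕ × ℕ)) (i : ℕ) (τ : Bool) : List (ℕ × Bool) :=
  (1 + 2 * i, τ) :: (cl n E i τ ++ [(2 + 2 * i, !τ)])

/-- All passages of the strand `(i, τ)` in the order of traversal. -/
def sw (n : ℕ) (E : List (ℕ × ℕ)) (i : ℕ) (τ : Bool) : List (ℕ × Bool) :=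
  if τ then chain n E i true else (chain n E i false).reverse

/-- The first round: one strand of every wire. -/
def part1 (n : ℕ) (E : List (ℕ × ℕ)) : List (ℕ × Bool) :=
  (List.range n).flatMap fun i => sw n E i (decide (i % 2 = 0))

/-- The second round: the other strand of every wire. -/
def part2 (n : ℕ) (E : List (ℕ × ℕ)) : List (ℕ × Bool) :=
  (List.range n).flatMap fun i => sw n E i (decide (i % 2 = 1))

/-- The code: first round, the crossing `0` (a loop around everything), second round. -/
def redE (n : ℕ) (E : List (ℕ × ℕ)) : Code :=
  ⟨part1 n E ++ ([(0, false), (0, true)] ++ part2 n E), (part1 n E).length + 1, true⟩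

/-- The code of the wiring diagram `w` with `n` wires, `n` even. -/
def red (n : ℕ) (w : List ℕ) : Code := redE n (evs (List.range n) w)

/-- An even number of wires: if `n` is odd, a steep descending line to the left of all crossings is added. -/
def evenW (n : ℕ) (w : List ℕ) : ℕ × List ℕ :=
  if n % 2 = 0 then (n, w) else (n + 1, (List.range n).reverse ++ w.map (· + 1))

/-- The reduction. -/
def redF (p : ℕ × List ℕ) : Code := red (evenW p.1 p.2).1 (evenW p.1 p.2).2

end Pool.Agent.SO
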