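import Pool.Agent.Lib.MP_2f17d2_lc.SO.Ro

/-!
# Task Rf: connectors and frame
-/

set_option autoImplicit false
set_option linter.unusedTactic false
set_option linter.unreachableTactic false

namespace Pool.Agent.SO

variable {S : Fam}

private theorem Rf_lt {a b c x : ℝ} (h0 : 0 < x) (h1 : x < 1) (ha : a ≤ c) (hb : b ≤ c)
    (h : a < c ∨ b < c) : a + x * (b - a) < c := by
  rcases h with h | h
  · nlinarith [mul_nonneg h0.le (sub_nonneg.mpr hb), mul_pos (sub_pos.mpr h1) (sub_pos.mpr h)]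
  · nlinarith [mul_nonneg (sub_nonneg.mpr h1.le) (sub_nonneg.mpr ha), mul_pos h0 (sub_pos.mpr h)]

private theorem Rf_ge {a b c y : ℝ} (h0 : 0 ≤ y) (h1 : y ≤ 1) (ha : c ≤ a) (hb : c ≤ b) :
    c ≤ a + y * (b - a) := by
  nlinarith [mul_nonneg h0 (sub_nonneg.mpr hb), mul_nonneg (sub_nonneg.mpr h1) (sub_nonneg.mpr ha)]

private theorem Rf_ne {a b a' b' x y : ℝ} (h0 : 0 < x) (h1 : x < 1) (k0 : 0 ≤ y) (k1 : y ≤ 1)
    (h : (a ≤ a' ∧ a ≤ b' ∧ b ≤ a' ∧ b ≤ b' ∧ ((a < a' ∧ a < b') ∨ (b < a' ∧ b < b'))) ∨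
      (a' ≤ a ∧ b' ≤ a ∧ a' ≤ b ∧ b' ≤ b ∧ ((a' < a ∧ b' < a) ∨ (a' < b ∧ b' < b)))) :
    a + x * (b - a) ≠ a' + y * (b' - a') := by
  rcases h with ⟨h2, h3, h4, h5, h6⟩ | ⟨h2, h3, h4, h5, h6⟩
  · have e1 : a + x * (b - a) < min a' b' := by
      refine Rf_lt h0 h1 (le_min h2 h3) (le_min h4 h5) ?_
      rcases h6 with h6 | h6
      · exact Or.inl (lt_min h6.1 h6.2)
      · exact Or.inr (lt_min h6.1 h6.2)
    have e2 : min a' b' ≤ a' + y * (b' - a') := Rf_ge k0 k1 (min_le_left _ _) (min_le_right _ _)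
    exact (lt_of_lt_of_le e1 e2).ne
  · have e1 : -a + x * (-b - -a) < min (-a') (-b') := by
      refine Rf_lt h0 h1 (le_min (by linarith) (by linarith)) (le_min (by linarith) (by linarith)) ?_
      rcases h6 with h6 | h6
      · exact Or.inl (lt_min (by linarith [h6.1]) (by linarith [h6.2]))
      · exact Or.inr (lt_min (by linarith [h6.1]) (by linarith [h6.2]))
    have e2 : min (-a') (-b') ≤ -a' + y * (-b' - -a') :=
      Rf_ge k0 k1 (min_le_left _ _) (min_le_right _ _)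
    have e3 := lt_of_lt_of_le e1 e2
    intro e
    have e4 : -a + x * (-b - -a) = -a' + y * (-b' - -a') := by linarith
    exact e3.ne e4

/-- A separating coordinate for the interior of the first and the second segment. -/
private def Rf_Sep (a b a' b' : ℝ) : Prop :=
  (a ≤ a' ∧ a ≤ b' ∧ b ≤ a' ∧ b ≤ b' ∧ ((a < a' ∧ a < b') ∨ (b < a' ∧ b < b'))) ∨
      (a' ≤ a ∧ b' ≤ a ∧ a' ≤ b ∧ b' ≤ b ∧ ((a' < a ∧ b' < a) ∨ (a' < b ∧ b' < b)))

private theorem Rf_dsj {s s' : Seg}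
    (h : Rf_Sep s.p.1 s.q.1 s'.p.1 s'.q.1 ∨ Rf_Sep s.p.2 s.q.2 s'.p.2 s'.q.2)
    (h' : Rf_Sep s'.p.1 s'.q.1 s.p.1 s.q.1 ∨ Rf_Sep s'.p.2 s'.q.2 s.p.2 s.q.2) : Dsj s s' := by
  constructor
  · intro x y h0 h1 k0 k1 e
    rcases h with h | h
    · refine Rf_ne h0 h1 k0 k1 h ?_
      have := congrArg Prod.fst e
      simpa [Seg.d] using this
    · refine Rf_ne h0 h1 k0 k1 h ?_
      have := congrArg Prod.snd e
      simpa [Seg.d] using this
  · intro x y h0 h1 k0 k1 e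
    rcases h' with h | h
    · refine Rf_ne k0 k1 h0 h1 h ?_
      have := congrArg Prod.fst e
      simpa [Seg.d] using this.symm
    · refine Rf_ne k0 k1 h0 h1 h ?_
      have := congrArg Prod.snd e
      simpa [Seg.d] using this.symm

private theorem Rf_rel {s s' : Seg}
    (h : Rf_Sep s.p.1 s.q.1 s'.p.1 s'.q.1 ∨ Rf_Sep s.p.2 s.q.2 s'.p.2 s'.q.2)
    (h' : Rf_Sep s'.p.1 s'.q.1 s.p.1 s.q.1 ∨ Rf_Sep s'.p.2 s'.q.2 s.p.2 s.q.2)
    (hn : s.p.1 ≠ s'.p.1 ∨ s.p.2 ≠ s'.p.2) (hm : s.m = none ∨ s'.m = none) : Rel s s' := by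
  refine ⟨Rf_dsj h h', ?_, ?_⟩
  · constructor
    · intro e
      rcases hn with hn | hn
      · exact absurd (congrArg Prod.fst e) hn
      · exact absurd (congrArg Prod.snd e) hn
    · rintro ⟨a, b, b', h1, h2⟩
      rcases hm with hm | hm
      · rw [hm] at h1
        cases h1
      · rw [hm] at h2
        cases h2
  · intro a b b' h1 h2
    rcases hm with hm | hm
    · rw [hm] at h1
      cases h1
    · rw [hm] at h2
      cases h2

/-- Strict separation. -/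
private theorem Rf_sep1 {a b a' b' : ℝ} (h1 : a < a') (h2 : a < b') (h3 : b < a') (h4 : b < b') :
    Rf_Sep a b a' b' := Or.inl ⟨h1.le, h2.le, h3.le, h4.le, Or.inl ⟨h1, h2⟩⟩

private theorem Rf_sep2 {a b a' b' : ℝ} (h1 : a' < a) (h2 : b' < a) (h3 : a' < b) (h4 : b' < b) :
    Rf_Sep a b a' b' := Or.inr ⟨h1.le, h2.le, h3.le, h4.le, Or.inl ⟨h1, h2⟩⟩

private theorem Fam.Ok.Rf_conn_true (h : S.Ok) {i : ℕ} (hi : i < S.n) :
    ∃ b, S.conn i true = ⟨(2, S.F i true 2), (2, b), none⟩ ∧ b < S.F i true 2 ∧ -S.H ≤ b ∧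
      (∀ j, i < j → j < S.n → S.F j true 2 < b) ∧ S.F i true 2 < S.F 0 false 2 ∧
      S.F i true 2 < S.H := by
  have h0 : S.F i true 2 < S.F 0 false 2 := by
    rcases Nat.eq_zero_or_pos i with h1 | h1
    · subst h1
      exact h.own_right 0 hi 2 (by norm_num) le_rfl
    · exact h.right_lt h1 hi false true
  have hb := h.bound i hi true 2 (by norm_num) le_rfl
  by_cases h1 : i + 1 < S.n
  · refine ⟨S.F (i + 1) false 2, ?_, h.right_lt (Nat.lt_succ_self i) h1 true false,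
      (h.bound (i + 1) h1 false 2 (by norm_num) le_rfl).1.le, ?_, h0, hb.2⟩
    · simp [Fam.conn, h1, Fam.P]
    · intro j hj hjn
      rcases Nat.lt_or_ge (i + 1) j with h2 | h2
      · exact h.right_lt h2 hjn false true
      · have : j = i + 1 := by omega
        subst this
        exact h.own_right _ hjn 2 (by norm_num) le_rfl
  · refine ⟨-S.H, ?_, hb.1, le_rfl, ?_, h0, hb.2⟩
    · simp [Fam.conn, h1, Fam.P]
    · intro j hj hjn
      omega

private theorem Fam.Ok.Rf_conn_false (h : S.Ok) {i : ℕ} (hi : i < S.n) :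
    ∃ b, S.conn i false = ⟨(-2, S.F i false (-2)), (-2, b), none⟩ ∧ S.F i false (-2) < b ∧ b ≤ S.H ∧
      (∀ j, i < j → j < S.n → b < S.F j false (-2)) ∧ S.F 0 true (-2) < S.F i false (-2) ∧
      -S.H < S.F i false (-2) := by
  have h0 : S.F 0 true (-2) < S.F i false (-2) := by
    rcases Nat.eq_zero_or_pos i with h1 | h1
    · subst h1
      exact h.own_left 0 hi (-2) le_rfl (by norm_num)
    · exact h.left_lt h1 hi true false
  have hb := h.bound i hi false (-2) le_rfl (by norm_num)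
  by_cases h1 : i + 1 < S.n
  · refine ⟨S.F (i + 1) true (-2), ?_, h.left_lt (Nat.lt_succ_self i) h1 false true,
      (h.bound (i + 1) h1 true (-2) le_rfl (by norm_num)).2.le, ?_, h0, hb.1⟩
    · simp [Fam.conn, h1, Fam.P]
    · intro j hj hjn
      rcases Nat.lt_or_ge (i + 1) j with h2 | h2
      · exact h.left_lt h2 hjn true false
      · have : j = i + 1 := by omega
        subst this
        exact h.own_left _ hjn (-2) le_rfl (by norm_num)
  · refine ⟨S.H, ?_, hb.2, le_rfl, ?_, h0, hb.1⟩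
    · simp [Fam.conn, h1, Fam.P]
    · intro j hj hjn
      omega

private theorem Fam.Ok.Rf_tt (h : S.Ok) {i j : ℕ} (hij : i < j) (hj : j < S.n) :
    Rel (S.conn i true) (S.conn j true) := by
  obtain ⟨b, e, h1, h2, h3, -, -⟩ := h.Rf_conn_true (hij.trans hj)
  obtain ⟨c, e', k1, k2, -, -, -⟩ := h.Rf_conn_true hj
  have h4 := h3 j hij hj
  rw [e, e']
  refine Rf_rel (Or.inr (Rf_sep2 ?_ ?_ ?_ ?_)) (Or.inr (Rf_sep1 ?_ ?_ ?_ ?_))
    (Or.inr (ne_of_gt ?_)) (Or.inl rfl) <;> dsimp only <;> linarith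

private theorem Fam.Ok.Rf_ff (h : S.Ok) {i j : ℕ} (hij : i < j) (hj : j < S.n) :
    Rel (S.conn i false) (S.conn j false) := by
  obtain ⟨b, e, h1, h2, h3, -, -⟩ := h.Rf_conn_false (hij.trans hj)
  obtain ⟨c, e', k1, k2, -, -, -⟩ := h.Rf_conn_false hj
  have h4 := h3 j hij hj
  rw [e, e']
  refine Rf_rel (Or.inr (Rf_sep1 ?_ ?_ ?_ ?_)) (Or.inr (Rf_sep2 ?_ ?_ ?_ ?_))
    (Or.inr (ne_of_lt ?_)) (Or.inl rfl) <;> dsimp only <;> linarith

private theorem Fam.Ok.Rf_tf (h : S.Ok) {i j : ℕ} (hi : i < S.n) (hj : j < S.n) :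
    Rel (S.conn i true) (S.conn j false) := by
  obtain ⟨b, e, -, -, -, -, -⟩ := h.Rf_conn_true hi
  obtain ⟨c, e', -, -, -, -, -⟩ := h.Rf_conn_false hj
  rw [e, e']
  refine Rf_rel (Or.inl (Rf_sep2 ?_ ?_ ?_ ?_)) (Or.inl (Rf_sep1 ?_ ?_ ?_ ?_))
    (Or.inl (ne_of_gt ?_)) (Or.inl rfl) <;> dsimp only <;> norm_num

/-- Proof. If `τ ≠ τ'` the abscissae are `2` and `-2`. If `τ = τ' = true`: for `i < j` the connector `i` is the interval `[F (i + 1) false 2, F i true 2]` and the connector `j` is below `F j true 2 < F (i + 1) false 2` (`j ≥ i + 1`, `own_right`, `right_lt`). In the same way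
`τ = τ' = false`. -/
theorem Fam.Ok.rel_conn (h : S.Ok) {i j : ℕ} (hi : i < S.n) (hj : j < S.n) {τ τ' : Bool}
    (hne : (i, τ) ≠ (j, τ')) : Rel (S.conn i τ) (S.conn j τ') := by
  cases τ <;> cases τ'
  · rcases lt_trichotomy i j with h1 | h1 | h1
    · exact h.Rf_ff h1 hj
    · exact absurd (by rw [h1]) hne
    · exact (h.Rf_ff h1 hi).symm
  · exact (h.Rf_tf hj hi).symm
  · exact h.Rf_tf hi hj
  · rcases lt_trichotomy i j with h1 | h1 | h1
    · exact h.Rf_tt h1 hj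
    · exact absurd (by rw [h1]) hne
    · exact (h.Rf_tt h1 hi).symm

/-- Proof: a case distinction for the ten edges of the frame. The connectors have `x = 2`, `-H ≤ y < F 0 false 2` or `x = -2`, `F 0 true (-2) < y ≤ H` (`y = ± H` only for the last connector at its end point). For two axis-parallel segments
without common interior points the claim is linear arithmetic. `0 < H` follows from `bound`. -/
theorem Fam.Ok.rel_conn_fr (h : S.Ok) {i : ℕ} (hi : i < S.n) (τ : Bool)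
    {s' : Seg} (hs' : s' ∈ S.fr1 ∨ s' ∈ S.fr2) : Rel (S.conn i τ) s' := by
  have H0 := h.bound 0 h.n_pos false 2 (by norm_num) le_rfl
  have H1 := h.bound 0 h.n_pos true (-2) le_rfl (by norm_num)
  have hH : 0 < S.H := by linarith [H0.1, H0.2]
  obtain ⟨H0a, H0b⟩ := H0
  obtain ⟨H1a, H1b⟩ := H1
  simp only [Fam.fr1, Fam.fr2, List.mem_cons, List.not_mem_nil, or_false] at hs'
  cases τ
  · obtain ⟨b, e, h1, h2, -, h4, h5⟩ := h.Rf_conn_false hi
    rw [e]
    rcases hs' with (rfl | rfl | rfl | rfl | rfl | rfl | rfl | rfl) | (rfl | rfl)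
    all_goals
      refine Rf_rel ?_ ?_ ?_ (Or.inl rfl) <;> dsimp only [Fam.P]
    all_goals
      first
      | (left; left; refine ⟨?_, ?_, ?_, ?_, Or.inl ⟨?_, ?_⟩⟩ <;> linarith)
      | (left; left; refine ⟨?_, ?_, ?_, ?_, Or.inr ⟨?_, ?_⟩⟩ <;> linarith)
      | (left; right; refine ⟨?_, ?_, ?_, ?_, Or.inl ⟨?_, ?_⟩⟩ <;> linarith)
      | (left; right; refine ⟨?_, ?_, ?_, ?_, Or.inr ⟨?_, ?_⟩⟩ <;> linarith)
      | (right; left; refine ⟨?_, ?_, ?_, ?_, Or.inl ⟨?_, ?_⟩⟩ <;> linarith)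
      | (right; left; refine ⟨?_, ?_, ?_, ?_, Or.inr ⟨?_, ?_⟩⟩ <;> linarith)
      | (right; right; refine ⟨?_, ?_, ?_, ?_, Or.inl ⟨?_, ?_⟩⟩ <;> linarith)
      | (right; right; refine ⟨?_, ?_, ?_, ?_, Or.inr ⟨?_, ?_⟩⟩ <;> linarith)
      | (left; apply ne_of_gt; linarith)
      | (left; apply ne_of_lt; linarith)
      | (right; apply ne_of_gt; linarith)
      | (right; apply ne_of_lt; linarith)
  · obtain ⟨b, e, h1, h2, -, h4, h5⟩ := h.Rf_conn_true hi
    rw [e]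
    rcases hs' with (rfl | rfl | rfl | rfl | rfl | rfl | rfl | rfl) | (rfl | rfl)
    all_goals
      refine Rf_rel ?_ ?_ ?_ (Or.inl rfl) <;> dsimp only [Fam.P]
    all_goals
      first
      | (left; left; refine ⟨?_, ?_, ?_, ?_, Or.inl ⟨?_, ?_⟩⟩ <;> linarith)
      | (left; left; refine ⟨?_, ?_, ?_, ?_, Or.inr ⟨?_, ?_⟩⟩ <;> linarith)
      | (left; right; refine ⟨?_, ?_, ?_, ?_, Or.inl ⟨?_, ?_⟩⟩ <;> linarith)
      | (left; right; refine ⟨?_, ?_, ?_, ?_, Or.inr ⟨?_, ?_⟩⟩ <;> linarith)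
      | (right; left; refine ⟨?_, ?_, ?_, ?_, Or.inl ⟨?_, ?_⟩⟩ <;> linarith)
      | (right; left; refine ⟨?_, ?_, ?_, ?_, Or.inr ⟨?_, ?_⟩⟩ <;> linarith)
      | (right; right; refine ⟨?_, ?_, ?_, ?_, Or.inl ⟨?_, ?_⟩⟩ <;> linarith)
      | (right; right; refine ⟨?_, ?_, ?_, ?_, Or.inr ⟨?_, ?_⟩⟩ <;> linarith)
      | (left; apply ne_of_gt; linarith)
      | (left; apply ne_of_lt; linarith)
      | (right; apply ne_of_gt; linarith)
      | (right; apply ne_of_lt; linarith)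

/-- The edges of the frame; the loop crosses itself at `(-2, H)`: the first passage goes up, the second passage to the right, `cr (0, 1) (5, 0) < 0`. -/
theorem Fam.Ok.pairwise_fr (h : S.Ok) : (S.fr1 ++ S.fr2).Pairwise Rel := by
  have H0 := h.bound 0 h.n_pos false 2 (by norm_num) le_rfl
  have H1 := h.bound 0 h.n_pos true (-2) le_rfl (by norm_num)
  have hH : 0 < S.H := by linarith [H0.1, H0.2]
  obtain ⟨H0a, H0b⟩ := H0
  obtain ⟨H1a, H1b⟩ := H1
  have hspec : Rel ⟨(-2, S.H), (-2, S.H + 1), some (0, false)⟩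
      ⟨(-2, S.H), (2, S.H), some (0, true)⟩ := by
    refine ⟨Rf_dsj ?_ ?_, ?_, ?_⟩
    · dsimp only
      right; right; refine ⟨?_, ?_, ?_, ?_, Or.inr ⟨?_, ?_⟩⟩ <;> linarith
    · dsimp only
      left; right; refine ⟨?_, ?_, ?_, ?_, Or.inr ⟨?_, ?_⟩⟩ <;> linarith
    · exact ⟨fun _ => ⟨0, false, true, rfl, rfl⟩, fun _ => rfl⟩
    · intro a b b' h1 h2
      simp only [Option.some.injEq, Prod.mk.injEq] at h1 h2
      obtain ⟨-, rfl⟩ := h1
      obtain ⟨-, rfl⟩ := h2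
      have : cr (Seg.d ⟨(-2, S.H), (-2, S.H + 1), some (0, false)⟩)
          (Seg.d ⟨(-2, S.H), (2, S.H), some (0, true)⟩) = -4 := by
        simp only [cr, Seg.d, Prod.fst_sub, Prod.snd_sub]
        ring
      rw [this]
      norm_num
  simp only [Fam.fr1, Fam.fr2, List.cons_append, List.nil_append, List.pairwise_cons,
    List.mem_cons, List.not_mem_nil, or_false, forall_eq_or_imp, forall_eq, List.Pairwise.nil,
    and_true, false_imp_iff, implies_true]
  repeat' apply And.intro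
  all_goals first
    | exact hspec
    | (refine Rf_rel ?_ ?_ ?_ (Or.inl rfl) <;> dsimp only [Fam.P])
    | (refine Rf_rel ?_ ?_ ?_ (Or.inr rfl) <;> dsimp only [Fam.P])
  all_goals
    first
      | (left; left; refine ⟨?_, ?_, ?_, ?_, Or.inl ⟨?_, ?_⟩⟩ <;> linarith)
      | (left; left; refine ⟨?_, ?_, ?_, ?_, Or.inr ⟨?_, ?_⟩⟩ <;> linarith)
      | (left; right; refine ⟨?_, ?_, ?_, ?_, Or.inl ⟨?_, ?_⟩⟩ <;> linarith)
      | (left; right; refine ⟨?_, ?_, ?_, ?_, Or.inr ⟨?_, ?_⟩⟩ <;> linarith)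
      | (right; left; refine ⟨?_, ?_, ?_, ?_, Or.inl ⟨?_, ?_⟩⟩ <;> linarith)
      | (right; left; refine ⟨?_, ?_, ?_, ?_, Or.inr ⟨?_, ?_⟩⟩ <;> linarith)
      | (right; right; refine ⟨?_, ?_, ?_, ?_, Or.inl ⟨?_, ?_⟩⟩ <;> linarith)
      | (right; right; refine ⟨?_, ?_, ?_, ?_, Or.inr ⟨?_, ?_⟩⟩ <;> linarith)
      | (left; apply ne_of_gt; linarith)
      | (left; apply ne_of_lt; linarith)
      | (right; apply ne_of_gt; linarith)
      | (right; apply ne_of_lt; linarith)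

end Pool.Agent.SO
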