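import Pool.Agent.Lib.MP_2f17d2_lc.Mg.G001

/-!
# Task Ro: edges of strands and edges of the frame
-/

set_option autoImplicit false

namespace Pool.Agent.SO

variable {S : Fam}

/-- The order of the strands on the line `x = 2`: from above to below `F 0 false, F 0 true, F 1 false, F 1 true, ...`. Proof: `own_right`, `once`, `cross_gt`. -/
theorem Fam.Ok.right_lt (h : S.Ok) {i j : ℕ} (hij : i < j) (hj : j < S.n) (τ τ' : Bool) :
    S.F j τ' 2 < S.F i τ 2 := by
  obtain ⟨e, he, heq, -⟩ := h.once i j hij hj
  refine h.cross_gt e he i j heq τ τ' 2 ?_ le_rfl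
  have := (h.X_mem e he τ τ').2
  linarith

/-- The order on the line `x = -2`: from below to above `F 0 true, F 0 false, F 1 true, F 1 false, ...`. -/
theorem Fam.Ok.left_lt (h : S.Ok) {i j : ℕ} (hij : i < j) (hj : j < S.n) (τ τ' : Bool) :
    S.F i τ (-2) < S.F j τ' (-2) := by
  obtain ⟨e, he, heq, -⟩ := h.once i j hij hj
  refine h.cross_lt e he i j heq τ τ' (-2) le_rfl ?_
  have := (h.X_mem e he τ τ').1
  linarith

private theorem Ro_own2 (h : S.Ok) {i : ℕ} (hi : i < S.n) (τ : Bool) : S.F i τ 2 ≤ S.F i false 2 := by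
  cases τ
  · exact le_rfl
  · exact (h.own_right i hi 2 (by norm_num) le_rfl).le

private theorem Ro_own2' (h : S.Ok) {i : ℕ} (hi : i < S.n) (τ : Bool) : S.F i true 2 ≤ S.F i τ 2 := by
  cases τ
  · exact (h.own_right i hi 2 (by norm_num) le_rfl).le
  · exact le_rfl

private theorem Ro_ownm (h : S.Ok) {i : ℕ} (hi : i < S.n) (τ : Bool) :
    S.F i τ (-2) ≤ S.F i false (-2) := by
  cases τ
  · exact le_rfl
  · exact (h.own_left i hi (-2) le_rfl (by norm_num)).le

private theorem Ro_ownm' (h : S.Ok) {i : ℕ} (hi : i < S.n) (τ : Bool) :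
    S.F i true (-2) ≤ S.F i τ (-2) := by
  cases τ
  · exact (h.own_left i hi (-2) le_rfl (by norm_num)).le
  · exact le_rfl

/-- A vertical segment with parameters. -/
private theorem Ro_seg (c a b t : ℝ) (m : Option (ℕ × Bool)) :
    ((⟨(c, a), (c, b), m⟩ : Seg).p + t • (⟨(c, a), (c, b), m⟩ : Seg).d) = (c, a + t * (b - a)) := by
  simp [Seg.d]

/-- The points of the connectors: `x = 2` or `x = -2`; at interior points the height is different from all `F j τ' (±2)`; the direction is down (`τ = true`) or up (`τ = false`). -/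
theorem Fam.Ok.conn_point (h : S.Ok) {i : ℕ} (hi : i < S.n) (τ : Bool) :
    (S.conn i τ).m = none ∧ (∃ l : ℝ, 0 < l ∧ (S.conn i τ).d = (0, if τ then -l else l)) ∧
      (∀ t : ℝ, 0 ≤ t → t ≤ 1 → ((S.conn i τ).p + t • (S.conn i τ).d).1 = if τ then 2 else -2) ∧
      (∀ t : ℝ, 0 < t → t < 1 → ∀ j < S.n, ∀ τ', ((S.conn i τ).p + t • (S.conn i τ).d).2 ≠
        S.F j τ' (if τ then 2 else -2)) := by
  cases τ
  · -- lower strands: up
    set Y : ℝ := if i + 1 < S.n then S.F (i + 1) true (-2) else S.H with hY
    have hYlt : S.F i false (-2) < Y := by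
      rw [hY]
      split_ifs with hh
      · exact h.left_lt (Nat.lt_succ_self i) hh false true
      · exact (h.bound i hi false (-2) le_rfl (by norm_num)).2
    have hc : S.conn i false = ⟨((-2 : ℝ), S.F i false (-2)), ((-2 : ℝ), Y), none⟩ := by
      rw [hY]
      rfl
    rw [hc]
    refine ⟨rfl, ⟨Y - S.F i false (-2), by linarith, ?_⟩, ?_, ?_⟩
    · simp [Seg.d]
    · intro t _ _
      rw [Ro_seg]
      simp
    · intro t ht0 ht1 j hj τ'
      rw [Ro_seg]
      simp only [Bool.false_eq_true, if_false]
      have p1 : 0 < t * (Y - S.F i false (-2)) := mul_pos ht0 (by linarith)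
      have p2 : 0 < (1 - t) * (Y - S.F i false (-2)) := mul_pos (by linarith) (by linarith)
      have lo : S.F i false (-2) < S.F i false (-2) + t * (Y - S.F i false (-2)) := by linarith
      have up : S.F i false (-2) + t * (Y - S.F i false (-2)) < Y := by linarith
      rcases Nat.lt_trichotomy j i with hji | hji | hji
      · have := h.left_lt hji hi τ' false
        exact ne_of_gt (by linarith)
      · subst hji
        have := Ro_ownm h hi τ'
        exact ne_of_gt (by linarith)
      · have h1 : i + 1 < S.n := by omega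
        have hYe : Y = S.F (i + 1) true (-2) := by rw [hY, if_pos h1]
        have h2 : S.F (i + 1) true (-2) ≤ S.F j τ' (-2) := by
          rcases Nat.lt_or_ge (i + 1) j with h3 | h3
          · exact (h.left_lt h3 hj true τ').le
          · have : j = i + 1 := by omega
            subst this
            exact Ro_ownm' h hj τ'
        exact ne_of_lt (by linarith)
  · -- upper strands: down
    set Y : ℝ := if i + 1 < S.n then S.F (i + 1) false 2 else -S.H with hY
    have hYlt : Y < S.F i true 2 := by
      rw [hY]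
      split_ifs with hh
      · exact h.right_lt (Nat.lt_succ_self i) hh true false
      · exact (h.bound i hi true 2 (by norm_num) le_rfl).1
    have hc : S.conn i true = ⟨((2 : ℝ), S.F i true 2), ((2 : ℝ), Y), none⟩ := by
      rw [hY]
      rfl
    rw [hc]
    refine ⟨rfl, ⟨S.F i true 2 - Y, by linarith, ?_⟩, ?_, ?_⟩
    · simp [Seg.d]
    · intro t _ _
      rw [Ro_seg]
      simp
    · intro t ht0 ht1 j hj τ'
      rw [Ro_seg]
      simp only [if_true]
      have p1 : 0 < t * (S.F i true 2 - Y) := mul_pos ht0 (by linarith)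
      have p2 : 0 < (1 - t) * (S.F i true 2 - Y) := mul_pos (by linarith) (by linarith)
      have lo : Y < S.F i true 2 + t * (Y - S.F i true 2) := by linarith
      have up : S.F i true 2 + t * (Y - S.F i true 2) < S.F i true 2 := by linarith
      rcases Nat.lt_trichotomy j i with hji | hji | hji
      · have := h.right_lt hji hi τ' true
        exact ne_of_lt (by linarith)
      · subst hji
        have := Ro_own2' h hi τ'
        exact ne_of_lt (by linarith)
      · have h1 : i + 1 < S.n := by omega
        have hYe : Y = S.F (i + 1) false 2 := by rw [hY, if_pos h1]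
        have h2 : S.F j τ' 2 ≤ S.F (i + 1) false 2 := by
          rcases Nat.lt_or_ge (i + 1) j with h3 | h3
          · exact (h.right_lt h3 hj false τ').le
          · have : j = i + 1 := by omega
            subst this
            exact Ro_own2 h hj τ'
        exact ne_of_gt (by linarith)

/-- Edges of strands and vertical unmarked segments over `2` or `-2`. -/
private theorem Ro_vert (h : S.Ok) {i : ℕ} (hi : i < S.n) {τ : Bool} {s s' : Seg}
    (hs : s ∈ S.inner i τ) (c : ℝ) (hc : c = 2 ∨ c = -2) (hm : s'.m = none)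
    (h1 : ∀ t : ℝ, 0 ≤ t → t ≤ 1 → (s'.p + t • s'.d).1 = c)
    (h2 : ∀ t : ℝ, 0 < t → t < 1 → (s'.p + t • s'.d).2 ≠ S.F i τ c) (h3 : s.p ≠ s'.p) :
    Rel s s' := by
  obtain ⟨p, q, hpq, -, hcl, hop⟩ := h.inner_point hi hs
  obtain ⟨-, -, -, hp, hq, -⟩ := h.adj hi hpq
  refine ⟨⟨?_, ?_⟩, ?_, ?_⟩
  · intro x y hx0 hx1 hy0 hy1 heq
    obtain ⟨x0, hx2, hx3, hx4⟩ := hop x hx0 hx1
    have e := h1 y hy0 hy1
    rw [← heq, hx4] at e
    have e' : x0 = c := e
    rcases hc with rfl | rfl <;> linarith
  · intro x y hx0 hx1 hy0 hy1 heq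
    obtain ⟨x0, hx2, hx3, hx4⟩ := hcl x hx0 hx1
    have e := h1 y hy0.le hy1.le
    rw [← heq, hx4] at e
    have e' : x0 = c := e
    subst e'
    refine h2 y hy0 hy1 ?_
    rw [← heq, hx4]
    rfl
  · constructor
    · intro hh
      exact absurd hh h3
    · rintro ⟨a, b, b', -, hb⟩
      rw [hm] at hb
      exact absurd hb (by simp)
  · intro a b b' _ hb
    rw [hm] at hb
    exact absurd hb (by simp)

private theorem Ro_mark_pos (h : S.Ok) {i : ℕ} (hi : i < S.n) {τ : Bool} {s : Seg}
    (hs : s ∈ S.inner i τ) {a : ℕ} {b : Bool} (hm : s.m = some (a, b)) : 0 < a := by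
  obtain ⟨p, q, hpq, hcase, -, -⟩ := h.inner_point hi hs
  obtain ⟨hp, hq, -⟩ := h.adj hi hpq
  have key : ∀ r ∈ S.xs i τ, r.2 = some (a, b) → 0 < a := by
    rintro ⟨x, m⟩ hr hr2
    dsimp only at hr2
    subst hr2
    rw [h.mem_xs hi τ x a b] at hr
    rcases hr with ⟨-, h2, -⟩ | ⟨-, h2, -⟩ | ⟨e, τ', -, ⟨-, -, h2, -⟩ | ⟨-, -, h2, -⟩⟩
    · omega
    · omega
    · rw [h2]; unfold lab; omega
    · rw [h2]; unfold lab; omega
  rcases hcase with ⟨-, -, h1, -⟩ | ⟨-, -, h1, -⟩
  · exact key p hp (h1 ▸ hm)
  · exact key q hq (h1 ▸ hm)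

/-- Edges of strands and segments outside of the box. -/
private theorem Ro_far (h : S.Ok) {i : ℕ} (hi : i < S.n) {τ : Bool} {s s' : Seg}
    (hs : s ∈ S.inner i τ) (hm : ∀ a b, s'.m = some (a, b) → a = 0)
    (hfar : ∀ t : ℝ, 0 ≤ t → t ≤ 1 → S.H ≤ (s'.p + t • s'.d).2 ∨ (s'.p + t • s'.d).2 ≤ -S.H ∨
      2 < (s'.p + t • s'.d).1 ∨ (s'.p + t • s'.d).1 < -2) : Rel s s' := by
  obtain ⟨p, q, hpq, -, hcl, -⟩ := h.inner_point hi hs
  obtain ⟨-, -, -, hp, hq, -⟩ := h.adj hi hpq
  have key : ∀ x y : ℝ, 0 ≤ x → x ≤ 1 → 0 ≤ y → y ≤ 1 → s.p + x • s.d ≠ s'.p + y • s'.d := by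
    intro x y hx0 hx1 hy0 hy1 heq
    obtain ⟨x0, hx2, hx3, hx4⟩ := hcl x hx0 hx1
    have hf := hfar y hy0 hy1
    rw [← heq, hx4] at hf
    have hb := h.bound i hi τ x0 (by linarith) (by linarith)
    have hf' : S.H ≤ S.F i τ x0 ∨ S.F i τ x0 ≤ -S.H ∨ 2 < x0 ∨ x0 < -2 := hf
    rcases hf' with h1 | h1 | h1 | h1
    · linarith [hb.2]
    · linarith [hb.1]
    · linarith
    · linarith
  have hlab : ∀ a b b', s.m = some (a, b) → s'.m = some (a, b') → False := by
    intro a b b' h1 h2
    have e1 := Ro_mark_pos h hi hs h1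
    have e2 := hm a b' h2
    omega
  refine ⟨⟨?_, ?_⟩, ?_, ?_⟩
  · intro x y hx0 hx1 hy0 hy1
    exact key x y hx0.le hx1.le hy0 hy1
  · intro x y hx0 hx1 hy0 hy1
    exact key x y hx0 hx1 hy0.le hy1.le
  · constructor
    · intro hh
      refine absurd ?_ (key 0 0 le_rfl zero_le_one le_rfl zero_le_one)
      rw [zero_smul, zero_smul, add_zero, add_zero]
      exact hh
    · rintro ⟨a, b, b', h1, h2⟩
      exact (hlab a b b' h1 h2).elim
  · intro a b b' h1 h2
    exact (hlab a b b' h1 h2).elim

/-- Proof. `dsj`: an interior point of `s` has abscissa in `(-2, 2)`, a point of the connector `±2`; a point of `s` over `±2` is `(±2, F i τ (±2))`, which is not an interior point of a connector. `start`: if the starts coincide, both are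
`(±2, F i τ (±2))`, and the strand starts there: `s.p = P i true (-2)` or `P i false 2`; but the connector starts at `P j true 2` or `P j false (-2)`; so `F i true (-2) = F j false (-2)` or `F i false 2 = F j true 2`, impossible (`right_lt`, `left_lt`,
`own_left`, `own_right`). -/
theorem Fam.Ok.rel_inner_conn (h : S.Ok) {i j : ℕ} (hi : i < S.n) (hj : j < S.n) {τ τ' : Bool} {s : Seg}
    (hs : s ∈ S.inner i τ) : Rel s (S.conn j τ') := by
  obtain ⟨hm, -, h1, h2⟩ := h.conn_point hj τ'
  refine Ro_vert h hi hs (if τ' then 2 else -2) ?_ hm h1 (fun t h3 h4 => h2 t h3 h4 i hi τ) ?_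
  · cases τ'
    · right; simp
    · left; simp
  · obtain ⟨p, q, hpq, hcase, -, -⟩ := h.inner_point hi hs
    obtain ⟨-, -, hlt, hp, hq, -⟩ := h.adj hi hpq
    intro heq
    rcases hcase with ⟨h5, -, -, rfl⟩ | ⟨h5, -, -, rfl⟩
    · rw [h5] at heq
      cases τ'
      · have e1 : p.1 = -2 := congrArg Prod.fst heq
        have e2 : S.F i true p.1 = S.F j false (-2) := congrArg Prod.snd heq
        rw [e1] at e2
        rcases Nat.lt_trichotomy i j with hij | hij | hij
        · exact absurd e2 (ne_of_lt (h.left_lt hij hj true false))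
        · subst hij
          exact absurd e2 (ne_of_lt (h.own_left i hi (-2) le_rfl (by norm_num)))
        · exact absurd e2 (ne_of_gt (h.left_lt hij hi false true))
      · have e1 : p.1 = 2 := congrArg Prod.fst heq
        linarith
    · rw [h5] at heq
      cases τ'
      · have e1 : q.1 = -2 := congrArg Prod.fst heq
        linarith
      · have e1 : q.1 = 2 := congrArg Prod.fst heq
        have e2 : S.F i false q.1 = S.F j true 2 := congrArg Prod.snd heq
        rw [e1] at e2
        rcases Nat.lt_trichotomy i j with hij | hij | hij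
        · exact absurd e2 (ne_of_gt (h.right_lt hij hj false true))
        · subst hij
          exact absurd e2 (ne_of_gt (h.own_right i hi 2 (by norm_num) le_rfl))
        · exact absurd e2 (ne_of_lt (h.right_lt hij hi true false))

/-- Proof: the points of the frame have `|y| ≥ H` or `|x| ≥ 3`, except the two edges from `(2, H)` to `P 0 false 2` and from `(-2, -H)` to `P 0 true (-2)`, whose interior points have `x = ± 2` and are above all `F i τ 2`, below all `F i τ (-2)`, respectively.
The points of strands have `|x| ≤ 2`, `|y| < H` (`bound`). The labels of the frame are `0`, the labels of strands are positive. -/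
theorem Fam.Ok.rel_inner_fr (h : S.Ok) {i : ℕ} (hi : i < S.n) {τ : Bool} {s : Seg} (hs : s ∈ S.inner i τ)
    {s' : Seg} (hs' : s' ∈ S.fr1 ∨ s' ∈ S.fr2) : Rel s s' := by
  have hH : 0 < S.H := by
    have := h.bound i hi τ 0 (by norm_num) (by norm_num)
    linarith [this.1, this.2]
  have hpB : ∀ c : ℝ, s.p ≠ (c, S.H) ∧ s.p ≠ (c, -S.H) := by
    intro c
    obtain ⟨p, q, hpq, -, hcl, -⟩ := h.inner_point hi hs
    obtain ⟨-, -, -, hp, hq, -⟩ := h.adj hi hpq
    obtain ⟨x0, hx2, hx3, hx4⟩ := hcl 0 le_rfl zero_le_one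
    rw [zero_smul, add_zero] at hx4
    have hb := h.bound i hi τ x0 (by linarith) (by linarith)
    rw [hx4]
    constructor
    · intro heq
      have : S.F i τ x0 = S.H := congrArg Prod.snd heq
      linarith [hb.2]
    · intro heq
      have : S.F i τ x0 = -S.H := congrArg Prod.snd heq
      linarith [hb.1]
  rcases hs' with hs' | hs'
  · unfold Fam.fr1 at hs'
    simp only [List.mem_cons, List.not_mem_nil, or_false] at hs'
    rcases hs' with rfl | rfl | rfl | rfl | rfl | rfl | rfl | rfl
    · refine Ro_far h hi hs (fun a b hab => by simp at hab; exact hab.1.symm) ?_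
      intro t ht0 ht1
      left
      simp only [Seg.d, Prod.snd_add, Prod.smul_snd, Prod.snd_sub, smul_eq_mul]
      nlinarith
    · refine Ro_far h hi hs (fun a b hab => by simp at hab) ?_
      intro t ht0 ht1
      left
      simp only [Seg.d, Prod.snd_add, Prod.smul_snd, Prod.snd_sub, smul_eq_mul]
      nlinarith
    · refine Ro_far h hi hs (fun a b hab => by simp at hab) ?_
      intro t ht0 ht1
      right; right; left
      simp only [Seg.d, Prod.fst_add, Prod.smul_fst, Prod.fst_sub, smul_eq_mul]
      nlinarith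
    · refine Ro_far h hi hs (fun a b hab => by simp at hab) ?_
      intro t ht0 ht1
      right; left
      simp only [Seg.d, Prod.snd_add, Prod.smul_snd, Prod.snd_sub, smul_eq_mul]
      nlinarith
    · refine Ro_far h hi hs (fun a b hab => by simp at hab) ?_
      intro t ht0 ht1
      right; right; right
      simp only [Seg.d, Prod.fst_add, Prod.smul_fst, Prod.fst_sub, smul_eq_mul]
      nlinarith
    · refine Ro_far h hi hs (fun a b hab => by simp at hab) ?_
      intro t ht0 ht1
      left
      simp only [Seg.d, Prod.snd_add, Prod.smul_snd, Prod.snd_sub, smul_eq_mul]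
      nlinarith
    · refine Ro_far h hi hs (fun a b hab => by simp at hab; exact hab.1.symm) ?_
      intro t ht0 ht1
      left
      simp only [Seg.d, Prod.snd_add, Prod.smul_snd, Prod.snd_sub, smul_eq_mul]
      nlinarith
    · have hP : S.P 0 false 2 = ((2 : ℝ), S.F 0 false 2) := rfl
      rw [hP]
      have hlt : S.F 0 false 2 < S.H := (h.bound 0 h.n_pos false 2 (by norm_num) le_rfl).2
      refine Ro_vert h hi hs 2 (Or.inl rfl) rfl ?_ ?_ (hpB 2).1
      · intro t _ _
        rw [Ro_seg]
      · intro t ht0 ht1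
        rw [Ro_seg]
        have hle : S.F i τ 2 ≤ S.F 0 false 2 := by
          rcases Nat.eq_zero_or_pos i with rfl | hpos
          · exact Ro_own2 h hi τ
          · exact (h.right_lt hpos hi false τ).le
        have p2 : 0 < (1 - t) * (S.H - S.F 0 false 2) := mul_pos (by linarith) (by linarith)
        refine ne_of_gt ?_
        show S.F i τ 2 < S.H + t * (S.F 0 false 2 - S.H)
        linarith
  · unfold Fam.fr2 at hs'
    simp only [List.mem_cons, List.not_mem_nil, or_false] at hs'
    rcases hs' with rfl | rfl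
    · refine Ro_far h hi hs (fun a b hab => by simp at hab) ?_
      intro t ht0 ht1
      right; left
      simp only [Seg.d, Prod.snd_add, Prod.smul_snd, Prod.snd_sub, smul_eq_mul]
      nlinarith
    · have hP : S.P 0 true (-2) = ((-2 : ℝ), S.F 0 true (-2)) := rfl
      rw [hP]
      have hlt : -S.H < S.F 0 true (-2) := (h.bound 0 h.n_pos true (-2) le_rfl (by norm_num)).1
      refine Ro_vert h hi hs (-2) (Or.inr rfl) rfl ?_ ?_ (hpB (-2)).2
      · intro t _ _
        rw [Ro_seg]
      · intro t ht0 ht1
        rw [Ro_seg]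
        have hle : S.F 0 true (-2) ≤ S.F i τ (-2) := by
          rcases Nat.eq_zero_or_pos i with rfl | hpos
          · exact Ro_ownm' h hi τ
          · exact (h.left_lt hpos hi true τ).le
        have p2 : 0 < (1 - t) * (S.F 0 true (-2) + S.H) := mul_pos (by linarith) (by linarith)
        refine ne_of_lt ?_
        show -S.H + t * (S.F 0 true (-2) - -S.H) < S.F i τ (-2)
        linarith

end Pool.Agent.SO
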