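import Pool.Agent.Lib.MP_2f17d2_lc.Mg.G005

/-!
# Task Sp1: normalisation of a line arrangement
-/

set_option autoImplicit false

namespace Pool.Agent.SO

variable {n : ℕ} {w : List ℕ}

open Filter Topology in
private theorem Sp1_small (K : ℝ) {d : ℝ} (hd : 0 < d) : ∀ᶠ ε in 𝓝[>] (0 : ℝ), K * ε < d := by
  have h : Tendsto (fun ε : ℝ => K * ε) (𝓝 0) (𝓝 (K * 0)) :=
    (continuous_const.mul continuous_id).tendsto 0
  rw [mul_zero] at h
  exact (h.eventually_lt_const hd).filter_mono nhdsWithin_le_nhds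

/-- Proof. Let `m₀, c₀` be the slopes and heights of `Stretchable`, `y e = (c₀ j - c₀ i) / (m₀ i - m₀ j)` for the event `e = (i, j)`. Choose `B > 0` with `|y e| < B / 2` for all `e < w.length`; put `m i = B * m₀ i`, `c i = c₀ i`, `x e = y e / B`. Finally choose `ε > 0` small: finitely many
conditions `16 * ε ≤ m i - m j` and `2 * ε / (m i - m j) + 2 * ε / (m i' - m j') < x e' - x e` with positive right sides (each one holds for all small `ε`: e.g. `Filter.Eventually` in `𝓝[>] 0` with finite intersections, or explicit minima). The pairwise condition of `Stretchable`: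
`List.pairwise_iff_getElem`. -/
theorem exists_params (hw : Wiring n w) (h : Stretchable n w) : ∃ (m c x : ℕ → ℝ) (ε : ℝ), 0 < ε ∧
    (∀ e < w.length, ∀ i j, (evs (List.range n) w).getD e (0, 0) = (i, j) →
      m i * x e + c i = m j * x e + c j ∧ -1 / 2 < x e ∧ x e < 1 / 2) ∧
    (∀ i j, i < j → j < n → 16 * ε ≤ m i - m j) ∧
    (∀ e e', e < e' → e' < w.length → ∀ i j i' j', (evs (List.range n) w).getD e (0, 0) = (i, j) →
      (evs (List.range n) w).getD e' (0, 0) = (i', j') → (i = i' ∨ i = j' ∨ j = i' ∨ j = j') →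
      x e + 2 * ε / (m i - m j) < x e' - 2 * ε / (m i' - m j')) := by
  obtain ⟨m₀, c₀, hm₀, hp⟩ := h
  set ev : ℕ → ℕ × ℕ := fun e => (evs (List.range n) w).getD e (0, 0) with hev
  have hlen : (evs (List.range n) w).length = w.length := length_evs _ _
  have hlt : ∀ e < w.length, (ev e).1 < (ev e).2 ∧ (ev e).2 < n := fun e he =>
    hw.evs_lt (by rw [hlen]; exact he)
  have hdp : ∀ e < w.length, 0 < m₀ (ev e).1 - m₀ (ev e).2 := fun e he =>
    sub_pos.2 (hm₀ _ _ (hlt e he).1 (hlt e he).2)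
  set y : ℕ → ℝ := fun e => (c₀ (ev e).2 - c₀ (ev e).1) / (m₀ (ev e).1 - m₀ (ev e).2) with hy
  have hyp : ∀ e e', e < e' → e' < w.length → ((ev e).1 = (ev e').1 ∨ (ev e).1 = (ev e').2 ∨
      (ev e).2 = (ev e').1 ∨ (ev e).2 = (ev e').2) → y e < y e' := by
    intro e e' hee he' hc
    have h1 : e < (evs (List.range n) w).length := by rw [hlen]; exact hee.trans he'
    have h2 : e' < (evs (List.range n) w).length := by rw [hlen]; exact he'
    have h3 := (List.pairwise_iff_getElem.1 hp) e e' h1 h2 hee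
    have h4 : ev e = (evs (List.range n) w)[e] := List.getD_eq_getElem _ _ h1
    have h5 : ev e' = (evs (List.range n) w)[e'] := List.getD_eq_getElem _ _ h2
    rw [← h4, ← h5] at h3
    exact h3 hc
  obtain ⟨B, hB, hBy⟩ : ∃ B : ℝ, 0 < B ∧ ∀ e < w.length, |y e| < B / 2 := by
    refine ⟨2 * (∑ e ∈ Finset.range w.length, |y e| + 1), ?_, ?_⟩
    · have : 0 ≤ ∑ e ∈ Finset.range w.length, |y e| := Finset.sum_nonneg fun e _ => abs_nonneg _
      linarith
    · intro e he
      have : |y e| ≤ ∑ e ∈ Finset.range w.length, |y e| :=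
        Finset.single_le_sum (f := fun e => |y e|) (fun e _ => abs_nonneg _) (Finset.mem_range.2 he)
      linarith
  have hm : ∀ i j, i < j → j < n → 0 < B * m₀ i - B * m₀ j := by
    intro i j hij hj
    rw [← mul_sub]
    exact mul_pos hB (sub_pos.2 (hm₀ i j hij hj))
  have hx : ∀ e e', e < e' → e' < w.length → ((ev e).1 = (ev e').1 ∨ (ev e).1 = (ev e').2 ∨
      (ev e).2 = (ev e').1 ∨ (ev e).2 = (ev e').2) → 0 < y e' / B - y e / B := by
    intro e e' hee he' hc
    rw [← sub_div]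
    exact div_pos (sub_pos.2 (hyp e e' hee he' hc)) hB
  have E1 : ∀ᶠ ε in nhdsWithin (0 : ℝ) (Set.Ioi 0), ∀ p ∈ Finset.range n ×ˢ Finset.range n,
      p.1 < p.2 → 16 * ε ≤ B * m₀ p.1 - B * m₀ p.2 := by
    rw [Filter.eventually_all_finset]
    intro p hpm
    by_cases h1 : p.1 < p.2
    · have h2 : p.2 < n := Finset.mem_range.1 (Finset.mem_product.1 hpm).2
      exact (Sp1_small 16 (hm _ _ h1 h2)).mono fun ε hε _ => hε.le
    · exact Filter.Eventually.of_forall fun ε h3 => absurd h3 h1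
  have E2 : ∀ᶠ ε in nhdsWithin (0 : ℝ) (Set.Ioi 0),
      ∀ p ∈ Finset.range w.length ×ˢ Finset.range w.length,
      (p.1 < p.2 ∧ ((ev p.1).1 = (ev p.2).1 ∨ (ev p.1).1 = (ev p.2).2 ∨
        (ev p.1).2 = (ev p.2).1 ∨ (ev p.1).2 = (ev p.2).2)) →
      (2 / (B * m₀ (ev p.1).1 - B * m₀ (ev p.1).2) + 2 / (B * m₀ (ev p.2).1 - B * m₀ (ev p.2).2)) * ε <
        y p.2 / B - y p.1 / B := by
    rw [Filter.eventually_all_finset]
    intro p hpm
    by_cases h1 : p.1 < p.2 ∧ ((ev p.1).1 = (ev p.2).1 ∨ (ev p.1).1 = (ev p.2).2 ∨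
        (ev p.1).2 = (ev p.2).1 ∨ (ev p.1).2 = (ev p.2).2)
    · have h2 : p.2 < w.length := Finset.mem_range.1 (Finset.mem_product.1 hpm).2
      exact (Sp1_small _ (hx _ _ h1.1 h2 h1.2)).mono fun ε hε _ => hε
    · exact Filter.Eventually.of_forall fun ε h3 => absurd h3 h1
  obtain ⟨ε, ⟨he1, he2⟩, he0⟩ := ((E1.and E2).and self_mem_nhdsWithin).exists
  refine ⟨fun i => B * m₀ i, c₀, fun e => y e / B, ε, he0, ?_, ?_, ?_⟩
  · intro e he i j hij
    have h1 : ev e = (i, j) := hij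
    have h2 := hdp e he
    have h3 : y e = (c₀ j - c₀ i) / (m₀ i - m₀ j) := by simp only [hy, h1]
    rw [h1] at h2
    refine ⟨?_, ?_, ?_⟩
    · show B * m₀ i * (y e / B) + c₀ i = B * m₀ j * (y e / B) + c₀ j
      have h4 : (m₀ i - m₀ j) * y e = c₀ j - c₀ i := by
        rw [h3, mul_div_cancel₀ _ h2.ne']
      have h5 : B * (y e / B) = y e := mul_div_cancel₀ _ hB.ne'
      linear_combination (m₀ i - m₀ j) * h5 + h4
    · show -1 / 2 < y e / B
      rw [lt_div_iff₀ hB]
      have := (abs_lt.1 (hBy e he)).1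
      linarith
    · show y e / B < 1 / 2
      rw [div_lt_iff₀ hB]
      have := (abs_lt.1 (hBy e he)).2
      linarith
  · intro i j hij hj
    exact he1 (i, j) (Finset.mem_product.2 ⟨Finset.mem_range.2 (hij.trans hj),
      Finset.mem_range.2 hj⟩) hij
  · intro e e' hee he' i j i' j' hij hij' hc
    have h1 : ev e = (i, j) := hij
    have h2 : ev e' = (i', j') := hij'
    have h3 := he2 (e, e') (Finset.mem_product.2 ⟨Finset.mem_range.2 (hee.trans he'),
      Finset.mem_range.2 he'⟩) ⟨hee, by rw [h1, h2]; exact hc⟩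
    simp only [h1, h2] at h3
    show y e / B + 2 * ε / (B * m₀ i - B * m₀ j) < y e' / B - 2 * ε / (B * m₀ i' - B * m₀ j')
    have h4 : 2 * ε / (B * m₀ i - B * m₀ j) = 2 / (B * m₀ i - B * m₀ j) * ε := by ring
    have h5 : 2 * ε / (B * m₀ i' - B * m₀ j') = 2 / (B * m₀ i' - B * m₀ j') * ε := by ring
    rw [h4, h5]
    linarith

end Pool.Agent.SO
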