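import Pool.Agent.Lib.MP_2f17d2_lc.Mg.G003
import Pool.Agent.Lib.MP_2f17d2_lc.SO.Sp1

/-!
# Task Sf: the family of a line arrangement
-/

set_option autoImplicit false

namespace Pool.Agent.SO

variable {n : ℕ} {w : List ℕ}

/-- The family of a line arrangement. -/
noncomputable def sFam (n : ℕ) (w : List ℕ) (m c x : ℕ → ℝ) (ε H : ℝ) : Fam where
  n := n
  E := evs (List.range n) w
  F := fun i τ z => m i * z + c i + ε * phi τ z
  X := fun e a b => x e + (sg b - sg a) * ε /
    (m ((evs (List.range n) w).getD e (0, 0)).1 - m ((evs (List.range n) w).getD e (0, 0)).2)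
  G := fun _ => []
  H := H

private theorem Sf_sg (a b : Bool) : -2 ≤ sg b - sg a ∧ sg b - sg a ≤ 2 := by
  cases a <;> cases b <;> norm_num [sg]

private theorem Sf_X {ε D x : ℝ} (hε : 0 < ε) (hD : 16 * ε ≤ D) (a b : Bool) :
    x - 2 * ε / D ≤ x + (sg b - sg a) * ε / D ∧ x + (sg b - sg a) * ε / D ≤ x + 2 * ε / D ∧
      2 * ε / D ≤ 1 / 8 := by
  have hD0 : 0 < D := by linarith
  obtain ⟨h1, h2⟩ := Sf_sg a b
  refine ⟨?_, ?_, ?_⟩
  · have h3 : -2 * ε / D ≤ (sg b - sg a) * ε / D := by
      apply div_le_div_of_nonneg_right _ hD0.le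
      exact mul_le_mul_of_nonneg_right h1 hε.le
    have h4 : -2 * ε / D = -(2 * ε / D) := by ring
    linarith
  · have h3 : (sg b - sg a) * ε / D ≤ 2 * ε / D := by
      apply div_le_div_of_nonneg_right _ hD0.le
      exact mul_le_mul_of_nonneg_right h2 hε.le
    linarith
  · rw [div_le_div_iff₀ hD0 (by norm_num)]
    linarith

private theorem Sf_mid {mi ci mj cj x ε z : ℝ} (hε : 0 < ε) (hD : 16 * ε ≤ mi - mj)
    (hx : mi * x + ci = mj * x + cj) (a b : Bool) (h0 : -1 ≤ z) (h1 : z ≤ 1) :
    (mi * z + ci + ε * phi a z) - (mj * z + cj + ε * phi b z) =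
      (mi - mj) * (z - (x + (sg b - sg a) * ε / (mi - mj))) := by
  have hD0 : mi - mj ≠ 0 := by
    have : 0 < mi - mj := by linarith
    exact this.ne'
  rw [phi_eq h0 h1 a, phi_eq h0 h1 b]
  have h2 : (mi - mj) * ((sg b - sg a) * ε / (mi - mj)) = (sg b - sg a) * ε := by
    field_simp
  have h3 : (mi - mj) * (z - (x + (sg b - sg a) * ε / (mi - mj))) =
      (mi - mj) * (z - x) - (mi - mj) * ((sg b - sg a) * ε / (mi - mj)) := by ring
  rw [h3, h2]
  linear_combination hx

private theorem Sf_right {mi ci mj cj x ε z : ℝ} (hε : 0 < ε) (hD : 16 * ε ≤ mi - mj)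
    (hx : mi * x + ci = mj * x + cj) (hx1 : x < 1 / 2) (a b : Bool) (h0 : 1 ≤ z) (h1 : z ≤ 2) :
    mj * z + cj + ε * phi b z < mi * z + ci + ε * phi a z := by
  obtain ⟨h2, h3⟩ := phi_bd (x := z) (by linarith) h1 a
  obtain ⟨h4, h5⟩ := phi_bd (x := z) (by linarith) h1 b
  have h6 : 16 * ε * (1 / 2) ≤ (mi - mj) * (z - x) := by
    apply mul_le_mul hD (by linarith) (by norm_num) (by linarith)
  have h7 : ε * phi b z ≤ ε * 1 := mul_le_mul_of_nonneg_left h5 hε.le
  have h8 : ε * (-3) ≤ ε * phi a z := mul_le_mul_of_nonneg_left h2 hε.le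
  nlinarith

private theorem Sf_left {mi ci mj cj x ε z : ℝ} (hε : 0 < ε) (hD : 16 * ε ≤ mi - mj)
    (hx : mi * x + ci = mj * x + cj) (hx1 : -1 / 2 < x) (a b : Bool) (h0 : -2 ≤ z) (h1 : z ≤ -1) :
    mi * z + ci + ε * phi a z < mj * z + cj + ε * phi b z := by
  obtain ⟨h2, h3⟩ := phi_bd (x := z) h0 (by linarith) a
  obtain ⟨h4, h5⟩ := phi_bd (x := z) h0 (by linarith) b
  have h6 : 16 * ε * (1 / 2) ≤ (mi - mj) * (x - z) := by
    apply mul_le_mul hD (by linarith) (by norm_num) (by linarith)
  have h7 : ε * phi a z ≤ ε * 1 := mul_le_mul_of_nonneg_left h3 hε.le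
  have h8 : ε * (-3) ≤ ε * phi b z := mul_le_mul_of_nonneg_left h4 hε.le
  nlinarith

/-- Proof. `H`: larger than `2 * |m i| + |c i| + 3 * ε` for all `i < n`. `lt`, `once`: `Wiring.evs_lt`, `Wiring.exists_ev`, `length_evs`. `own_*` from `phi_*`. Let `e = (i, j)`, `D = m i - m j ≥ 16 ε`, so `|X e a b - x e| ≤ 2 ε / D ≤ 1 / 8`. On `[-1, 1]`
`F i a z - F j b z = D * (z - x e) + ε * (sg a - sg b) = D * (z - X e a b)`. For `1 ≤ |z| ≤ 2` the number `D * (z - x e)` has absolute value at least `D / 2 ≥ 8 ε` and `|ε * (phi a z - phi b z)| ≤ 4 ε`, so the difference has the sign of `z`. `affine`: `phi_affine`. `X_lt` from the last property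
of the parameters. -/
theorem sFam_ok (hw : Wiring n w) (hn : 0 < n) (he : n % 2 = 0) {m c x : ℕ → ℝ} {ε : ℝ} (hε : 0 < ε)
    (h1 : ∀ e < w.length, ∀ i j, (evs (List.range n) w).getD e (0, 0) = (i, j) →
      m i * x e + c i = m j * x e + c j ∧ -1 / 2 < x e ∧ x e < 1 / 2)
    (h2 : ∀ i j, i < j → j < n → 16 * ε ≤ m i - m j)
    (h3 : ∀ e e', e < e' → e' < w.length → ∀ i j i' j', (evs (List.range n) w).getD e (0, 0) = (i, j) →
      (evs (List.range n) w).getD e' (0, 0) = (i', j') → (i = i' ∨ i = j' ∨ j = i' ∨ j = j') →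
      x e + 2 * ε / (m i - m j) < x e' - 2 * ε / (m i' - m j')) :
    ∃ H, (sFam n w m c x ε H).Ok := by
  have hlen : (evs (List.range n) w).length = w.length := length_evs _ _
  have hev : ∀ e < w.length, ∀ i j, (evs (List.range n) w).getD e (0, 0) = (i, j) → i < j ∧ j < n := by
    intro e he i j hij
    have h := hw.evs_lt (e := e) (by rw [hlen]; exact he)
    rw [hij] at h
    exact h
  have hD : ∀ e < w.length, 16 * ε ≤ m ((evs (List.range n) w).getD e (0, 0)).1 -
      m ((evs (List.range n) w).getD e (0, 0)).2 := by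
    intro e he
    have h := hw.evs_lt (e := e) (by rw [hlen]; exact he)
    exact h2 _ _ h.1 h.2
  have hx : ∀ e < w.length, m ((evs (List.range n) w).getD e (0, 0)).1 * x e +
      c ((evs (List.range n) w).getD e (0, 0)).1 = m ((evs (List.range n) w).getD e (0, 0)).2 * x e +
      c ((evs (List.range n) w).getD e (0, 0)).2 ∧ -1 / 2 < x e ∧ x e < 1 / 2 := by
    intro e he
    exact h1 e he _ _ rfl
  have hXm : ∀ e < w.length, ∀ a b, -1 < x e + (sg b - sg a) * ε /
      (m ((evs (List.range n) w).getD e (0, 0)).1 - m ((evs (List.range n) w).getD e (0, 0)).2) ∧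
      x e + (sg b - sg a) * ε /
      (m ((evs (List.range n) w).getD e (0, 0)).1 - m ((evs (List.range n) w).getD e (0, 0)).2) < 1 := by
    intro e he a b
    obtain ⟨h3, h4, h5⟩ := Sf_X (x := x e) hε (hD e he) a b
    obtain ⟨h6, h7, h8⟩ := hx e he
    constructor <;> linarith
  refine ⟨∑ i ∈ Finset.range n, (2 * |m i| + |c i|) + 3 * ε + 1, ?_⟩
  set H := ∑ i ∈ Finset.range n, (2 * |m i| + |c i|) + 3 * ε + 1 with hH
  refine
    { n_pos := hn
      n_even := he
      lt := ?_
      once := ?_
      bound := ?_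
      own_in := ?_
      own_left := ?_
      own_right := ?_
      own_A := ?_
      own_B := ?_
      X_mem := ?_
      cross := ?_
      cross_lt := ?_
      cross_gt := ?_
      G_mem := ?_
      G_sorted := ?_
      G_lt := ?_
      G_X := ?_
      X_G := ?_
      X_fst := ?_
      X_snd := ?_
      X_lt := ?_
      affine := ?_ }
  · intro e he
    exact hw.evs_lt he
  · intro i j hij hj
    obtain ⟨e, he, h3, h4⟩ := hw.exists_ev hij hj
    exact ⟨e, by simpa only [sFam, hlen] using he, h3, fun e' he' => h4 e' (by simpa only [sFam, hlen] using he')⟩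
  · intro i hi τ z hz0 hz1
    show -H < m i * z + c i + ε * phi τ z ∧ m i * z + c i + ε * phi τ z < H
    have hi' : i ∈ Finset.range n := Finset.mem_range.mpr hi
    have h3 : 2 * |m i| + |c i| ≤ ∑ i ∈ Finset.range n, (2 * |m i| + |c i|) :=
      Finset.single_le_sum (f := fun i => 2 * |m i| + |c i|) (fun _ _ => by positivity) hi'
    obtain ⟨h4, h5⟩ := phi_bd hz0 hz1 τ
    have h6 : |m i * z| ≤ 2 * |m i| := by
      rw [abs_mul, mul_comm]
      apply mul_le_mul_of_nonneg_right _ (abs_nonneg _)
      rw [abs_le]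
      constructor <;> linarith
    have h7 := abs_le.mp h6
    have h8 := neg_abs_le (c i)
    have h9 := le_abs_self (c i)
    have h10 : ε * phi τ z ≤ ε * 1 := mul_le_mul_of_nonneg_left h5 hε.le
    have h11 : ε * (-3) ≤ ε * phi τ z := mul_le_mul_of_nonneg_left h4 hε.le
    constructor
    · linarith [h7.1]
    · linarith [h7.2]
  · intro i _ z h3 h4
    show m i * z + c i + ε * phi false z < m i * z + c i + ε * phi true z
    have := mul_lt_mul_of_pos_left (phi_in h3 h4) hε
    linarith
  · intro i _ z _ h4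
    show m i * z + c i + ε * phi true z < m i * z + c i + ε * phi false z
    have := mul_lt_mul_of_pos_left (phi_left h4) hε
    linarith
  · intro i _ z h3 _
    show m i * z + c i + ε * phi true z < m i * z + c i + ε * phi false z
    have := mul_lt_mul_of_pos_left (phi_right h3) hε
    linarith
  · intro i _
    show m i * (-3 / 2) + c i + ε * phi true (-3 / 2) = m i * (-3 / 2) + c i + ε * phi false (-3 / 2)
    rw [phi_A]
  · intro i _
    show m i * (3 / 2) + c i + ε * phi true (3 / 2) = m i * (3 / 2) + c i + ε * phi false (3 / 2)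
    rw [phi_B]
  · intro e he a b
    exact hXm e (hlen ▸ he) a b
  · intro e he i j hij a b
    have he' : e < w.length := hlen ▸ he
    have hij' : (evs (List.range n) w).getD e (0, 0) = (i, j) := hij
    have h3 := hXm e he' a b
    have h4 := hD e he'
    have h5 := (hx e he').1
    simp only [sFam]
    rw [hij'] at h3 h4 h5 ⊢
    have h6 := Sf_mid hε h4 h5 a b h3.1.le h3.2.le
    rw [sub_self, mul_zero] at h6
    exact sub_eq_zero.mp h6
  · intro e he i j hij a b z hz0 hz1
    have he' : e < w.length := hlen ▸ he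
    have hij' : (evs (List.range n) w).getD e (0, 0) = (i, j) := hij
    have h3 := hXm e he' a b
    have h4 := hD e he'
    obtain ⟨h5, h5a, h5b⟩ := hx e he'
    simp only [sFam] at hz1 ⊢
    rw [hij'] at h3 h4 h5 hz1
    rcases le_total (-1) z with h7 | h7
    · have h6 := Sf_mid hε h4 h5 a b h7 (by linarith [h3.2])
      have h8 : (m i - m j) * (z - (x e + (sg b - sg a) * ε / (m i - m j))) < 0 := by
        apply mul_neg_of_pos_of_neg
        · simp only at h4
          linarith
        · simp only at hz1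
          linarith
      simp only at h6
      linarith
    · exact Sf_left hε h4 h5 h5a a b hz0 h7
  · intro e he i j hij a b z hz0 hz1
    have he' : e < w.length := hlen ▸ he
    have hij' : (evs (List.range n) w).getD e (0, 0) = (i, j) := hij
    have h3 := hXm e he' a b
    have h4 := hD e he'
    obtain ⟨h5, h5a, h5b⟩ := hx e he'
    simp only [sFam] at hz0 ⊢
    rw [hij'] at h3 h4 h5 hz0
    rcases le_total z 1 with h7 | h7
    · have h6 := Sf_mid hε h4 h5 a b (by linarith [h3.1]) h7
      have h8 : 0 < (m i - m j) * (z - (x e + (sg b - sg a) * ε / (m i - m j))) := by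
        apply mul_pos
        · simp only at h4
          linarith
        · simp only at hz0
          linarith
      simp only at h6
      linarith
    · exact Sf_right hε h4 h5 h5b a b h7 hz1
  · intro e _ g hg
    simp [sFam] at hg
  · intro e _
    simp [sFam]
  · intro e e' _ _ g hg
    simp [sFam] at hg
  · intro e _ e' _ g hg
    simp [sFam] at hg
  · intro e _ e' _ _ g hg
    simp [sFam] at hg
  · intro e he a
    have he' : e < w.length := hlen ▸ he
    have h4 := hD e he'
    simp only [sFam]
    have h5 : 0 < m ((evs (List.range n) w).getD e (0, 0)).1 - m ((evs (List.range n) w).getD e (0, 0)).2 := by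
      linarith
    have h6 : (sg false - sg a) * ε / (m ((evs (List.range n) w).getD e (0, 0)).1 -
        m ((evs (List.range n) w).getD e (0, 0)).2) < (sg true - sg a) * ε /
        (m ((evs (List.range n) w).getD e (0, 0)).1 - m ((evs (List.range n) w).getD e (0, 0)).2) := by
      apply div_lt_div_of_pos_right _ h5
      apply mul_lt_mul_of_pos_right _ hε
      norm_num [sg]
    linarith
  · intro e he a
    have he' : e < w.length := hlen ▸ he
    have h4 := hD e he'
    simp only [sFam]
    have h5 : 0 < m ((evs (List.range n) w).getD e (0, 0)).1 - m ((evs (List.range n) w).getD e (0, 0)).2 := by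
      linarith
    have h6 : (sg a - sg true) * ε / (m ((evs (List.range n) w).getD e (0, 0)).1 -
        m ((evs (List.range n) w).getD e (0, 0)).2) < (sg a - sg false) * ε /
        (m ((evs (List.range n) w).getD e (0, 0)).1 - m ((evs (List.range n) w).getD e (0, 0)).2) := by
      apply div_lt_div_of_pos_right _ h5
      apply mul_lt_mul_of_pos_right _ hε
      cases a <;> norm_num [sg]
    linarith
  · intro e e' hee he' i hi hi' a b a' b'
    have he1 : e' < w.length := hlen ▸ he'
    have he2 : e < w.length := by omega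
    obtain ⟨-, h4, -⟩ := Sf_X (x := x e) hε (hD e he2) a b
    obtain ⟨h5, -, -⟩ := Sf_X (x := x e') hε (hD e' he1) a' b'
    have h6 := h3 e e' hee he1 ((evs (List.range n) w).getD e (0, 0)).1
      ((evs (List.range n) w).getD e (0, 0)).2 ((evs (List.range n) w).getD e' (0, 0)).1
      ((evs (List.range n) w).getD e' (0, 0)).2 rfl rfl (by
      simp only [sFam] at hi hi'
      rcases hi with hi | hi <;> rcases hi' with hi' | hi' <;> rw [hi, hi'] <;> simp)
    simp only [sFam]
    linarith
  · intro i _ τ a b ha hab hb h4 h5 _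
    obtain ⟨m', c', h6⟩ := phi_affine τ hab h4 h5
    refine ⟨m i + ε * m', c i + ε * c', fun z hz0 hz1 => ?_⟩
    simp only [sFam]
    rw [h6 z hz0 hz1]
    ring

/-- The upper strands are sums of an affine function and a positive multiple of `phi true`; the lower strands are affine. -/
theorem sFam_cw {m c x : ℕ → ℝ} {ε : ℝ} (hε : 0 < ε) (H : ℝ) : (sFam n w m c x ε H).Cw := by
  intro i _
  constructor
  · refine ⟨convex_Icc _ _, ?_⟩
    intro y hy z hz a b ha hb hab
    have h := phi_concave.2 hy hz ha hb hab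
    simp only [sFam, smul_eq_mul] at h ⊢
    have h2 := mul_le_mul_of_nonneg_left h hε.le
    have h3 : c i = a * c i + b * c i := by rw [← add_mul, hab, one_mul]
    nlinarith
  · refine ⟨convex_Icc _ _, ?_⟩
    intro y hy z hz a b ha hb hab
    simp only [sFam, smul_eq_mul, phi]
    have h3 : c i = a * c i + b * c i := by rw [← add_mul, hab, one_mul]
    have h4 : ε = a * ε + b * ε := by rw [← add_mul, hab, one_mul]
    simp
    nlinarith

end Pool.Agent.SO
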