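import Pool.Agent.Lib.MP_2f17d2_lc.SO.Red

/-!
# Segments of a polygonal curve: definitions
-/

set_option autoImplicit false

namespace Pool.Agent.SO

/-- An edge: start, end, mark of the start. -/
structure Seg where
  p : Pt
  q : Pt
  m : Option (ℕ × Bool)

/-- The edges of the open polygonal path with the vertices `V` followed by the point `z`. -/
def segs : Poly → Pt → List Seg
  | [], _ => []
  | [v], z => [⟨v.1, z, v.2⟩]
  | v :: v' :: V, z => ⟨v.1, v'.1, v.2⟩ :: segs (v' :: V) z

/-- The direction of an edge. -/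
def Seg.d (s : Seg) : Pt := s.q - s.p

/-- The two edges do not meet, except in common end points. -/
def Dsj (s s' : Seg) : Prop :=
  (∀ x y : ℝ, 0 < x → x < 1 → 0 ≤ y → y ≤ 1 → s.p + x • s.d ≠ s'.p + y • s'.d) ∧
  (∀ x y : ℝ, 0 ≤ x → x ≤ 1 → 0 < y → y < 1 → s.p + x • s.d ≠ s'.p + y • s'.d)

/-- The relation between an edge and a later edge. -/
structure Rel (s s' : Seg) : Prop where
  dsj : Dsj s s'
  start : s.p = s'.p ↔ ∃ a b b', s.m = some (a, b) ∧ s'.m = some (a, b')
  sign : ∀ a b b', s.m = some (a, b) → s'.m = some (a, b') →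
    cr s.d s'.d ≠ 0 ∧ (b = true ↔ 0 < cr s.d s'.d) ∧ (b' = true ↔ cr s.d s'.d < 0)

/-- The relation between an edge and the next edge. -/
structure Nxt (s s' : Seg) : Prop where
  flat : s'.m ≠ none → Same s.d s'.d
  turn : Same s.d s'.d ∨ cr s.d s'.d ≠ 0

/-- The edge goes straight on to the next edge or there is a turn to the right. -/
def NxtR (s s' : Seg) : Prop := Same s.d s'.d ∨ cr s.d s'.d < 0

/-- The first vertex. -/
def hd (V : Poly) : Pt := (V.headD ((0, 0), none)).1

end Pool.Agent.SO
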